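import Pool.Agent.T2H28.OT.Psi

/-!
# Numerical bounds
-/

set_option autoImplicit false

namespace Pool.Agent.T2H28.OT

open MeasureTheory ProbabilityTheory
open scoped ENNReal NNReal

lemma f0_le2 {s : ℝ} (hs : 0 < s) (hs1 : s ≤ 2) : f0 s ≤ 5 / Real.sqrt s := by
  have hsq : 0 < Real.sqrt s := Real.sqrt_pos.2 hs
  rcases le_total s 1 with h | h
  · refine (f0_le hs h).trans ?_
    exact div_le_div_of_nonneg_right (by norm_num) hsq.le
  · have h1 : f0 s ≤ f0 1 := f0_anti one_pos h
    have h2 : f0 1 ≤ 3 := by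
      have := f0_le one_pos le_rfl
      simpa using this
    have h3 : Real.sqrt s ≤ 3 / 2 := by
      rw [Real.sqrt_le_left (by norm_num)]
      linarith
    have h4 : 3 ≤ 5 / Real.sqrt s := by
      rw [le_div_iff₀ hsq]; linarith
    linarith

/-- The function `s ^ (-3/2)`. -/
noncomputable def w3 (s : ℝ) : ℝ := 1 / (s * Real.sqrt s)

lemma w3_pos {s : ℝ} (hs : 0 < s) : 0 < w3 s := by
  unfold w3
  have := Real.sqrt_pos.2 hs
  positivity

lemma D_le {s : ℝ} (hs : 0 < s) (hs1 : s ≤ 2) : D s ≤ 125 * w3 s := by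
  have hsq : 0 < Real.sqrt s := Real.sqrt_pos.2 hs
  unfold D w3
  calc f0 s ^ 3 ≤ (5 / Real.sqrt s) ^ 3 :=
        pow_le_pow_left₀ (f0_pos hs).le (f0_le2 hs hs1) 3
    _ = 125 * (1 / (s * Real.sqrt s)) := by
        rw [div_pow, show Real.sqrt s ^ 3 = Real.sqrt s ^ 2 * Real.sqrt s by ring,
          Real.sq_sqrt hs.le]
        norm_num
        ring

lemma D_one : D 1 ≤ 27 := by
  unfold D
  have := f0_le one_pos le_rfl
  have h2 : f0 1 ≤ 3 := by simpa using this
  calc f0 1 ^ 3 ≤ 3 ^ 3 := pow_le_pow_left₀ (f0_pos one_pos).le h2 3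
    _ = 27 := by norm_num

lemma D_le_all {s : ℝ} (hs : 0 < s) : D s ≤ 125 * w3 s + 27 := by
  rcases le_total s 1 with h | h
  · have := D_le hs (by linarith)
    linarith
  · have h1 := D_anti one_pos h
    have h2 := D_one
    have h3 := w3_pos hs
    linarith

lemma D_decay {s : ℝ} (hs : 1 ≤ s) : D s - 1 ≤ 52 * Real.exp (-s) := by
  have h1 := f0_decay hs
  have h2 := one_le_f0 (s := s) (by linarith)
  have h3 : f0 s ≤ 3 := by
    have h4 := f0_anti one_pos hs
    have h5 := f0_le one_pos le_rfl
    have h6 : f0 1 ≤ 3 := by simpa using h5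
    linarith
  unfold D
  have h4 : f0 s ^ 3 - 1 = (f0 s - 1) * (f0 s ^ 2 + f0 s + 1) := by ring
  rw [h4]
  have h5 : f0 s ^ 2 + f0 s + 1 ≤ 13 := by nlinarith
  have h6 : 0 ≤ f0 s - 1 := by linarith
  have h7 : 0 ≤ f0 s ^ 2 + f0 s + 1 := by positivity
  calc (f0 s - 1) * (f0 s ^ 2 + f0 s + 1) ≤ (4 * Real.exp (-s)) * 13 := by
        apply mul_le_mul h1 h5 h7
        have := Real.exp_pos (-s)
        positivity
    _ = 52 * Real.exp (-s) := by ring

/-- The integrable majorant of the fluctuation bound. -/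
noncomputable def eb (a s : ℝ) : ℝ := 500 * w3 (a + s) + 104 * Real.exp (-s)

lemma ee_le {a s : ℝ} (ha : 0 < a) (ha1 : a ≤ 1) (hs : 0 < s) : ee a s ≤ eb a s := by
  have hw := w3_pos (s := a + s) (by linarith)
  have he := Real.exp_pos (-s)
  unfold ee eb
  split_ifs with h
  · have h1 := D_le (s := a + s) (by linarith) (by linarith)
    have h2 := one_le_D (s := a + s) (by linarith)
    linarith
  · push Not at h
    have := D_decay h.le
    linarith

lemma w3_cont {a : ℝ} (ha : 0 < a) : ContinuousOn (fun s => w3 (a + s)) (Set.Ici 0) := by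
  unfold w3
  apply ContinuousOn.div continuousOn_const
  · fun_prop
  · intro s hs
    have hs' : (0 : ℝ) ≤ s := hs
    have h1 : 0 < a + s := by linarith
    have := Real.sqrt_pos.2 h1
    positivity

lemma w3_integral {a T : ℝ} (ha : 0 < a) (hT : 0 ≤ T) :
    IntervalIntegrable (fun s => w3 (a + s)) volume 0 T ∧
    ∫ s in (0 : ℝ)..T, w3 (a + s) ≤ 2 / Real.sqrt a := by
  have hint : IntervalIntegrable (fun s => w3 (a + s)) volume 0 T := by
    apply ContinuousOn.intervalIntegrable
    rw [Set.uIcc_of_le hT]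
    exact (w3_cont ha).mono Set.Icc_subset_Ici_self
  refine ⟨hint, ?_⟩
  have h1 : ∀ s ∈ Set.uIcc 0 T, HasDerivAt (fun s => -2 / Real.sqrt (a + s)) (w3 (a + s)) s := by
    intro s hs
    rw [Set.uIcc_of_le hT] at hs
    have h2 : 0 < a + s := by linarith [hs.1]
    have h3 : 0 < Real.sqrt (a + s) := Real.sqrt_pos.2 h2
    have h4 : HasDerivAt (fun s => a + s) 1 s := (hasDerivAt_id s).const_add a
    have h5 := (h4.sqrt h2.ne')
    have h6 := (hasDerivAt_const s (-2 : ℝ)).div h5 h3.ne'
    have h7 : (0 * Real.sqrt (a + s) - -2 * (1 / (2 * Real.sqrt (a + s)))) / Real.sqrt (a + s) ^ 2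
        = w3 (a + s) := by
      unfold w3
      rw [Real.sq_sqrt h2.le]
      field_simp
      norm_num
    rw [h7] at h6
    exact h6
  rw [intervalIntegral.integral_eq_sub_of_hasDerivAt h1 hint]
  have h2 : 0 < Real.sqrt (a + T) := Real.sqrt_pos.2 (by linarith)
  have h3 : 0 < 2 / Real.sqrt (a + T) := by positivity
  have h4 : -2 / Real.sqrt (a + T) = -(2 / Real.sqrt (a + T)) := by ring
  have h5 : -2 / Real.sqrt (a + 0) = -(2 / Real.sqrt a) := by rw [add_zero]; ring
  rw [h4, h5]
  linarith

lemma exp_integral {T : ℝ} (hT : 0 ≤ T) : ∫ s in (0 : ℝ)..T, Real.exp (-s) ≤ 1 := by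
  have h1 : ∀ s ∈ Set.uIcc 0 T, HasDerivAt (fun s => -Real.exp (-s)) (Real.exp (-s)) s := by
    intro s _
    have h2 : HasDerivAt (fun s : ℝ => -s) (-1) s := hasDerivAt_neg s
    have h3 := h2.exp.neg
    have h4 : -(Real.exp (-s) * -1) = Real.exp (-s) := by ring
    rw [h4] at h3
    exact h3
  rw [intervalIntegral.integral_eq_sub_of_hasDerivAt h1
    ((Real.continuous_exp.comp continuous_neg).intervalIntegrable _ _)]
  have := Real.exp_pos (-T)
  simp
  linarith

lemma sqrt_a_bound {a : ℝ} (ha : 0 < a) (ha1 : a ≤ 1) : 1 ≤ 1 / Real.sqrt a := by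
  have h := Real.sqrt_pos.2 ha
  rw [le_div_iff₀ h, one_mul, Real.sqrt_le_left (by norm_num)]
  simpa using ha1

lemma eb_integral {a T : ℝ} (ha : 0 < a) (ha1 : a ≤ 1) (hT : 0 ≤ T) :
    IntervalIntegrable (eb a) volume 0 T ∧
    ∫ s in (0 : ℝ)..T, eb a s ≤ 1104 / Real.sqrt a := by
  obtain ⟨h1, h2⟩ := w3_integral ha hT
  have h3 := exp_integral hT
  have h4 : IntervalIntegrable (fun s => Real.exp (-s)) volume 0 T :=
    (Real.continuous_exp.comp continuous_neg).intervalIntegrable _ _
  have h5 : eb a = fun s => 500 * w3 (a + s) + 104 * Real.exp (-s) := rfl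
  refine ⟨by rw [h5]; exact (h1.const_mul 500).add (h4.const_mul 104), ?_⟩
  rw [h5, intervalIntegral.integral_add (h1.const_mul 500) (h4.const_mul 104),
    intervalIntegral.integral_const_mul, intervalIntegral.integral_const_mul]
  have h6 := sqrt_a_bound ha ha1
  have h7 : 1104 / Real.sqrt a = 500 * (2 / Real.sqrt a) + 104 * (1 / Real.sqrt a) := by ring
  rw [h7]
  linarith

lemma f0_cont : ContinuousOn f0 (Set.Ioi 0) := by
  -- `f0 s = Σ exp (-2 π² n² s)`, locally uniformly convergent
  intro s hs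
  have hs' : (0 : ℝ) < s := hs
  have h1 : ContinuousOn (fun s => ∑' n : ℤ, cf s n) (Set.Ici (s / 2)) := by
    refine continuousOn_tsum (u := fun n => cf (s / 2) n) (fun n => ?_)
      (cf_summable (by linarith)) (fun n t ht => ?_)
    · unfold cf; fun_prop
    · rw [Real.norm_eq_abs, abs_of_pos (cf_pos t n)]
      unfold cf
      apply Real.exp_le_exp.2
      have h2 : s / 2 ≤ t := ht
      have h3 : 0 ≤ (n : ℝ) ^ 2 := sq_nonneg _
      have h4 := Real.pi_pos
      have h5 : 2 * Real.pi ^ 2 * (s / 2) ≤ 2 * Real.pi ^ 2 * t := by gcongr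
      nlinarith
  have h2 : ContinuousAt (fun s => ∑' n : ℤ, cf s n) s :=
    h1.continuousAt (Ici_mem_nhds (by linarith))
  exact h2.continuousWithinAt

lemma D_cont : ContinuousOn D (Set.Ioi 0) := f0_cont.pow 3

lemma D_integral {a T : ℝ} (ha : 0 < a) (hT : 0 ≤ T) :
    IntervalIntegrable (fun s => D (2 * a + s)) volume 0 T ∧
    ∫ s in (0 : ℝ)..T, D (2 * a + s) ≤ 250 / Real.sqrt a + 27 * T := by
  have hint : IntervalIntegrable (fun s => D (2 * a + s)) volume 0 T := by
    apply ContinuousOn.intervalIntegrable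
    rw [Set.uIcc_of_le hT]
    refine D_cont.comp (by fun_prop) (fun s hs => ?_)
    have := hs.1
    show 0 < 2 * a + s
    linarith
  refine ⟨hint, ?_⟩
  obtain ⟨h1, h2⟩ := w3_integral ha hT
  have h3 : ∀ s ∈ Set.Icc 0 T, D (2 * a + s) ≤ 125 * w3 (a + s) + 27 := by
    intro s hs
    have h4 : 0 < a + s := by linarith [hs.1]
    exact (D_anti h4 (by linarith)).trans (D_le_all h4)
  calc _ ≤ ∫ s in (0 : ℝ)..T, (125 * w3 (a + s) + 27) :=
        intervalIntegral.integral_mono_on hT hint
          ((h1.const_mul 125).add intervalIntegrable_const) h3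
    _ = 125 * (∫ s in (0 : ℝ)..T, w3 (a + s)) + 27 * T := by
        rw [intervalIntegral.integral_add (h1.const_mul 125) intervalIntegrable_const,
          intervalIntegral.integral_const_mul, intervalIntegral.integral_const]
        simp
        ring
    _ ≤ 125 * (2 / Real.sqrt a) + 27 * T := by
        gcongr
    _ = _ := by ring

lemma q_cont {a : ℝ} (ha : 0 < a) : ContinuousOn (q a) (Set.Ici 0) := by
  unfold q
  have h : ∀ c : ℝ, 0 < c → ContinuousOn (fun s => D (c + s)) (Set.Ici 0) := by
    intro c hc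
    refine D_cont.comp (by fun_prop) (fun s hs => ?_)
    have hs' : (0 : ℝ) ≤ s := hs
    show 0 < c + s
    linarith
  exact ((h _ (by linarith)).sub (continuousOn_const.mul (h _ (by linarith)))).add
    (h _ (by linarith))

lemma q_intble {a T : ℝ} (ha : 0 < a) (hT : 0 ≤ T) : IntervalIntegrable (q a) volume 0 T := by
  apply ContinuousOn.intervalIntegrable
  rw [Set.uIcc_of_le hT]
  exact (q_cont ha).mono Set.Icc_subset_Ici_self

lemma D_intble {c d : ℝ} (hc : 0 < c) (hd : 0 < d) : IntervalIntegrable D volume c d := by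
  apply ContinuousOn.intervalIntegrable
  refine D_cont.mono fun s hs => ?_
  have := hs.1
  show 0 < s
  exact lt_of_lt_of_le (lt_min hc hd) this

/-- Telescoping bound for the integral of the covariance function. -/
lemma q_integral {a T : ℝ} (ha : 0 < a) (hT : 0 ≤ T) :
    ∫ s in (0 : ℝ)..T, q a s ≤ a * D (2 * a) := by
  have i : ∀ c : ℝ, 0 < c → IntervalIntegrable (fun s => D (c + s)) volume 0 T := by
    intro c hc
    apply ContinuousOn.intervalIntegrable
    rw [Set.uIcc_of_le hT]
    refine D_cont.comp (by fun_prop) (fun s hs => ?_)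
    have := hs.1
    show 0 < c + s
    linarith
  have e : ∀ c : ℝ, ∫ s in (0 : ℝ)..T, D (c + s) = ∫ s in c..(c + T), D s := by
    intro c
    have := intervalIntegral.integral_comp_add_left (a := (0 : ℝ)) (b := T) D c
    rw [this, add_zero]
  have h1 : ∫ s in (0 : ℝ)..T, q a s
      = (∫ s in (2 * a)..(2 * a + T), D s) - 2 * (∫ s in (3 * a)..(3 * a + T), D s)
        + ∫ s in (4 * a)..(4 * a + T), D s := by
    have h2 : q a = fun s => D (2 * a + s) - 2 * D (3 * a + s) + D (4 * a + s) := rfl
    have j1 : IntervalIntegrable (fun s => D (2 * a + s) - 2 * D (3 * a + s)) volume 0 T :=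
      (i _ (by linarith)).sub ((i _ (by linarith)).const_mul 2)
    rw [h2, intervalIntegral.integral_add j1 (i _ (by linarith)),
      intervalIntegral.integral_sub (i _ (by linarith)) ((i _ (by linarith)).const_mul 2),
      intervalIntegral.integral_const_mul, e, e, e]
  have s1 : (∫ s in (2 * a)..(3 * a), D s) + ∫ s in (3 * a)..(3 * a + T), D s
      = (∫ s in (2 * a)..(2 * a + T), D s) + ∫ s in (2 * a + T)..(3 * a + T), D s := by
    rw [intervalIntegral.integral_add_adjacent_intervals, intervalIntegral.integral_add_adjacent_intervals]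
    all_goals exact D_intble (by linarith) (by linarith)
  have s2 : (∫ s in (3 * a)..(4 * a), D s) + ∫ s in (4 * a)..(4 * a + T), D s
      = (∫ s in (3 * a)..(3 * a + T), D s) + ∫ s in (3 * a + T)..(4 * a + T), D s := by
    rw [intervalIntegral.integral_add_adjacent_intervals, intervalIntegral.integral_add_adjacent_intervals]
    all_goals exact D_intble (by linarith) (by linarith)
  have s3 : ∫ s in (3 * a + T)..(4 * a + T), D s ≤ ∫ s in (2 * a + T)..(3 * a + T), D s := by
    have h3 : ∫ s in (3 * a + T)..(4 * a + T), D s = ∫ s in (2 * a + T)..(3 * a + T), D (a + s) := by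
      have := intervalIntegral.integral_comp_add_left (a := 2 * a + T) (b := 3 * a + T) D a
      rw [this]
      congr 1 <;> ring
    rw [h3]
    apply intervalIntegral.integral_mono_on (by linarith)
    · apply ContinuousOn.intervalIntegrable
      rw [Set.uIcc_of_le (by linarith)]
      refine D_cont.comp (by fun_prop) (fun s hs => ?_)
      have := hs.1
      show 0 < a + s
      linarith
    · exact D_intble (by linarith) (by linarith)
    · intro s hs
      exact D_anti (by linarith [hs.1]) (by linarith)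
  have s4 : 0 ≤ ∫ s in (3 * a)..(4 * a), D s := by
    apply intervalIntegral.integral_nonneg (by linarith)
    intro s hs
    exact (D_pos (by linarith [hs.1])).le
  have s5 : ∫ s in (2 * a)..(3 * a), D s ≤ a * D (2 * a) := by
    calc _ ≤ ∫ s in (2 * a)..(3 * a), D (2 * a) := by
          apply intervalIntegral.integral_mono_on (by linarith)
            (D_intble (by linarith) (by linarith)) intervalIntegrable_const
          intro s hs
          exact D_anti (by linarith) hs.1
      _ = _ := by
          rw [intervalIntegral.integral_const, smul_eq_mul]; ring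
  rw [h1]
  linarith

end Pool.Agent.T2H28.OT
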