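import Pool.Agent.T2H28.OT.Bounds

/-!
# Lower bound for the covariance function, joint continuity of the kernel
-/

set_option autoImplicit false

namespace Pool.Agent.T2H28.OT

open MeasureTheory ProbabilityTheory
open scoped ENNReal NNReal

lemma sqrt_scale {a c : ℝ} (hc : 0 ≤ c) :
    Real.sqrt (2 * Real.pi * (c * a)) = Real.sqrt c * Real.sqrt (2 * Real.pi * a) := by
  rw [← Real.sqrt_mul hc]
  congr 1
  ring

/-- Lower bound for the covariance function at short times. -/
lemma q_lower {a s : ℝ} (ha : 0 < a) (ha1 : a ≤ 1 / 50) (hs : 0 ≤ s) (hs1 : s ≤ a / 10) :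
    w3 a / 1000 ≤ q a s := by
  have hpi := Real.pi_pos
  have hpi4 := Real.pi_lt_d2
  obtain ⟨R, hR⟩ : ∃ R, R = Real.sqrt (2 * Real.pi * a) := ⟨_, rfl⟩
  have hR0 : 0 < R := by rw [hR]; exact Real.sqrt_pos.2 (by positivity)
  have h1 : D (2.1 * a) ≤ D (2 * a + s) := D_anti (by linarith) (by linarith)
  have h2 : D (3 * a + s) ≤ D (3 * a) := D_anti (by linarith) (by linarith)
  have h3 : D (4.1 * a) ≤ D (4 * a + s) := D_anti (by linarith) (by linarith)
  have s1 : Real.sqrt 2.1 ≤ 1.45 := by
    rw [Real.sqrt_le_left (by norm_num)]; norm_num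
  have s2 : Real.sqrt 4.1 ≤ 2.025 := by
    rw [Real.sqrt_le_left (by norm_num)]; norm_num
  have s3 : 1.732 ≤ Real.sqrt 3 := by
    apply Real.le_sqrt_of_sq_le; norm_num
  have p1 : 0 < Real.sqrt 2.1 := Real.sqrt_pos.2 (by norm_num)
  have p2 : 0 < Real.sqrt 4.1 := Real.sqrt_pos.2 (by norm_num)
  have h4 : (1 / (1.45 * R)) ^ 3 ≤ D (2.1 * a) := by
    unfold D
    refine pow_le_pow_left₀ (by positivity) ?_ 3
    refine le_trans ?_ (f0_ge (s := 2.1 * a) (by linarith))
    rw [sqrt_scale (by norm_num), ← hR]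
    exact one_div_le_one_div_of_le (by positivity) (by gcongr)
  have h5 : (1 / (2.025 * R)) ^ 3 ≤ D (4.1 * a) := by
    unfold D
    refine pow_le_pow_left₀ (by positivity) ?_ 3
    refine le_trans ?_ (f0_ge (s := 4.1 * a) (by linarith))
    rw [sqrt_scale (by norm_num), ← hR]
    exact one_div_le_one_div_of_le (by positivity) (by gcongr)
  have h6 : D (3 * a) ≤ (1.03 * (1 / (1.732 * R))) ^ 3 := by
    unfold D
    refine pow_le_pow_left₀ (f0_pos (by linarith)).le ?_ 3
    refine (f0_le_small (s := 3 * a) (by linarith) (by linarith)).trans ?_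
    rw [sqrt_scale (by norm_num), ← hR]
    gcongr
  have h7 : (1 / (1.45 * R)) ^ 3 + (1 / (2.025 * R)) ^ 3 - 2 * (1.03 * (1 / (1.732 * R))) ^ 3
      = (1 / 1.45 ^ 3 + 1 / 2.025 ^ 3 - 2 * (1.03 / 1.732) ^ 3) * (1 / R ^ 3) := by
    field_simp
  have h8 : (1 / 50 : ℝ) ≤ 1 / 1.45 ^ 3 + 1 / 2.025 ^ 3 - 2 * (1.03 / 1.732) ^ 3 := by norm_num
  have h9 : R ^ 3 ≤ 20 * (a * Real.sqrt a) := by
    have e1 : R = Real.sqrt (2 * Real.pi) * Real.sqrt a := by
      rw [hR, Real.sqrt_mul (by positivity)]
    have e2 : Real.sqrt (2 * Real.pi) ≤ 2.6 := by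
      rw [Real.sqrt_le_left (by norm_num)]
      linarith
    have e3 : Real.sqrt a ^ 3 = a * Real.sqrt a := by
      rw [show Real.sqrt a ^ 3 = Real.sqrt a ^ 2 * Real.sqrt a by ring, Real.sq_sqrt ha.le]
    rw [e1, mul_pow, e3]
    have e4 : Real.sqrt (2 * Real.pi) ^ 3 ≤ 20 := by
      calc Real.sqrt (2 * Real.pi) ^ 3 ≤ 2.6 ^ 3 := pow_le_pow_left₀ (Real.sqrt_nonneg _) e2 3
        _ ≤ 20 := by norm_num
    have e5 : 0 ≤ a * Real.sqrt a := by positivity
    exact mul_le_mul_of_nonneg_right e4 e5
  have h10 : w3 a / 20 ≤ 1 / R ^ 3 := by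
    unfold w3
    have hsa := Real.sqrt_pos.2 ha
    rw [div_div, mul_comm (a * Real.sqrt a) 20]
    exact one_div_le_one_div_of_le (by positivity) h9
  have h11 := w3_pos ha
  unfold q
  have h12 : (1 / 50 : ℝ) * (w3 a / 20) ≤
      (1 / 1.45 ^ 3 + 1 / 2.025 ^ 3 - 2 * (1.03 / 1.732) ^ 3) * (1 / R ^ 3) :=
    mul_le_mul h8 h10 (by positivity) (le_trans (by norm_num) h8)
  linarith

lemma q_int_lower {a : ℝ} (ha : 0 < a) (ha1 : a ≤ 1 / 50) {S : ℝ} (hS : a / 10 ≤ S) :
    1 / (10000 * Real.sqrt a) ≤ ∫ s in (0 : ℝ)..S, q a s := by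
  have hsa := Real.sqrt_pos.2 ha
  have h1 : ∫ s in (0 : ℝ)..(a / 10), q a s ≤ ∫ s in (0 : ℝ)..S, q a s := by
    have e := intervalIntegral.integral_add_adjacent_intervals
      (q_intble ha (by linarith : (0 : ℝ) ≤ a / 10))
      (b := a / 10) (c := S) (f := q a) (μ := volume) (by
        apply ContinuousOn.intervalIntegrable
        rw [Set.uIcc_of_le hS]
        exact (q_cont ha).mono fun s hs => by
          have := hs.1
          show (0 : ℝ) ≤ s
          linarith)
    rw [← e]
    have : 0 ≤ ∫ s in (a / 10)..S, q a s := by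
      apply intervalIntegral.integral_nonneg hS
      intro s hs
      exact q_nonneg ha (by linarith [hs.1])
    linarith
  refine le_trans ?_ h1
  calc 1 / (10000 * Real.sqrt a) = ∫ _s in (0 : ℝ)..(a / 10), w3 a / 1000 := by
        rw [intervalIntegral.integral_const]
        unfold w3
        simp only [sub_zero, smul_eq_mul]
        field_simp
        norm_num
    _ ≤ _ := by
        apply intervalIntegral.integral_mono_on (by linarith) intervalIntegrable_const
          (q_intble ha (by linarith))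
        intro s hs
        exact q_lower ha ha1 hs.1 hs.2

/-- Joint continuity of the kernel, with the time shifted and truncated. -/
lemma thc_joint {a : ℝ} (ha : 0 < a) :
    Continuous fun p : ℝ × UnitAddCircle => thc (a + max p.1 0) p.2 := by
  unfold thc
  refine continuous_tsum (fun n => ?_) (cf_summable ha) (fun n p => ?_)
  · refine Continuous.mul ?_ ((map_continuous (fourier n)).comp continuous_snd)
    unfold cf
    fun_prop
  · rw [term_norm]
    unfold cf
    apply Real.exp_le_exp.2
    have h1 : 0 ≤ max p.1 0 := le_max_right _ _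
    have h3 : 0 ≤ (n : ℝ) ^ 2 := sq_nonneg _
    have h4 := Real.pi_pos
    have h5 : 2 * Real.pi ^ 2 * a ≤ 2 * Real.pi ^ 2 * (a + max p.1 0) := by
      gcongr
      linarith
    nlinarith

lemma pk_joint {a : ℝ} (ha : 0 < a) :
    Continuous fun p : ℝ × T3 => pk (a + max p.1 0) p.2 := by
  unfold pk
  refine continuous_finsetProd _ fun i _ => ?_
  have h := (Complex.continuous_re.comp (thc_joint ha)).comp
    (continuous_fst.prodMk ((continuous_apply i).comp continuous_snd) :
      Continuous fun p : ℝ × T3 => (p.1, p.2 i))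
  exact h

/-- The integrand of the truncated potential. -/
noncomputable def dk (a : ℝ) (z : T3) (s : ℝ) (x : T3) : ℝ :=
  pk (a + max s 0) (x - z) - pk (2 * a + max s 0) (x - z)

lemma dk_joint {a : ℝ} (ha : 0 < a) (z : T3) :
    Continuous fun p : ℝ × T3 => dk a z p.1 p.2 := by
  unfold dk
  have e : Continuous fun p : ℝ × T3 => (p.1, p.2 - z) :=
    continuous_fst.prodMk (continuous_snd.sub continuous_const)
  exact ((pk_joint ha).comp e).sub ((pk_joint (a := 2 * a) (by linarith)).comp e)

lemma dk_joint' {a : ℝ} (ha : 0 < a) (z : T3) :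
    Continuous fun p : T3 × ℝ => dk a z p.2 p.1 := by
  have e : Continuous fun p : T3 × ℝ => (p.2, p.1) := continuous_snd.prodMk continuous_fst
  exact Continuous.comp (g := fun p : ℝ × T3 => dk a z p.1 p.2)
    (f := fun p : T3 × ℝ => (p.2, p.1)) (dk_joint ha z) e

lemma dk_eq {a : ℝ} (z : T3) {s : ℝ} (hs : 0 ≤ s) (x : T3) :
    dk a z s x = pk (a + s) (x - z) - pk (2 * a + s) (x - z) := by
  unfold dk
  rw [max_eq_left hs]

lemma dk_bound {a : ℝ} (ha : 0 < a) (z : T3) (s : ℝ) (x : T3) : |dk a z s x| ≤ 2 * D a := by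
  unfold dk
  have h0 : 0 ≤ max s 0 := le_max_right _ _
  have p1 : 0 < a + max s 0 := by linarith
  have p2 : 0 < 2 * a + max s 0 := by linarith
  have h1 := pk_nonneg p1 (x - z)
  have h2 := pk_nonneg p2 (x - z)
  have h3 := (pk_le p1 (x - z)).trans (D_anti ha (by linarith))
  have h4 := (pk_le p2 (x - z)).trans (D_anti ha (by linarith))
  rw [abs_le]
  constructor <;> linarith

/-- The truncated potential of the test function. -/
noncomputable def pot (a : ℝ) (z : T3) (S : ℝ) (x : T3) : ℝ := ∫ s in (0 : ℝ)..S, dk a z s x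

lemma pot_cont {a : ℝ} (ha : 0 < a) (z : T3) (S : ℝ) : Continuous (pot a z S) := by
  unfold pot
  have h : Continuous (Function.uncurry fun (x : T3) (s : ℝ) => dk a z s x) := dk_joint' ha z
  exact intervalIntegral.continuous_parametric_intervalIntegral_of_continuous'
    (f := fun x s => dk a z s x) h 0 S

lemma pk_time_cont (x : T3) : ContinuousOn (fun s => pk s x) (Set.Ioi 0) := by
  intro s hs
  have hs' : (0 : ℝ) < s := hs
  have e1 : Continuous fun t : ℝ => ((t - s / 2, x) : ℝ × T3) :=
    (continuous_id.sub continuous_const).prodMk continuous_const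
  have h2 : Continuous fun t : ℝ => pk (s / 2 + max (t - s / 2) 0) x :=
    Continuous.comp (g := fun p : ℝ × T3 => pk (s / 2 + max p.1 0) p.2)
      (f := fun t : ℝ => ((t - s / 2, x) : ℝ × T3)) (pk_joint (a := s / 2) (by linarith)) e1
  have h3 : (fun t : ℝ => pk (s / 2 + max (t - s / 2) 0) x) =ᶠ[nhds s] fun t => pk t x := by
    filter_upwards [Ici_mem_nhds (show s / 2 < s by linarith)] with t ht
    have ht' : s / 2 ≤ t := ht
    rw [max_eq_left (by linarith)]
    congr 1
    ring
  have h4 : ContinuousAt (fun t : ℝ => pk (s / 2 + max (t - s / 2) 0) x) s := h2.continuousAt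
  have h5 : ContinuousAt (fun t : ℝ => pk t x) s := h4.congr h3
  exact h5.continuousWithinAt

lemma pk_time_int {c d : ℝ} (hc : 0 < c) (hd : 0 < d) (x : T3) :
    IntervalIntegrable (fun s => pk s x) volume c d := by
  apply ContinuousOn.intervalIntegrable
  refine (pk_time_cont x).mono fun s hs => ?_
  exact lt_of_lt_of_le (lt_min hc hd) hs.1

lemma pot_bound {a : ℝ} (ha : 0 < a) (z : T3) {S : ℝ} (hS : 0 ≤ S) (x : T3) :
    |pot a z S x| ≤ a * D a := by
  have h1 : pot a z S x = (∫ s in a..(a + S), pk s (x - z))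
      - ∫ s in (2 * a)..(2 * a + S), pk s (x - z) := by
    unfold pot
    have e : ∀ c : ℝ, ∫ s in (0 : ℝ)..S, pk (c + s) (x - z)
        = ∫ s in c..(c + S), pk s (x - z) := by
      intro c
      have := intervalIntegral.integral_comp_add_left (a := (0 : ℝ)) (b := S)
        (fun s => pk s (x - z)) c
      rw [this, add_zero]
    have i : ∀ c : ℝ, 0 < c → IntervalIntegrable (fun s => pk (c + s) (x - z)) volume 0 S := by
      intro c hc
      apply ContinuousOn.intervalIntegrable
      rw [Set.uIcc_of_le hS]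
      refine (pk_time_cont (x - z)).comp (by fun_prop) (fun s hs => ?_)
      have := hs.1
      show 0 < c + s
      linarith
    have h2 : ∫ s in (0 : ℝ)..S, dk a z s x
        = ∫ s in (0 : ℝ)..S, (pk (a + s) (x - z) - pk (2 * a + s) (x - z)) := by
      apply intervalIntegral.integral_congr
      intro s hs
      rw [Set.uIcc_of_le hS] at hs
      exact dk_eq z hs.1 x
    rw [h2, intervalIntegral.integral_sub (i _ ha) (i _ (by linarith)), e, e]
  have h2 : (∫ s in a..(2 * a), pk s (x - z)) + ∫ s in (2 * a)..(2 * a + S), pk s (x - z)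
      = (∫ s in a..(a + S), pk s (x - z)) + ∫ s in (a + S)..(2 * a + S), pk s (x - z) := by
    rw [intervalIntegral.integral_add_adjacent_intervals,
      intervalIntegral.integral_add_adjacent_intervals]
    all_goals exact pk_time_int (by linarith) (by linarith) _
  have h3 : ∀ c : ℝ, a ≤ c → 0 ≤ ∫ s in c..(c + a), pk s (x - z) ∧
      ∫ s in c..(c + a), pk s (x - z) ≤ a * D a := by
    intro c hc
    constructor
    · apply intervalIntegral.integral_nonneg (by linarith)
      intro s hs
      exact pk_nonneg (by linarith [hs.1]) _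
    · calc _ ≤ ∫ s in c..(c + a), D a := by
            apply intervalIntegral.integral_mono_on (by linarith)
              (pk_time_int (by linarith) (by linarith) _) intervalIntegrable_const
            intro s hs
            exact (pk_le (by linarith [hs.1]) _).trans (D_anti ha (by linarith [hs.1]))
        _ = _ := by
            rw [intervalIntegral.integral_const, smul_eq_mul]; ring
  have h4 := h3 a le_rfl
  have h5 := h3 (a + S) (by linarith)
  rw [show a + a = 2 * a by ring] at h4
  rw [show a + S + a = 2 * a + S by ring] at h5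
  rw [h1, abs_le]
  constructor <;> linarith [h4.1, h4.2, h5.1, h5.2]

/-- The mean of the test function against its potential. -/
lemma psi_pot {a : ℝ} (ha : 0 < a) (z : T3) {S : ℝ} (hS : 0 ≤ S) :
    ∫ x, psi a z x * pot a z S x = ∫ s in (0 : ℝ)..S, q a s := by
  have := prob_T3
  have h1 : ∀ x, psi a z x * pot a z S x = ∫ s in Set.Ioc 0 S, psi a z x * dk a z s x := by
    intro x
    unfold pot
    rw [intervalIntegral.integral_of_le hS, integral_const_mul]
  simp only [h1]
  rw [intervalIntegral.integral_of_le hS, integral_integral_swap]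
  · refine setIntegral_congr_fun measurableSet_Ioc fun s hs => ?_
    have h2 := q_val ha hs.1 z
    rw [← h2]
    refine integral_congr_ae (Filter.Eventually.of_forall fun x => ?_)
    show psi a z x * dk a z s x = _
    rw [dk_eq z hs.1.le]
  · have hc : Continuous fun p : T3 × ℝ => psi a z p.1 * dk a z p.2 p.1 :=
      ((psi_cont ha z).comp continuous_fst).mul (dk_joint' ha z)
    have hb : ∀ p : T3 × ℝ, ‖psi a z p.1 * dk a z p.2 p.1‖ ≤ 2 * D a * (2 * D a) := by
      intro p
      rw [norm_mul, Real.norm_eq_abs, Real.norm_eq_abs]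
      have hD := D_pos ha
      exact mul_le_mul ((abs_psi_le ha z _).trans (phi_le ha z _)) (dk_bound ha z _ _)
        (abs_nonneg _) (by positivity)
    exact Integrable.of_bound (C := 2 * D a * (2 * D a)) hc.aestronglyMeasurable
      (Filter.Eventually.of_forall hb)

end Pool.Agent.T2H28.OT
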