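import Pool.Agent.T2H28.OT.Theta

/-!
# The heat kernel on the circle: Fourier series, positivity, law of the projected Gaussian
-/

set_option autoImplicit false

namespace Pool.Agent.T2H28.OT

open MeasureTheory ProbabilityTheory
open scoped ENNReal NNReal

/-- Fourier coefficients of the heat kernel. -/
noncomputable def cf (s : ℝ) (n : ℤ) : ℝ := Real.exp (-(2 * Real.pi ^ 2 * s) * (n : ℝ) ^ 2)

lemma cf_pos (s : ℝ) (n : ℤ) : 0 < cf s n := Real.exp_pos _

lemma cf_neg (s : ℝ) (n : ℤ) : cf s (-n) = cf s n := by
  unfold cf; push_cast; congr 2; ring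

lemma cf_zero (s : ℝ) : cf s 0 = 1 := by simp [cf]

lemma cf_add (s t : ℝ) (n : ℤ) : cf (s + t) n = cf s n * cf t n := by
  unfold cf; rw [← Real.exp_add]; congr 1; ring

lemma cf_summable {s : ℝ} (hs : 0 < s) : Summable (cf s) :=
  gs_summable (c := 2 * Real.pi ^ 2 * s) (by positivity)

lemma tsum_cf (s : ℝ) : ∑' n, cf s n = f0 s := rfl

/-- The heat kernel as a complex function. -/
noncomputable def thc (s : ℝ) (x : UnitAddCircle) : ℂ := ∑' n : ℤ, (cf s n : ℂ) * fourier n x

/-- The heat kernel on the circle. -/
noncomputable def th (s : ℝ) (x : UnitAddCircle) : ℝ := (thc s x).re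

lemma term_norm (s : ℝ) (n : ℤ) (x : UnitAddCircle) : ‖(cf s n : ℂ) * fourier n x‖ = cf s n := by
  rw [norm_mul, fourier_apply, Circle.norm_coe, mul_one, Complex.norm_real, Real.norm_eq_abs,
    abs_of_pos (cf_pos s n)]

lemma thc_summable {s : ℝ} (hs : 0 < s) (x : UnitAddCircle) :
    Summable (fun n : ℤ => (cf s n : ℂ) * fourier n x) := by
  apply Summable.of_norm
  simp only [term_norm]
  exact cf_summable hs

lemma thc_continuous {s : ℝ} (hs : 0 < s) : Continuous (thc s) := by
  unfold thc
  refine continuous_tsum (fun n => ?_) (cf_summable hs) (fun n x => (term_norm s n x).le)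
  exact continuous_const.mul (map_continuous _)

lemma th_continuous {s : ℝ} (hs : 0 < s) : Continuous (th s) :=
  Complex.continuous_re.comp (thc_continuous hs)

lemma thc_conj {s : ℝ} (x : UnitAddCircle) : (starRingEnd ℂ) (thc s x) = thc s x := by
  unfold thc
  rw [Complex.conj_tsum]
  rw [← (Equiv.neg ℤ).tsum_eq]
  refine tsum_congr fun n => ?_
  rw [map_mul, Complex.conj_ofReal, Equiv.neg_apply, cf_neg, fourier_neg, Complex.conj_conj]

lemma thc_eq (s : ℝ) (x : UnitAddCircle) : thc s x = (th s x : ℂ) := by
  unfold th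
  exact (Complex.conj_eq_iff_re.1 (thc_conj x)).symm

lemma th_abs_le {s : ℝ} (hs : 0 < s) (x : UnitAddCircle) : |th s x| ≤ f0 s := by
  have h1 : |th s x| ≤ ‖thc s x‖ := Complex.abs_re_le_norm _
  refine h1.trans ?_
  unfold thc
  refine (norm_tsum_le_tsum_norm (by simpa only [term_norm] using cf_summable hs)).trans ?_
  simp only [term_norm]
  exact le_rfl

lemma th_sub_one_abs_le {s : ℝ} (hs : 0 < s) (x : UnitAddCircle) : |th s x - 1| ≤ f0 s - 1 := by
  have h1 : |th s x - 1| = ‖thc s x - 1‖ := by
    rw [thc_eq, ← Complex.ofReal_one, ← Complex.ofReal_sub, Complex.norm_real, Real.norm_eq_abs]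
  have h2 : thc s x - 1 = ∑' n : ℤ, (if n = 0 then 0 else (cf s n : ℂ) * fourier n x) := by
    unfold thc
    rw [(thc_summable hs x).tsum_eq_add_tsum_ite 0]
    simp [cf_zero]
  have h3 : f0 s - 1 = ∑' n : ℤ, (if n = 0 then 0 else cf s n) := by
    rw [← tsum_cf, (cf_summable hs).tsum_eq_add_tsum_ite 0]
    simp [cf_zero]
  have h4 : ∀ n : ℤ, ‖(if n = 0 then (0 : ℂ) else (cf s n : ℂ) * fourier n x)‖
      = if n = 0 then 0 else cf s n := by
    intro n
    split_ifs
    · simp
    · exact term_norm s n x
  have h5 : Summable (fun n : ℤ => if n = 0 then 0 else cf s n) := by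
    refine Summable.of_nonneg_of_le (fun n => ?_) (fun n => ?_) (cf_summable hs)
    · split_ifs
      · exact le_rfl
      · exact (cf_pos s n).le
    · split_ifs
      · exact (cf_pos s n).le
      · exact le_rfl
  rw [h1, h2, h3]
  refine (norm_tsum_le_tsum_norm (by simpa only [h4] using h5)).trans ?_
  simp only [h4]
  exact le_rfl

lemma th_zero {s : ℝ} : th s 0 = f0 s := by
  have h : thc s 0 = ((f0 s : ℝ) : ℂ) := by
    unfold thc
    rw [← tsum_cf, Complex.ofReal_tsum]
    refine tsum_congr fun n => ?_
    rw [fourier_eval_zero, mul_one]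
  unfold th
  rw [h, Complex.ofReal_re]

lemma th_neg (s : ℝ) (x : UnitAddCircle) : th s (-x) = th s x := by
  have h : thc s (-x) = thc s x := by
    unfold thc
    rw [← (Equiv.neg ℤ).tsum_eq]
    refine tsum_congr fun n => ?_
    rw [Equiv.neg_apply, cf_neg]
    congr 1
    simp [fourier_apply]
  unfold th
  rw [h]

lemma th_nonneg {s : ℝ} (hs : 0 < s) (x : UnitAddCircle) : 0 ≤ th s x := by
  induction x using QuotientAddGroup.induction_on with
  | H x =>
    have hpi := Real.pi_pos
    have h1 : thc s (x : UnitAddCircle) = ∑' n : ℤ, Complex.exp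
        (-Real.pi * ((2 * Real.pi * s : ℝ) : ℂ) * n ^ 2 + 2 * Real.pi * (Complex.I * x) * n) := by
      unfold thc
      refine tsum_congr fun n => ?_
      rw [show ((QuotientAddGroup.mk x : ℝ ⧸ AddSubgroup.zmultiples (1 : ℝ)) : UnitAddCircle)
        = ((x : ℝ) : AddCircle (1 : ℝ)) from rfl, fourier_coe_apply]
      unfold cf
      rw [Complex.ofReal_exp, ← Complex.exp_add]
      congr 1
      push_cast
      ring
    rw [Complex.tsum_exp_neg_quadratic (by
      rw [Complex.ofReal_re]; positivity)] at h1
    have h2 : ∀ n : ℤ, Complex.exp (-Real.pi / ((2 * Real.pi * s : ℝ) : ℂ)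
        * (n + Complex.I * (Complex.I * x)) ^ 2)
        = ((Real.exp (-Real.pi / (2 * Real.pi * s) * (n - x) ^ 2) : ℝ) : ℂ) := by
      intro n
      rw [Complex.ofReal_exp]
      congr 1
      push_cast
      have : Complex.I * (Complex.I * x) = -(x : ℂ) := by
        rw [← mul_assoc, Complex.I_mul_I]; ring
      rw [this]
      ring
    simp only [h2] at h1
    rw [← Complex.ofReal_tsum] at h1
    have h3 : (1 : ℂ) / (((2 * Real.pi * s : ℝ) : ℂ)) ^ (1 / 2 : ℂ)
        = ((1 / (2 * Real.pi * s) ^ (1 / 2 : ℝ) : ℝ) : ℂ) := by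
      rw [Complex.ofReal_div, Complex.ofReal_one, Complex.ofReal_cpow (by positivity)]
      norm_num
    rw [h3, ← Complex.ofReal_mul] at h1
    have h4 : th s (x : UnitAddCircle) = 1 / (2 * Real.pi * s) ^ (1 / 2 : ℝ)
        * ∑' n : ℤ, Real.exp (-Real.pi / (2 * Real.pi * s) * (n - x) ^ 2) := by
      unfold th
      rw [h1, Complex.ofReal_re]
    have h5 : 0 ≤ th s (x : UnitAddCircle) := by
      rw [h4]
      exact mul_nonneg (by positivity) (tsum_nonneg fun n => (Real.exp_pos _).le)
    exact h5

lemma volume_eq_haar : (volume : Measure UnitAddCircle) = AddCircle.haarAddCircle := by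
  rw [AddCircle.volume_eq_smul_haarAddCircle]
  simp

lemma prob_circle : IsProbabilityMeasure (volume : Measure UnitAddCircle) := by
  rw [volume_eq_haar]; infer_instance

lemma real_univ : (volume : Measure UnitAddCircle).real Set.univ = 1 := by
  have := prob_circle
  exact probReal_univ

lemma integral_fourier (n : ℤ) :
    ∫ x : UnitAddCircle, fourier n x = if n = 0 then 1 else 0 := by
  have h := congrFun (fourierCoeff_fourier (T := (1 : ℝ)) n) 0
  unfold fourierCoeff at h
  rw [volume_eq_haar]
  simp only [neg_zero, fourier_zero, one_smul] at h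
  rw [h]
  by_cases hn : n = 0
  · subst hn; simp
  · rw [if_neg hn, Pi.single_eq_of_ne (Ne.symm hn)]

lemma integral_fourier_mul_thc {s : ℝ} (hs : 0 < s) (m : ℤ) :
    ∫ x : UnitAddCircle, fourier m x * thc s x = (cf s m : ℂ) := by
  have h1 : ∀ x : UnitAddCircle, fourier m x * thc s x
      = ∑' n : ℤ, (cf s n : ℂ) * fourier (m + n) x := by
    intro x
    unfold thc
    rw [← tsum_mul_left]
    refine tsum_congr fun n => ?_
    rw [fourier_add]
    ring
  have h2 : ∀ n : ℤ, Integrable (fun x : UnitAddCircle => (cf s n : ℂ) * fourier (m + n) x) := by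
    intro n
    refine Continuous.integrable_of_hasCompactSupport ?_ (HasCompactSupport.of_compactSpace _)
    exact continuous_const.mul (map_continuous _)
  have h3 := hasSum_integral_of_summable_integral_norm h2 (by
    have : ∀ n : ℤ, ∫ x : UnitAddCircle, ‖(cf s n : ℂ) * fourier (m + n) x‖ = cf s n := by
      intro n
      have : ∀ x : UnitAddCircle, ‖(cf s n : ℂ) * fourier (m + n) x‖ = cf s n := by
        intro x
        rw [norm_mul, fourier_apply, Circle.norm_coe, mul_one, Complex.norm_real,
          Real.norm_eq_abs, abs_of_pos (cf_pos s n)]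
      simp only [this]
      rw [integral_const, real_univ, one_smul]
    simp only [this]
    exact cf_summable hs)
  simp only [h1]
  rw [← h3.tsum_eq, tsum_eq_single (-m)]
  · rw [integral_const_mul, integral_fourier]
    simp [cf_neg]
  · intro n hn
    rw [integral_const_mul, integral_fourier, if_neg, mul_zero]
    intro h
    exact hn (by omega)

lemma integral_th {s : ℝ} (hs : 0 < s) : ∫ x : UnitAddCircle, th s x = 1 := by
  have h := integral_fourier_mul_thc hs 0
  simp only [fourier_zero, one_mul, thc_eq, cf_zero, Complex.ofReal_one] at h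
  rw [integral_complex_ofReal] at h
  exact_mod_cast h

/-- Two finite measures on the circle with the same Fourier coefficients agree. -/
lemma ext_of_fourier {μ ν : Measure UnitAddCircle} [IsFiniteMeasure μ] [IsFiniteMeasure ν]
    (h : ∀ n : ℤ, ∫ x, fourier n x ∂μ = ∫ x, fourier n x ∂ν) : μ = ν := by
  have hint : ∀ (ρ : Measure UnitAddCircle) [IsFiniteMeasure ρ] (f : C(UnitAddCircle, ℂ)),
      Integrable (fun x => f x) ρ := by
    intro ρ _ f
    exact Continuous.integrable_of_hasCompactSupport (map_continuous f)
      (HasCompactSupport.of_compactSpace _)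
  have hL : ∀ (ρ : Measure UnitAddCircle) [IsFiniteMeasure ρ],
      Continuous (fun f : C(UnitAddCircle, ℂ) => ∫ x, f x ∂ρ) := by
    intro ρ _
    refine (LipschitzWith.of_dist_le_mul (K := (ρ Set.univ).toNNReal) ?_).continuous
    intro f g
    rw [dist_eq_norm, ← integral_sub (hint ρ f) (hint ρ g)]
    refine (norm_integral_le_of_norm_le_const (C := dist f g) ?_).trans ?_
    · refine Filter.Eventually.of_forall fun x => ?_
      rw [← dist_eq_norm]
      exact ContinuousMap.dist_apply_le_dist x
    · rw [mul_comm]
      exact le_of_eq rfl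
  have key : ∀ f : C(UnitAddCircle, ℂ), ∫ x, f x ∂μ = ∫ x, f x ∂ν := by
    intro f
    have hf : f ∈ closure ((Submodule.span ℂ (Set.range (@fourier (1 : ℝ)))) :
        Set C(UnitAddCircle, ℂ)) := by
      have h1 := span_fourier_closure_eq_top (T := (1 : ℝ))
      have h2 : f ∈ (Submodule.span ℂ (Set.range (@fourier (1 : ℝ)))).topologicalClosure := by
        rw [h1]; trivial
      exact h2
    refine closure_minimal (s := ((Submodule.span ℂ (Set.range (@fourier (1 : ℝ)))) :
        Set C(UnitAddCircle, ℂ))) (t := {g : C(UnitAddCircle, ℂ) | ∫ x, g x ∂μ = ∫ x, g x ∂ν})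
        ?_ (isClosed_eq (hL μ) (hL ν)) hf
    intro g hg
    refine Submodule.span_induction (p := fun g _ => ∫ x, g x ∂μ = ∫ x, g x ∂ν) ?_ ?_ ?_ ?_ hg
    · rintro _ ⟨n, rfl⟩
      exact h n
    · simp
    · intro a b _ _ ha hb
      simp only [ContinuousMap.add_apply]
      rw [integral_add (hint μ a) (hint μ b), integral_add (hint ν a) (hint ν b), ha, hb]
    · intro c a _ ha
      simp only [ContinuousMap.smul_apply]
      rw [integral_smul, integral_smul, ha]
  refine ext_of_forall_integral_eq_of_IsFiniteMeasure fun f => ?_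
  let g : C(UnitAddCircle, ℂ) := ⟨fun x => (f x : ℂ), by fun_prop⟩
  have h1 := key g
  have h2 : ∀ ρ : Measure UnitAddCircle, ∫ x, g x ∂ρ = ((∫ x, f x ∂ρ : ℝ) : ℂ) := by
    intro ρ
    exact integral_complex_ofReal
  rw [h2, h2] at h1
  exact_mod_cast h1

/-- The law of the projection of a centred Gaussian variable. -/
lemma law1 {s : ℝ≥0} (hs : 0 < s) :
    (gaussianReal 0 s).map (fun x : ℝ => (x : UnitAddCircle))
      = volume.withDensity (fun x => ENNReal.ofReal (th s x)) := by
  have hs' : (0 : ℝ) < s := by exact_mod_cast hs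
  have hm : Measurable (fun x : ℝ => (x : UnitAddCircle)) :=
    (AddCircle.continuous_mk' (1 : ℝ)).measurable
  have hthm : Measurable (th s) := (th_continuous hs').measurable
  have hthi : Integrable (th s) := Continuous.integrable_of_hasCompactSupport (th_continuous hs')
      (HasCompactSupport.of_compactSpace _)
  have : IsFiniteMeasure (volume.withDensity (fun x => ENNReal.ofReal (th s x))) :=
    isFiniteMeasure_withDensity_ofReal hthi.2
  refine ext_of_fourier fun n => ?_
  rw [integral_map hm.aemeasurable (map_continuous _).aestronglyMeasurable,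
    integral_withDensity_eq_integral_toReal_smul (by fun_prop)
      (Filter.Eventually.of_forall fun x => ENNReal.ofReal_lt_top)]
  have h1 : ∫ x : ℝ, fourier n (x : UnitAddCircle) ∂(gaussianReal 0 s)
      = charFun (gaussianReal 0 s) (2 * Real.pi * n) := by
    rw [charFun_apply]
    refine integral_congr_ae (Filter.Eventually.of_forall fun x => ?_)
    simp only
    rw [fourier_coe_apply]
    congr 1
    simp
    ring
  rw [h1, charFun_gaussianReal]
  have h2 : ∀ x : UnitAddCircle, (ENNReal.ofReal (th s x)).toReal • fourier n x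
      = fourier n x * thc s x := by
    intro x
    rw [ENNReal.toReal_ofReal (th_nonneg hs' x), thc_eq, mul_comm]
    exact Complex.real_smul
  simp only [h2]
  rw [integral_fourier_mul_thc hs', cf, Complex.ofReal_exp]
  congr 1
  push_cast
  ring

/-- The semigroup property. -/
lemma th_conv {s t : ℝ} (hs : 0 < s) (ht : 0 < t) (x : UnitAddCircle) :
    ∫ y, th s (x + y) * th t y = th (s + t) x := by
  have h1 : ∀ y : UnitAddCircle, thc s (x + y) * thc t y
      = ∑' n : ℤ, (cf s n : ℂ) * fourier n x * (fourier n y * thc t y) := by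
    intro y
    unfold thc
    rw [← tsum_mul_right]
    refine tsum_congr fun n => ?_
    have : (fourier n (x + y) : ℂ) = fourier n x * fourier n y := by
      simp only [fourier_apply, smul_add, AddCircle.toCircle_add, Circle.coe_mul]
    rw [this]
    ring
  have hc : Continuous (thc t) := thc_continuous ht
  have h2 : ∀ n : ℤ, Integrable
      (fun y : UnitAddCircle => (cf s n : ℂ) * fourier n x * (fourier n y * thc t y)) := by
    intro n
    refine Continuous.integrable_of_hasCompactSupport ?_ (HasCompactSupport.of_compactSpace _)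
    exact continuous_const.mul ((map_continuous _).mul hc)
  have hbd : ∀ (n : ℤ) (y : UnitAddCircle),
      ‖(cf s n : ℂ) * fourier n x * (fourier n y * thc t y)‖ ≤ cf s n * f0 t := by
    intro n y
    rw [norm_mul, term_norm, norm_mul, fourier_apply, Circle.norm_coe, one_mul, thc_eq,
      Complex.norm_real, Real.norm_eq_abs]
    exact mul_le_mul_of_nonneg_left (th_abs_le ht y) (cf_pos s n).le
  have h3 := hasSum_integral_of_summable_integral_norm h2 (by
    refine Summable.of_nonneg_of_le (fun n => integral_nonneg fun y => norm_nonneg _)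
      (fun n => ?_) ((cf_summable hs).mul_right (f0 t))
    calc ∫ y : UnitAddCircle, ‖(cf s n : ℂ) * fourier n x * (fourier n y * thc t y)‖
        ≤ ∫ y : UnitAddCircle, cf s n * f0 t := by
          refine integral_mono_of_nonneg (Filter.Eventually.of_forall fun y => norm_nonneg _)
            (integrable_const _) (Filter.Eventually.of_forall fun y => hbd n y)
      _ = cf s n * f0 t := by rw [integral_const, real_univ, one_smul])
  have h4 : ∫ y, thc s (x + y) * thc t y = thc (s + t) x := by
    simp only [h1]
    rw [← h3.tsum_eq]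
    unfold thc
    refine tsum_congr fun n => ?_
    rw [integral_const_mul]
    have := integral_fourier_mul_thc ht n
    unfold thc at this
    rw [this, cf_add]
    push_cast
    ring
  simp only [thc_eq] at h4
  have h5 : ∫ y, ((th s (x + y) * th t y : ℝ) : ℂ) = (th (s + t) x : ℂ) := by
    rw [← h4]
    refine integral_congr_ae (Filter.Eventually.of_forall fun y => ?_)
    simp
  rw [integral_complex_ofReal] at h5
  exact_mod_cast h5

end Pool.Agent.T2H28.OT
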