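import Pool.Agent.T2H28.OT.Fourth

/-!
# The dual function
-/

set_option autoImplicit false

namespace Pool.Agent.T2H28.OT

open MeasureTheory ProbabilityTheory
open scoped ENNReal NNReal

/-- The flat distance of the torus. -/
noncomputable def tdist (x y : T3) : ℝ := Real.sqrt (∑ i, ‖x i - y i‖ ^ 2)

/-- Geometric sum over the scales. -/
lemma scale_sum (K : ℕ) : ∀ d : ℝ, 0 ≤ d →
    (∑ k ∈ Finset.range K, (1 / 2 : ℝ) ^ k * min 1 (d * 4 ^ k) ≤ 2) ∧
    (d ≤ 1 → ∑ k ∈ Finset.range K, (1 / 2 : ℝ) ^ k * min 1 (d * 4 ^ k) ≤ 3 * Real.sqrt d - d) := by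
  induction K with
  | zero =>
    intro d hd
    refine ⟨by simp, fun h1 => ?_⟩
    have h2 : d ≤ Real.sqrt d := by
      apply Real.le_sqrt_of_sq_le; nlinarith
    simp
    have := Real.sqrt_nonneg d
    linarith
  | succ K ih =>
    intro d hd
    have hrec : ∑ k ∈ Finset.range (K + 1), (1 / 2 : ℝ) ^ k * min 1 (d * 4 ^ k)
        = min 1 d + 1 / 2 * ∑ k ∈ Finset.range K, (1 / 2 : ℝ) ^ k * min 1 ((4 * d) * 4 ^ k) := by
      rw [Finset.sum_range_succ', Finset.mul_sum]
      simp only [pow_zero, one_mul, mul_one]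
      rw [add_comm]
      congr 1
      refine Finset.sum_congr rfl fun k _ => ?_
      have e : d * 4 ^ (k + 1) = 4 * d * 4 ^ k := by ring
      rw [e, pow_succ']
      ring
    obtain ⟨h1, h2⟩ := ih (4 * d) (by linarith)
    rw [hrec]
    refine ⟨?_, fun hd1 => ?_⟩
    · have := min_le_left 1 d
      linarith
    · rw [min_eq_right hd1]
      obtain ⟨r, hr⟩ : ∃ r, r = Real.sqrt d := ⟨_, rfl⟩
      have hr0 : 0 ≤ r := hr ▸ Real.sqrt_nonneg d
      have hr2 : d = r ^ 2 := by rw [hr, Real.sq_sqrt hd]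
      rcases le_total (4 * d) 1 with h4 | h4
      · have h3 := h2 h4
        have h5 : Real.sqrt (4 * d) = 2 * r := by
          rw [hr, show (4 : ℝ) * d = 2 ^ 2 * d by ring, Real.sqrt_mul (by norm_num),
            Real.sqrt_sq (by norm_num)]
        rw [h5] at h3
        rw [← hr]
        linarith
      · have h5 : 1 / 2 ≤ r := by
          rw [hr]
          apply Real.le_sqrt_of_sq_le
          linarith
        have h6 : r ≤ 1 := by
          rw [hr, Real.sqrt_le_left (by norm_num)]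
          simpa using hd1
        rw [← hr]
        have h7 : (2 * r - 1) * (r - 1) ≤ 0 :=
          mul_nonpos_of_nonneg_of_nonpos (by linarith) (by linarith)
        have h8 : 2 * r ^ 2 - 3 * r + 1 ≤ 0 := by nlinarith
        rw [← hr2] at h8
        linarith

lemma scale_sum' (K : ℕ) {d : ℝ} (hd : 0 ≤ d) :
    ∑ k ∈ Finset.range K, (1 / 2 : ℝ) ^ k * min 1 (d * 4 ^ k) ≤ 3 * Real.sqrt d := by
  obtain ⟨h1, h2⟩ := scale_sum K d hd
  rcases le_total d 1 with h | h
  · have := h2 h
    linarith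
  · have h3 : 1 ≤ Real.sqrt d := by
      apply Real.le_sqrt_of_sq_le; simpa using h
    linarith

/-- The scales. -/
noncomputable def sc (k : ℕ) : ℝ := 1 / 50 * (1 / 16) ^ k

lemma sc_pos (k : ℕ) : 0 < sc k := by unfold sc; positivity

lemma sc_le (k : ℕ) : sc k ≤ 1 / 50 := by
  unfold sc
  have : (1 / 16 : ℝ) ^ k ≤ 1 := pow_le_one₀ (by norm_num) (by norm_num)
  linarith

lemma sqrt_sc (k : ℕ) : Real.sqrt (sc k) = 1 / (Real.sqrt 50 * 4 ^ k) := by
  have h50 : (0 : ℝ) < Real.sqrt 50 := Real.sqrt_pos.2 (by norm_num)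
  have h1 : sc k = (1 / (Real.sqrt 50 * 4 ^ k)) ^ 2 := by
    unfold sc
    have e : (16 : ℝ) ^ k = (4 ^ k) ^ 2 := by
      rw [← pow_mul, mul_comm, pow_mul]; norm_num
    rw [div_pow, div_pow, mul_pow, Real.sq_sqrt (by norm_num), one_pow, one_pow, e]
    rw [one_div_mul_one_div]
  rw [h1, Real.sqrt_sq (by positivity)]

/-- The modulus of continuity of the test functions in mean. -/
lemma psi_mod (k : ℕ) (x y : T3) :
    ∫ z, |psi (sc k) z x - psi (sc k) z y| ≤ 4 * min 1 (8 * (∑ i, ‖x i - y i‖) * 4 ^ k) := by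
  have := prob_T3
  have ha := sc_pos k
  have h2a : 0 < 2 * sc k := by linarith
  have hcz : ∀ {a : ℝ}, 0 < a → ∀ x : T3, Continuous fun z => pk a (x - z) := fun ha x =>
    (pk_continuous ha).comp (continuous_sub_left x)
  have hpc : ∀ x : T3, Continuous fun z => psi (sc k) z x := fun x => by
    unfold psi
    exact (hcz ha x).sub (hcz h2a x)
  have hint : ∀ {a : ℝ}, 0 < a → ∀ x : T3, ∫ z, pk a (x - z) = 1 := by
    intro a ha x
    have e : ∀ z : T3, pk a (x - z) = pk a (z - x) := by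
      intro z
      rw [← pk_neg a (x - z), neg_sub]
    simp only [e]
    rw [integral_sub_right_eq_self (fun z => pk a z) x, pk_integral ha]
  have hc1 : Continuous fun z => |psi (sc k) z x - psi (sc k) z y| := ((hpc x).sub (hpc y)).abs
  have hmin : (4 : ℝ) * min 1 (8 * (∑ i, ‖x i - y i‖) * 4 ^ k)
      = min 4 (4 * (8 * (∑ i, ‖x i - y i‖) * 4 ^ k)) := by
    rw [mul_min_of_nonneg _ _ (by norm_num : (0 : ℝ) ≤ 4), mul_one]
  rw [hmin]
  refine le_min ?_ ?_
  · have hpt : ∀ z, |psi (sc k) z x - psi (sc k) z y|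
        ≤ (pk (sc k) (x - z) + pk (2 * sc k) (x - z))
          + (pk (sc k) (y - z) + pk (2 * sc k) (y - z)) := by
      intro z
      refine (abs_sub _ _).trans ?_
      exact add_le_add (abs_psi_le ha z x) (abs_psi_le ha z y)
    have j : ∀ x : T3, Integrable fun z => pk (sc k) (x - z) + pk (2 * sc k) (x - z) := fun x =>
      (cont_int (hcz ha x) _).add (cont_int (hcz h2a x) _)
    calc _ ≤ ∫ z, ((pk (sc k) (x - z) + pk (2 * sc k) (x - z))
          + (pk (sc k) (y - z) + pk (2 * sc k) (y - z))) :=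
          integral_mono (cont_int hc1 _) ((j x).add (j y)) hpt
      _ = 4 := by
          rw [integral_add (j x) (j y), integral_add (cont_int (hcz ha x) _)
            (cont_int (hcz h2a x) _), integral_add (cont_int (hcz ha y) _)
            (cont_int (hcz h2a y) _), hint ha, hint ha, hint h2a, hint h2a]
          norm_num
  · have htv : ∀ {a : ℝ}, 0 < a → ∫ z, |pk a (x - z) - pk a (y - z)|
        ≤ ∑ i, 2 * ‖x i - y i‖ / Real.sqrt a := by
      intro a ha
      have h := tv3 (s := a.toNNReal) (Real.toNNReal_pos.2 ha) x y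
      rw [Real.coe_toNNReal _ ha.le] at h
      have e : ∀ z : T3, |pk a (x - z) - pk a (y - z)| = |pk a (z - x) - pk a (z - y)| := by
        intro z
        rw [← pk_neg a (x - z), ← pk_neg a (y - z), neg_sub, neg_sub]
      simp only [e]
      exact h
    have hpt : ∀ z, |psi (sc k) z x - psi (sc k) z y|
        ≤ |pk (sc k) (x - z) - pk (sc k) (y - z)|
          + |pk (2 * sc k) (x - z) - pk (2 * sc k) (y - z)| := by
      intro z
      unfold psi
      rw [show pk (sc k) (x - z) - pk (2 * sc k) (x - z)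
          - (pk (sc k) (y - z) - pk (2 * sc k) (y - z))
          = (pk (sc k) (x - z) - pk (sc k) (y - z))
            - (pk (2 * sc k) (x - z) - pk (2 * sc k) (y - z)) by ring]
      exact abs_sub _ _
    have j1 : Continuous fun z => |pk (sc k) (x - z) - pk (sc k) (y - z)| :=
      ((hcz ha x).sub (hcz ha y)).abs
    have j2 : Continuous fun z => |pk (2 * sc k) (x - z) - pk (2 * sc k) (y - z)| :=
      ((hcz h2a x).sub (hcz h2a y)).abs
    have hsa : 0 < Real.sqrt (sc k) := Real.sqrt_pos.2 ha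
    have hs2 : Real.sqrt (sc k) ≤ Real.sqrt (2 * sc k) := Real.sqrt_le_sqrt (by linarith)
    have hS0 : 0 ≤ ∑ i, ‖x i - y i‖ := Finset.sum_nonneg fun i _ => norm_nonneg _
    have hsum : ∀ c : ℝ, ∑ i, 2 * ‖x i - y i‖ / c = 2 * (∑ i, ‖x i - y i‖) / c := by
      intro c
      rw [Finset.mul_sum, Finset.sum_div]
    calc _ ≤ ∫ z, (|pk (sc k) (x - z) - pk (sc k) (y - z)|
          + |pk (2 * sc k) (x - z) - pk (2 * sc k) (y - z)|) :=
          integral_mono (cont_int hc1 _) ((cont_int j1 _).add (cont_int j2 _)) hpt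
      _ ≤ 2 * (∑ i, ‖x i - y i‖) / Real.sqrt (sc k)
          + 2 * (∑ i, ‖x i - y i‖) / Real.sqrt (2 * sc k) := by
          rw [integral_add (cont_int j1 _) (cont_int j2 _), ← hsum, ← hsum]
          exact add_le_add (htv ha) (htv h2a)
      _ ≤ 2 * (∑ i, ‖x i - y i‖) / Real.sqrt (sc k)
          + 2 * (∑ i, ‖x i - y i‖) / Real.sqrt (sc k) := by
          gcongr
      _ = 4 * (∑ i, ‖x i - y i‖) * (Real.sqrt 50 * 4 ^ k) := by
          rw [sqrt_sc]
          field_simp
          ring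
      _ ≤ 4 * (∑ i, ‖x i - y i‖) * (8 * 4 ^ k) := by
          have : Real.sqrt 50 ≤ 8 := by
            rw [Real.sqrt_le_left (by norm_num)]; norm_num
          gcongr
      _ = _ := by ring

/-- The dual function built from sign functions `s k`. -/
noncomputable def fdual (s : ℕ → T3 → ℝ) (K : ℕ) (x : T3) : ℝ :=
  ∑ k ∈ Finset.range K, (1 / 2 : ℝ) ^ k * ∫ z, psi (sc k) z x * s k z

lemma psi_joint (k : ℕ) : Continuous fun p : T3 × T3 => psi (sc k) p.2 p.1 := by
  have ha := sc_pos k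
  have e : Continuous fun p : T3 × T3 => p.1 - p.2 := continuous_fst.sub continuous_snd
  have h1 : Continuous fun p : T3 × T3 => pk (sc k) (p.1 - p.2) :=
    Continuous.comp (g := fun x : T3 => pk (sc k) x) (f := fun p : T3 × T3 => p.1 - p.2)
      (pk_continuous ha) e
  have h2 : Continuous fun p : T3 × T3 => pk (2 * sc k) (p.1 - p.2) :=
    Continuous.comp (g := fun x : T3 => pk (2 * sc k) x) (f := fun p : T3 × T3 => p.1 - p.2)
      (pk_continuous (by linarith)) e
  exact h1.sub h2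

lemma psi_s_int (k : ℕ) {s : T3 → ℝ} (hs : Measurable s) (hb : ∀ z, |s z| ≤ 1) (x : T3) :
    Integrable fun z => psi (sc k) z x * s z := by
  have := prob_T3
  have ha := sc_pos k
  have hc : Continuous fun z => psi (sc k) z x :=
    Continuous.comp (g := fun p : T3 × T3 => psi (sc k) p.2 p.1) (f := fun z : T3 => (x, z))
      (psi_joint k) (continuous_const.prodMk continuous_id)
  refine Integrable.of_bound (C := 2 * D (sc k) * 1) (hc.measurable.mul hs).aestronglyMeasurable
    (Filter.Eventually.of_forall fun z => ?_)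
  rw [norm_mul, Real.norm_eq_abs, Real.norm_eq_abs]
  have hD := D_pos ha
  exact mul_le_mul ((abs_psi_le ha z x).trans (phi_le ha z x)) (hb z) (abs_nonneg _)
    (by positivity)

lemma fdual_holder {s : ℕ → T3 → ℝ} (hs : ∀ k, Measurable (s k)) (hb : ∀ k z, |s k z| ≤ 1)
    (K : ℕ) (x y : T3) : |fdual s K x - fdual s K y| ≤ 48 * tdist x y ^ (1 / 2 : ℝ) := by
  have := prob_T3
  have hS0 : 0 ≤ ∑ i, ‖x i - y i‖ := Finset.sum_nonneg fun i _ => norm_nonneg _
  have h1 : |fdual s K x - fdual s K y|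
      ≤ ∑ k ∈ Finset.range K, (1 / 2 : ℝ) ^ k * (4 * min 1 (8 * (∑ i, ‖x i - y i‖) * 4 ^ k)) := by
    unfold fdual
    rw [← Finset.sum_sub_distrib]
    refine (Finset.abs_sum_le_sum_abs _ _).trans (Finset.sum_le_sum fun k _ => ?_)
    rw [← mul_sub, abs_mul, abs_of_pos (by positivity : (0 : ℝ) < (1 / 2) ^ k)]
    refine mul_le_mul_of_nonneg_left ?_ (by positivity)
    rw [← integral_sub (psi_s_int k (hs k) (hb k) x) (psi_s_int k (hs k) (hb k) y)]
    have hc : ∀ x : T3, Continuous fun z => psi (sc k) z x := fun x =>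
      Continuous.comp (g := fun p : T3 × T3 => psi (sc k) p.2 p.1) (f := fun z : T3 => (x, z))
        (psi_joint k) (continuous_const.prodMk continuous_id)
    calc _ ≤ ∫ z, |psi (sc k) z x * s k z - psi (sc k) z y * s k z| :=
          abs_integral_le_integral_abs
      _ ≤ ∫ z, |psi (sc k) z x - psi (sc k) z y| := by
          refine integral_mono_of_nonneg (Filter.Eventually.of_forall fun z => abs_nonneg _)
            (cont_int ((hc x).sub (hc y)).abs _) (Filter.Eventually.of_forall fun z => ?_)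
          simp only
          rw [← sub_mul, abs_mul]
          have := mul_le_mul_of_nonneg_left (hb k z) (abs_nonneg (psi (sc k) z x - psi (sc k) z y))
          linarith
      _ ≤ _ := psi_mod k x y
  have h2 : ∑ k ∈ Finset.range K, (1 / 2 : ℝ) ^ k * (4 * min 1 (8 * (∑ i, ‖x i - y i‖) * 4 ^ k))
      = 4 * ∑ k ∈ Finset.range K, (1 / 2 : ℝ) ^ k * min 1 (8 * (∑ i, ‖x i - y i‖) * 4 ^ k) := by
    generalize (∑ i, ‖x i - y i‖) = S
    rw [Finset.mul_sum]
    exact Finset.sum_congr rfl fun k _ => by ring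
  have h3 := scale_sum' K (d := 8 * ∑ i, ‖x i - y i‖) (by linarith)
  have h4 : ∑ i, ‖x i - y i‖ ≤ 2 * tdist x y := by
    unfold tdist
    have h5 : (∑ i, ‖x i - y i‖) ^ 2 ≤ 4 * ∑ i, ‖x i - y i‖ ^ 2 := by
      have h6 := sq_sum_le_card_mul_sum_sq (s := (Finset.univ : Finset (Fin 3)))
        (f := fun i => ‖x i - y i‖)
      simp only [Finset.card_univ, Fintype.card_fin] at h6
      have h7 : 0 ≤ ∑ i, ‖x i - y i‖ ^ 2 := Finset.sum_nonneg fun i _ => sq_nonneg _
      push_cast at h6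
      linarith
    calc ∑ i, ‖x i - y i‖ = Real.sqrt ((∑ i, ‖x i - y i‖) ^ 2) := (Real.sqrt_sq hS0).symm
      _ ≤ Real.sqrt (4 * ∑ i, ‖x i - y i‖ ^ 2) := Real.sqrt_le_sqrt h5
      _ = 2 * Real.sqrt (∑ i, ‖x i - y i‖ ^ 2) := by
          rw [Real.sqrt_mul (by norm_num), show (4 : ℝ) = 2 ^ 2 by norm_num,
            Real.sqrt_sq (by norm_num)]
  have h0 : 0 ≤ tdist x y := Real.sqrt_nonneg _
  rw [h2] at h1
  refine h1.trans ?_
  calc 4 * ∑ k ∈ Finset.range K, (1 / 2 : ℝ) ^ k * min 1 (8 * (∑ i, ‖x i - y i‖) * 4 ^ k)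
      ≤ 4 * (3 * Real.sqrt (8 * ∑ i, ‖x i - y i‖)) := by linarith
    _ ≤ 4 * (3 * Real.sqrt (16 * tdist x y)) := by
        have : Real.sqrt (8 * ∑ i, ‖x i - y i‖) ≤ Real.sqrt (16 * tdist x y) :=
          Real.sqrt_le_sqrt (by linarith)
        linarith
    _ = 48 * tdist x y ^ (1 / 2 : ℝ) := by
        rw [Real.sqrt_mul (by norm_num), show (16 : ℝ) = 4 ^ 2 by norm_num,
          Real.sqrt_sq (by norm_num), ← Real.sqrt_eq_rpow]
        ring

end Pool.Agent.T2H28.OT
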