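import Pool.Agent.T2H28.OT.Dual

/-!
# The lower bound for the transport cost of the occupation measure
-/

set_option autoImplicit false

namespace Pool.Agent.T2H28.OT

open MeasureTheory ProbabilityTheory
open scoped ENNReal NNReal

/-- The transport cost with exponent `p` between two measures on the torus: the infimum of
`∫ |x - y|^p dπ` over all couplings `π`. -/
noncomputable def Wp (p : ℝ) (μ ν : Measure T3) : ℝ≥0∞ :=
  ⨅ π : Measure (T3 × T3), ⨅ _ : π.fst = μ, ⨅ _ : π.snd = ν,
    ∫⁻ z, ENNReal.ofReal (tdist z.1 z.2 ^ p) ∂π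

/-- The occupation measure of the path `t ↦ B t ω` up to time `T`. -/
noncomputable def occ {Ω : Type} (B : ℝ≥0 → Ω → T3) (T : ℝ) (ω : Ω) : Measure T3 :=
  (volume.restrict (Set.Ioc 0 T)).map (fun t : ℝ => B t.toNNReal ω)

/-- The expected cost, with exponent one half, of transporting the occupation measure to the
uniform measure of the same mass. -/
noncomputable def EW {Ω : Type} [MeasurableSpace Ω] (P : Measure Ω) (B : ℝ≥0 → Ω → T3) (T : ℝ) :
    ℝ≥0∞ :=
  ∫⁻ ω, Wp (1 / 2) (occ B T ω) (occ B T ω Set.univ • volume) ∂P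

lemma tdist_cont : Continuous fun z : T3 × T3 => tdist z.1 z.2 := by
  unfold tdist
  refine Real.continuous_sqrt.comp (continuous_finsetSum _ fun i _ => ?_)
  have : Continuous fun z : T3 × T3 => z.1 i - z.2 i :=
    ((continuous_apply i).comp continuous_fst).sub ((continuous_apply i).comp continuous_snd)
  exact this.norm.pow 2

lemma tdist_nonneg (x y : T3) : 0 ≤ tdist x y := Real.sqrt_nonneg _

/-- Weak duality. -/
lemma coupling {f : T3 → ℝ} (hf : Measurable f) {M : ℝ} (hb : ∀ x, |f x| ≤ M)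
    (hL : ∀ x y, |f x - f y| ≤ 48 * tdist x y ^ (1 / 2 : ℝ)) (μ ν : Measure T3)
    [IsFiniteMeasure μ] :
    ENNReal.ofReal ((∫ x, f x ∂μ) - ∫ x, f x ∂ν) ≤ 48 * Wp (1 / 2) μ ν := by
  have key : ENNReal.ofReal ((∫ x, f x ∂μ) - ∫ x, f x ∂ν) / 48 ≤ Wp (1 / 2) μ ν := by
    unfold Wp
    refine le_iInf fun π => le_iInf fun h1 => le_iInf fun h2 => ?_
    apply ENNReal.div_le_of_le_mul'
    have hfin : IsFiniteMeasure π := by
      constructor
      have : π Set.univ = μ Set.univ := by
        rw [← h1, Measure.fst_univ]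
      rw [this]
      exact measure_lt_top _ _
    have e1 : ∫ x, f x ∂μ = ∫ z, f z.1 ∂π := by
      rw [← h1, Measure.fst]
      exact integral_map measurable_fst.aemeasurable hf.aestronglyMeasurable
    have e2 : ∫ x, f x ∂ν = ∫ z, f z.2 ∂π := by
      rw [← h2, Measure.snd]
      exact integral_map measurable_snd.aemeasurable hf.aestronglyMeasurable
    have i1 : Integrable (fun z : T3 × T3 => f z.1) π :=
      Integrable.of_bound (C := M) (hf.comp measurable_fst).aestronglyMeasurable
        (Filter.Eventually.of_forall fun z => hb _)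
    have i2 : Integrable (fun z : T3 × T3 => f z.2) π :=
      Integrable.of_bound (C := M) (hf.comp measurable_snd).aestronglyMeasurable
        (Filter.Eventually.of_forall fun z => hb _)
    have hc : Continuous fun z : T3 × T3 => tdist z.1 z.2 ^ (1 / 2 : ℝ) :=
      tdist_cont.rpow_const fun z => Or.inr (by norm_num)
    have i3 : Integrable (fun z : T3 × T3 => tdist z.1 z.2 ^ (1 / 2 : ℝ)) π :=
      (hc.integrable_of_hasCompactSupport (HasCompactSupport.of_compactSpace _))
    rw [e1, e2, ← integral_sub i1 i2, ← ofReal_integral_eq_lintegral_ofReal i3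
      (Filter.Eventually.of_forall fun z => Real.rpow_nonneg (tdist_nonneg _ _) _)]
    rw [show (48 : ℝ≥0∞) = ENNReal.ofReal 48 by norm_num, ← ENNReal.ofReal_mul (by norm_num),
      ← integral_const_mul]
    refine ENNReal.ofReal_le_ofReal (integral_mono (i1.sub i2) (i3.const_mul _) fun z => ?_)
    exact (le_abs_self _).trans (hL z.1 z.2)
  rw [ENNReal.div_le_iff (by norm_num) (by norm_num), mul_comm] at key
  exact key

/-- Exchange of integrals. -/
lemma swap_psi {A : Type} [MeasurableSpace A] (m : Measure A) [IsFiniteMeasure m] {g : A → T3}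
    (hg : Measurable g) (k : ℕ) {s : T3 → ℝ} (hs : Measurable s) (hb : ∀ z, |s z| ≤ 1) :
    ∫ a, (∫ z, psi (sc k) z (g a) * s z) ∂m = ∫ z, (∫ a, psi (sc k) z (g a) ∂m) * s z := by
  have := prob_T3
  have ha := sc_pos k
  rw [integral_integral_swap]
  · refine integral_congr_ae (Filter.Eventually.of_forall fun z => ?_)
    simp only
    rw [integral_mul_const]
  · have hm : Measurable (Function.uncurry fun (a : A) (z : T3) => psi (sc k) z (g a) * s z) :=
      ((psi_joint k).measurable.comp ((hg.comp measurable_fst).prodMk measurable_snd)).mul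
        (hs.comp measurable_snd)
    refine Integrable.of_bound (C := 2 * D (sc k) * 1) hm.aestronglyMeasurable
      (Filter.Eventually.of_forall fun x => ?_)
    simp only [Function.uncurry]
    rw [norm_mul, Real.norm_eq_abs, Real.norm_eq_abs]
    have hD := D_pos ha
    exact mul_le_mul ((abs_psi_le ha _ _).trans (phi_le ha _ _)) (hb _) (abs_nonneg _)
      (by positivity)

lemma inner_meas (k : ℕ) {s : T3 → ℝ} (hs : Measurable s) :
    Measurable fun x : T3 => ∫ z, psi (sc k) z x * s z := by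
  have hm : Measurable (Function.uncurry fun (x : T3) (z : T3) => psi (sc k) z x * s z) :=
    (psi_joint k).measurable.mul (hs.comp measurable_snd)
  exact hm.stronglyMeasurable.integral_prod_right.measurable

lemma inner_bound (k : ℕ) {s : T3 → ℝ} (hb : ∀ z, |s z| ≤ 1) (x : T3) :
    |∫ z, psi (sc k) z x * s z| ≤ 2 * D (sc k) * 1 := by
  have := prob_T3
  have ha := sc_pos k
  have hD := D_pos ha
  have h := norm_integral_le_of_norm_le_const (μ := (volume : Measure T3))
    (C := 2 * D (sc k) * 1) (f := fun z => psi (sc k) z x * s z)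
    (Filter.Eventually.of_forall fun z => by
      rw [norm_mul, Real.norm_eq_abs, Real.norm_eq_abs]
      exact mul_le_mul ((abs_psi_le ha _ _).trans (phi_le ha _ _)) (hb _) (abs_nonneg _)
        (by positivity))
  simpa using h

lemma fdual_meas {s : ℕ → T3 → ℝ} (hs : ∀ k, Measurable (s k)) (K : ℕ) :
    Measurable (fdual s K) := by
  unfold fdual
  exact Finset.measurable_sum _ fun k _ => (inner_meas k (hs k)).const_mul _

lemma fdual_bound {s : ℕ → T3 → ℝ} (hb : ∀ k z, |s k z| ≤ 1) (K : ℕ) (x : T3) :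
    |fdual s K x| ≤ ∑ k ∈ Finset.range K, (1 / 2 : ℝ) ^ k * (2 * D (sc k) * 1) := by
  unfold fdual
  refine (Finset.abs_sum_le_sum_abs _ _).trans (Finset.sum_le_sum fun k _ => ?_)
  rw [abs_mul, abs_of_pos (by positivity : (0 : ℝ) < (1 / 2) ^ k)]
  exact mul_le_mul_of_nonneg_left (inner_bound k (hb k) x) (by positivity)

/-- The pairing of the dual function with the image of a measure. -/
lemma dual_pair {A : Type} [MeasurableSpace A] (m : Measure A) [IsFiniteMeasure m] {g : A → T3}
    (hg : Measurable g) {s : ℕ → T3 → ℝ} (hs : ∀ k, Measurable (s k)) (hb : ∀ k z, |s k z| ≤ 1)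
    (K : ℕ) :
    ∫ a, fdual s K (g a) ∂m
      = ∑ k ∈ Finset.range K, (1 / 2 : ℝ) ^ k * ∫ z, (∫ a, psi (sc k) z (g a) ∂m) * s k z := by
  unfold fdual
  rw [integral_finsetSum]
  · refine Finset.sum_congr rfl fun k _ => ?_
    rw [integral_const_mul, swap_psi m hg k (hs k) (hb k)]
  · intro k _
    refine Integrable.const_mul ?_ _
    exact Integrable.of_bound (C := 2 * D (sc k) * 1)
      ((inner_meas k (hs k)).comp hg).aestronglyMeasurable
      (Filter.Eventually.of_forall fun a => inner_bound k (hb k) _)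

section

variable {Ω : Type} [MeasurableSpace Ω] {P : Measure Ω} {W : ℝ≥0 → Ω → (Fin 3 → ℝ)}
  {U : Ω → T3}

/-- The time integrals at the scale `k`. -/
noncomputable def Y (W : ℝ≥0 → Ω → (Fin 3 → ℝ)) (U : Ω → T3) (T : ℝ) (k : ℕ) (z : T3) (ω : Ω) :
    ℝ := H1 W U (sc k) z T 0 ω

lemma Y_cont (hG : Good P W U) (T : ℝ) (k : ℕ) (ω : Ω) : Continuous fun z => Y W U T k z ω := by
  unfold Y H1 hh
  have h : Continuous (Function.uncurry fun (z : T3) (t : ℝ) => psi (sc k) z (bb W U t ω)) :=
    Continuous.comp (g := fun p : T3 × T3 => psi (sc k) p.2 p.1)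
      (f := fun q : T3 × ℝ => (bb W U q.2 ω, q.1))
      (psi_joint k) (((bb_cont hG ω).comp continuous_snd).prodMk continuous_fst)
  exact intervalIntegral.continuous_parametric_intervalIntegral_of_continuous' h 0 T

lemma Y_meas (hG : Good P W U) (T : ℝ) (k : ℕ) : Measurable (Function.uncurry (Y W U T k)) :=
  measurable_uncurry_of_continuous_of_measurable (fun ω => Y_cont hG T k ω)
    (fun z => H1_meas_t hG (sc_pos k) z T 0)

/-- The sign. -/
noncomputable def sg (x : ℝ) : ℝ := if 0 ≤ x then 1 else -1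

lemma sg_meas : Measurable sg := by
  unfold sg
  exact Measurable.ite measurableSet_Ici measurable_const measurable_const

lemma sg_abs (x : ℝ) : |sg x| ≤ 1 := by
  unfold sg
  split_ifs <;> simp

lemma mul_sg (x : ℝ) : x * sg x = |x| := by
  unfold sg
  split_ifs with h
  · rw [mul_one, abs_of_nonneg h]
  · rw [mul_neg_one, abs_of_neg (not_le.1 h)]

lemma pathwise (hG : Good P W U) {B : ℝ≥0 → Ω → T3} (hB : ∀ t ω, B t ω = U ω + prj (W t ω))
    {T : ℝ} (hT : 0 ≤ T) (K : ℕ) (ω : Ω) :
    ENNReal.ofReal (∑ k ∈ Finset.range K, (1 / 2 : ℝ) ^ k * ∫ z, |Y W U T k z ω|)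
      ≤ 48 * Wp (1 / 2) (occ B T ω) (occ B T ω Set.univ • volume) := by
  have := prob_T3
  obtain ⟨s, hs⟩ : ∃ s : ℕ → T3 → ℝ, s = fun k z => sg (Y W U T k z ω) := ⟨_, rfl⟩
  have hsm : ∀ k, Measurable (s k) := fun k => by
    rw [hs]; exact sg_meas.comp (Y_cont hG T k ω).measurable
  have hsb : ∀ k z, |s k z| ≤ 1 := fun k z => by rw [hs]; exact sg_abs _
  have eB : (fun t : ℝ => B t.toNNReal ω) = fun t => bb W U t ω := by
    funext t; exact hB _ _
  have hbm : Measurable fun t : ℝ => bb W U t ω := (bb_cont hG ω).measurable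
  have hocc : occ B T ω = (volume.restrict (Set.Ioc 0 T)).map (fun t => bb W U t ω) := by
    unfold occ; rw [eB]
  have hfin0 : IsFiniteMeasure ((volume : Measure ℝ).restrict (Set.Ioc 0 T)) := inferInstance
  have hfin : IsFiniteMeasure (occ B T ω) := by
    rw [hocc]
    exact Measure.isFiniteMeasure_map _ _
  have h := coupling (fdual_meas hsm K) (fdual_bound hsb K) (fdual_holder hsm hsb K)
    (occ B T ω) (occ B T ω Set.univ • volume)
  have e1 : ∫ x, fdual s K x ∂(occ B T ω)
      = ∑ k ∈ Finset.range K, (1 / 2 : ℝ) ^ k * ∫ z, |Y W U T k z ω| := by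
    rw [hocc, integral_map hbm.aemeasurable (fdual_meas hsm K).aestronglyMeasurable,
      dual_pair _ hbm hsm hsb K]
    refine Finset.sum_congr rfl fun k _ => ?_
    congr 1
    refine integral_congr_ae (Filter.Eventually.of_forall fun z => ?_)
    simp only
    rw [← mul_sg, hs]
    congr 1
    unfold Y H1 hh
    rw [intervalIntegral.integral_of_le hT]
  have e2 : ∫ x, fdual s K x ∂(occ B T ω Set.univ • (volume : Measure T3)) = 0 := by
    have hd := dual_pair (volume : Measure T3) (g := fun x => x) measurable_id hsm hsb K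
    rw [integral_smul_measure, hd]
    have : ∀ k z, ∫ a, psi (sc k) z a = 0 := by
      intro k z
      have ha := sc_pos k
      unfold psi
      rw [integral_sub (cont_int (pkz_cont ha z) _) (cont_int (pkz_cont (by linarith) z) _),
        int_pkz ha, int_pkz (by linarith)]
      norm_num
    simp only [this]
    simp
  rw [e1, e2, sub_zero] at h
  exact h

lemma expect (hG : Good P W U) {T : ℝ} (hT : 0 ≤ T) (K : ℕ)
    (hK : ∀ k ∈ Finset.range K, 1 / Real.sqrt (sc k) ≤ T) :
    ENNReal.ofReal (K * Real.sqrt T / 200000000000)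
      ≤ ∫⁻ ω, ENNReal.ofReal (∑ k ∈ Finset.range K, (1 / 2 : ℝ) ^ k * ∫ z, |Y W U T k z ω|) ∂P := by
  have := prob_T3
  have := hG.prob
  have hYb : ∀ k z ω, |Y W U T k z ω| ≤ 2 * D (sc k) * T := by
    intro k z ω
    have := H1_bound (W := W) (U := U) (sc_pos k) z (le_refl 0) hT ω
    simpa [Y] using this
  have hYm := fun k => Y_meas hG T k
  have hjm : ∀ k, Integrable (fun x : Ω × T3 => |Y W U T k x.2 x.1|) (P.prod volume) := by
    intro k
    refine Integrable.of_bound (C := 2 * D (sc k) * T) ?_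
      (Filter.Eventually.of_forall fun x => ?_)
    · have h1 : Measurable fun x : Ω × T3 => Function.uncurry (Y W U T k) x.swap :=
        Measurable.comp (g := Function.uncurry (Y W U T k)) (f := fun x : Ω × T3 => x.swap)
          (hYm k) measurable_swap
      exact h1.norm.aestronglyMeasurable
    · rw [Real.norm_eq_abs, abs_abs]
      exact hYb _ _ _
  have hint : ∀ k, Integrable (fun ω => ∫ z, |Y W U T k z ω|) P := fun k =>
    (hjm k).integral_prod_left
  have hsum : Integrable (fun ω => ∑ k ∈ Finset.range K, (1 / 2 : ℝ) ^ k * ∫ z, |Y W U T k z ω|) P :=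
    integrable_finsetSum _ fun k _ => (hint k).const_mul _
  have hnn : ∀ ω, 0 ≤ ∑ k ∈ Finset.range K, (1 / 2 : ℝ) ^ k * ∫ z, |Y W U T k z ω| := fun ω =>
    Finset.sum_nonneg fun k _ => mul_nonneg (by positivity)
      (integral_nonneg fun z => abs_nonneg _)
  rw [← ofReal_integral_eq_lintegral_ofReal hsum (Filter.Eventually.of_forall hnn)]
  refine ENNReal.ofReal_le_ofReal ?_
  rw [integral_finsetSum _ fun k _ => (hint k).const_mul _]
  have hterm : ∀ k ∈ Finset.range K, Real.sqrt T / 200000000000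
      ≤ ∫ ω, (1 / 2 : ℝ) ^ k * (∫ z, |Y W U T k z ω|) ∂P := by
    intro k hk
    rw [integral_const_mul]
    have hsw : ∫ ω, (∫ z, |Y W U T k z ω|) ∂P = ∫ z, (∫ ω, |Y W U T k z ω| ∂P) :=
      integral_integral_swap (f := fun ω z => |Y W U T k z ω|) (hjm k)
    rw [hsw]
    have hz : ∀ z, Real.sqrt (T / Real.sqrt (sc k)) / 200000000000
        ≤ ∫ ω, |Y W U T k z ω| ∂P := fun z =>
      first_moment hG (sc_pos k) (sc_le k) z (hK k hk)
    have h1 : Real.sqrt (T / Real.sqrt (sc k)) / 200000000000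
        ≤ ∫ z, (∫ ω, |Y W U T k z ω| ∂P) := by
      have h2 : Integrable (fun z => ∫ ω, |Y W U T k z ω| ∂P) (volume : Measure T3) :=
        (hjm k).integral_prod_right
      have h3 := integral_mono (μ := (volume : Measure T3)) (integrable_const _) h2
        (fun z => hz z)
      simpa using h3
    have h4 : (2 : ℝ) ^ k * Real.sqrt T ≤ Real.sqrt (T / Real.sqrt (sc k)) := by
      rw [show (2 : ℝ) ^ k * Real.sqrt T = Real.sqrt (4 ^ k * T) by
        rw [Real.sqrt_mul (by positivity), show (4 : ℝ) ^ k = (2 ^ k) ^ 2 by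
          rw [← pow_mul, mul_comm, pow_mul]; norm_num, Real.sqrt_sq (by positivity)]]
      apply Real.sqrt_le_sqrt
      rw [sqrt_sc]
      have h50 : (1 : ℝ) ≤ Real.sqrt 50 := by
        apply Real.le_sqrt_of_sq_le; norm_num
      rw [div_div_eq_mul_div, div_one]
      have h5 : (0 : ℝ) < 4 ^ k := by positivity
      have h6 : (1 : ℝ) * 4 ^ k ≤ Real.sqrt 50 * 4 ^ k :=
        mul_le_mul_of_nonneg_right h50 h5.le
      calc (4 : ℝ) ^ k * T = T * (1 * 4 ^ k) := by ring
        _ ≤ T * (Real.sqrt 50 * 4 ^ k) := mul_le_mul_of_nonneg_left h6 hT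
    calc Real.sqrt T / 200000000000
        = (1 / 2 : ℝ) ^ k * ((2 : ℝ) ^ k * Real.sqrt T / 200000000000) := by
          rw [one_div_pow]
          field_simp
      _ ≤ (1 / 2 : ℝ) ^ k * (Real.sqrt (T / Real.sqrt (sc k)) / 200000000000) := by
          gcongr
      _ ≤ _ := by gcongr
  calc (K : ℝ) * Real.sqrt T / 200000000000
      = ∑ k ∈ Finset.range K, Real.sqrt T / 200000000000 := by
        rw [Finset.sum_const, Finset.card_range, nsmul_eq_mul]; ring
    _ ≤ _ := Finset.sum_le_sum hterm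

lemma lower {B : ℝ≥0 → Ω → T3} [IsProbabilityMeasure P] (hB : IsStatBM P B) {T : ℝ}
    (hT : Real.exp 8 ≤ T) :
    ENNReal.ofReal (1 / 10 ^ 14 * (Real.sqrt T * Real.log T)) ≤ EW P B T := by
  obtain ⟨W, U, hW, hU, hlU, hind, hBt⟩ := hB
  have hG : Good P W U := ⟨inferInstance, hW, hU, hlU, hind⟩
  have hT0 : 0 < T := (Real.exp_pos 8).trans_le hT
  have hlog : 8 ≤ Real.log T := by
    rw [Real.le_log_iff_exp_le hT0]; exact hT
  have hT64 : 64 ≤ T := by
    have h1 : (1 + 1 : ℝ) ≤ Real.exp 1 := by simpa using Real.add_one_le_exp (1 : ℝ)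
    have h2 : Real.exp 8 = Real.exp 1 ^ 8 := by rw [← Real.exp_nat_mul]; norm_num
    have h3 : (1 + 1 : ℝ) ^ 8 ≤ Real.exp 1 ^ 8 := by gcongr
    rw [← h2] at h3
    norm_num at h3
    linarith
  obtain ⟨K, hKdef⟩ : ∃ K : ℕ, K = ⌊Real.log T / 4⌋₊ := ⟨_, rfl⟩
  have hK1 : (K : ℝ) ≤ Real.log T / 4 := by
    rw [hKdef]; exact Nat.floor_le (by linarith)
  have hK2 : Real.log T / 4 < K + 1 := by
    rw [hKdef]; exact Nat.lt_floor_add_one _
  have hsq : (4 : ℝ) ^ K ≤ Real.sqrt T := by
    have h1 : (4 : ℝ) ≤ Real.exp 2 := by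
      have h1 : (1 + 1 : ℝ) ≤ Real.exp 1 := by simpa using Real.add_one_le_exp (1 : ℝ)
      have h2 : Real.exp 2 = Real.exp 1 ^ 2 := by rw [← Real.exp_nat_mul]; norm_num
      rw [h2]; nlinarith
    calc (4 : ℝ) ^ K ≤ Real.exp 2 ^ K := by gcongr
      _ = Real.exp (K * 2) := by rw [← Real.exp_nat_mul]
      _ ≤ Real.exp (Real.log T / 2) := Real.exp_le_exp.2 (by linarith)
      _ = Real.sqrt T := by
          rw [Real.sqrt_eq_rpow, Real.rpow_def_of_pos hT0]
          congr 1; ring
  have h8 : (8 : ℝ) ≤ Real.sqrt T := by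
    apply Real.le_sqrt_of_sq_le; linarith
  have hKc : ∀ k ∈ Finset.range K, 1 / Real.sqrt (sc k) ≤ T := by
    intro k hk
    have hkK := (Finset.mem_range.1 hk).le
    rw [sqrt_sc, one_div_one_div]
    have h50 : Real.sqrt 50 ≤ 8 := by
      rw [Real.sqrt_le_left (by norm_num)]; norm_num
    have h4k : (4 : ℝ) ^ k ≤ 4 ^ K := pow_le_pow_right₀ (by norm_num) hkK
    calc Real.sqrt 50 * 4 ^ k ≤ Real.sqrt T * Real.sqrt T :=
          mul_le_mul (h50.trans h8) (h4k.trans hsq) (by positivity) (Real.sqrt_nonneg _)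
      _ = T := Real.mul_self_sqrt hT0.le
  have h1 := expect hG hT0.le K hKc
  have h2 : ∫⁻ ω, ENNReal.ofReal (∑ k ∈ Finset.range K, (1 / 2 : ℝ) ^ k
      * ∫ z, |Y W U T k z ω|) ∂P ≤ 48 * EW P B T := by
    unfold EW
    rw [← lintegral_const_mul' _ _ (by norm_num)]
    exact lintegral_mono fun ω => pathwise hG hBt hT0.le K ω
  have h3 := h1.trans h2
  have h4 : ENNReal.ofReal (48 * (1 / 10 ^ 14 * (Real.sqrt T * Real.log T)))
      ≤ ENNReal.ofReal (K * Real.sqrt T / 200000000000) := by
    apply ENNReal.ofReal_le_ofReal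
    have h5 : Real.log T / 8 ≤ K := by linarith
    have h6 : 0 ≤ Real.sqrt T := Real.sqrt_nonneg _
    have h7 : Real.sqrt T * (Real.log T / 8) ≤ Real.sqrt T * K := mul_le_mul_of_nonneg_left h5 h6
    have h8 : 0 ≤ Real.sqrt T * Real.log T := mul_nonneg h6 (by linarith)
    have h9 : (K : ℝ) * Real.sqrt T / 200000000000 = Real.sqrt T * K / 200000000000 := by ring
    rw [h9]
    have h10 : Real.sqrt T * (Real.log T / 8) = (Real.sqrt T * Real.log T) / 8 := by ring
    rw [h10] at h7
    norm_num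
    linarith
  have h5 := h4.trans h3
  rw [ENNReal.ofReal_mul (by norm_num), show ENNReal.ofReal 48 = 48 by norm_num] at h5
  exact (ENNReal.mul_le_mul_iff_right (by norm_num) (by norm_num)).1 h5

end

end Pool.Agent.T2H28.OT
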