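import Pool.Agent.T2H28.OT.Moments

/-!
# The fourth moment and the first absolute moment
-/

set_option autoImplicit false

namespace Pool.Agent.T2H28.OT

open MeasureTheory ProbabilityTheory
open scoped ENNReal NNReal

section

variable {Ω : Type} [MeasurableSpace Ω] {P : Measure Ω} {W : ℝ≥0 → Ω → (Fin 3 → ℝ)}
  {U : Ω → T3}

/-- The constant in front of the diagonal term. -/
noncomputable def kap (a : ℝ) : ℝ := 4 * (a * D a) * (1104 / Real.sqrt a)

lemma kap_nonneg {a : ℝ} (ha : 0 < a) : 0 ≤ kap a := by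
  unfold kap
  have := D_pos ha
  positivity

/-- Two times fixed. -/
lemma S_bound (hG : Good P W U) {a : ℝ} (ha : 0 < a) (ha1 : a ≤ 1) (z : T3) {T t1 t2 : ℝ}
    (h0 : 0 ≤ t1) (h12 : t1 < t2) (h2T : t2 ≤ T) :
    ∫ ω, hh W U a z t1 ω * (hh W U a z t2 ω * H1 W U a z T t2 ω ^ 2) ∂P
      ≤ 2 * (T * (a * D (2 * a)) * q a (t2 - t1) + kap a * D (2 * a + (t2 - t1))) := by
  have := hG.prob
  have hD := D_pos ha
  have hT0 : 0 ≤ T := by linarith
  have hD2 := D_pos (s := 2 * a) (by linarith)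
  have hD3 := D_pos (s := 2 * a + (t2 - t1)) (by linarith)
  have hq := q_nonneg ha (sub_pos.2 h12).le
  have cm : Measurable fun ω => 2 * (hh W U a z t1 ω * hh W U a z t2 ω) :=
    ((hh_meas_t hG ha z t1).mul (hh_meas_t hG ha z t2)).const_mul 2
  have cb : ∀ ω, |2 * (hh W U a z t1 ω * hh W U a z t2 ω)| ≤ 2 * (2 * D a * (2 * D a)) := by
    intro ω
    rw [abs_mul, abs_mul, abs_two]
    refine mul_le_mul_of_nonneg_left ?_ (by norm_num)
    exact mul_le_mul (hh_bound ha z _ ω) (hh_bound ha z _ ω) (abs_nonneg _) (by positivity)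
  have gm : Measurable (Function.uncurry fun (s : ℝ) (ω : Ω) =>
      hh W U a z s ω * H1 W U a z T s ω) := (hh_meas hG ha z).mul (H1_meas hG ha z T)
  have gb : ∀ t ∈ Set.Ioc t2 T, ∀ ω, |hh W U a z t ω * H1 W U a z T t ω|
      ≤ 2 * D a * (2 * D a * T) := by
    intro t ht ω
    rw [abs_mul]
    exact mul_le_mul (hh_bound ha z t ω) (H1_bound ha z (by linarith [ht.1]) ht.2 ω)
      (abs_nonneg _) (by positivity)
  have e1 : ∀ ω, hh W U a z t1 ω * (hh W U a z t2 ω * H1 W U a z T t2 ω ^ 2)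
      = (2 * (hh W U a z t1 ω * hh W U a z t2 ω))
        * (∫ s in t2..T, hh W U a z s ω * H1 W U a z T s ω) := by
    intro ω
    have h := pow_integral (hh_cont hG ha z ω) 1 t2 T
    simp only [pow_one] at h
    have h2 : ((1 : ℕ) : ℝ) + 1 = 2 := by norm_num
    rw [h2] at h
    have h3 : H1 W U a z T t2 ω ^ 2 = 2 * ∫ s in t2..T, hh W U a z s ω * H1 W U a z T s ω := h
    rw [h3]
    ring
  have e2 := fub (P := P) cm cb gm h2T gb
  have hcg : Measurable (Function.uncurry fun (s : ℝ) (ω : Ω) =>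
      (2 * (hh W U a z t1 ω * hh W U a z t2 ω)) * (hh W U a z s ω * H1 W U a z T s ω)) :=
    (cm.comp measurable_snd).mul gm
  have hii : IntervalIntegrable (fun s => ∫ ω, (2 * (hh W U a z t1 ω * hh W U a z t2 ω))
      * (hh W U a z s ω * H1 W U a z T s ω) ∂P) volume t2 T := by
    refine fub_int hcg (M := 2 * (2 * D a * (2 * D a)) * (2 * D a * (2 * D a * T))) h2T
      (fun t ht ω => ?_)
    rw [abs_mul]
    exact mul_le_mul (cb ω) (gb t ht ω) (abs_nonneg _) (by positivity)
  obtain ⟨ebi, ebI⟩ := eb_integral ha ha1 (T := T - t2) (sub_nonneg.2 h2T)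
  have ebi' : IntervalIntegrable (fun s => eb a (s - t2)) volume t2 T := by
    have := ebi.comp_sub_right t2
    simpa using this
  have ebI' : ∫ s in t2..T, eb a (s - t2) ≤ 1104 / Real.sqrt a := by
    have := intervalIntegral.integral_comp_sub_right (a := t2) (b := T) (eb a) t2
    rw [this, sub_self]
    exact ebI
  have hpt : ∀ s ∈ Set.Ioo t2 T, ∫ ω, (2 * (hh W U a z t1 ω * hh W U a z t2 ω))
      * (hh W U a z s ω * H1 W U a z T s ω) ∂P
      ≤ 2 * (a * D (2 * a) * q a (t2 - t1))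
        + 8 * (a * D a) * D (2 * a + (t2 - t1)) * eb a (s - t2) := by
    intro s hs
    have h := R_bound hG ha ha1 z h0 h12 hs.1 hs.2.le
    have e3 : ∀ ω, (2 * (hh W U a z t1 ω * hh W U a z t2 ω))
        * (hh W U a z s ω * H1 W U a z T s ω)
        = 2 * ((hh W U a z t1 ω * (hh W U a z t2 ω * hh W U a z s ω)) * H1 W U a z T s ω) := by
      intro ω; ring
    simp only [e3]
    rw [integral_const_mul]
    linarith
  simp only [e1]
  rw [e2]
  calc _ ≤ ∫ s in t2..T, (2 * (a * D (2 * a) * q a (t2 - t1))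
        + 8 * (a * D a) * D (2 * a + (t2 - t1)) * eb a (s - t2)) := by
        refine intervalIntegral.integral_mono_on_of_le_Ioo h2T hii
          (intervalIntegrable_const.add (ebi'.const_mul _)) hpt
    _ = (T - t2) * (2 * (a * D (2 * a) * q a (t2 - t1)))
        + 8 * (a * D a) * D (2 * a + (t2 - t1)) * ∫ s in t2..T, eb a (s - t2) := by
        rw [intervalIntegral.integral_add intervalIntegrable_const (ebi'.const_mul _),
          intervalIntegral.integral_const, intervalIntegral.integral_const_mul, smul_eq_mul]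
    _ ≤ T * (2 * (a * D (2 * a) * q a (t2 - t1)))
        + 8 * (a * D a) * D (2 * a + (t2 - t1)) * (1104 / Real.sqrt a) := by
        gcongr
        linarith
    _ = _ := by unfold kap; ring

/-- One time fixed. -/
lemma T_bound (hG : Good P W U) {a : ℝ} (ha : 0 < a) (ha1 : a ≤ 1) (z : T3) {T t1 : ℝ}
    (h0 : 0 ≤ t1) (h1T : t1 ≤ T) :
    ∫ ω, hh W U a z t1 ω * H1 W U a z T t1 ω ^ 3 ∂P
      ≤ 6 * (T * (a * D (2 * a)) ^ 2 + kap a * (250 / Real.sqrt a + 27 * T)) := by
  have := hG.prob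
  have hD := D_pos ha
  have hT0 : 0 ≤ T := by linarith
  have hD2 := D_pos (s := 2 * a) (by linarith)
  have cm : Measurable fun ω => 3 * hh W U a z t1 ω := (hh_meas_t hG ha z t1).const_mul 3
  have cb : ∀ ω, |3 * hh W U a z t1 ω| ≤ 3 * (2 * D a) := by
    intro ω
    rw [abs_mul, abs_of_pos (by norm_num : (0 : ℝ) < 3)]
    exact mul_le_mul_of_nonneg_left (hh_bound ha z _ ω) (by norm_num)
  have gm : Measurable (Function.uncurry fun (s : ℝ) (ω : Ω) =>
      hh W U a z s ω * H1 W U a z T s ω ^ 2) :=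
    (hh_meas hG ha z).mul ((H1_meas hG ha z T).pow_const 2)
  have gb : ∀ t ∈ Set.Ioc t1 T, ∀ ω, |hh W U a z t ω * H1 W U a z T t ω ^ 2|
      ≤ 2 * D a * (2 * D a * T) ^ 2 := by
    intro t ht ω
    rw [abs_mul, abs_pow]
    exact mul_le_mul (hh_bound ha z t ω)
      (pow_le_pow_left₀ (abs_nonneg _) (H1_bound ha z (by linarith [ht.1]) ht.2 ω) 2)
      (by positivity) (by positivity)
  have e1 : ∀ ω, hh W U a z t1 ω * H1 W U a z T t1 ω ^ 3
      = (3 * hh W U a z t1 ω)
        * (∫ s in t1..T, hh W U a z s ω * H1 W U a z T s ω ^ 2) := by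
    intro ω
    have h := pow_integral (hh_cont hG ha z ω) 2 t1 T
    have h2 : ((2 : ℕ) : ℝ) + 1 = 3 := by norm_num
    rw [h2] at h
    have h3 : H1 W U a z T t1 ω ^ 3 = 3 * ∫ s in t1..T, hh W U a z s ω * H1 W U a z T s ω ^ 2 := h
    rw [h3]
    ring
  have e2 := fub (P := P) cm cb gm h1T gb
  have hcg : Measurable (Function.uncurry fun (s : ℝ) (ω : Ω) =>
      (3 * hh W U a z t1 ω) * (hh W U a z s ω * H1 W U a z T s ω ^ 2)) :=
    (cm.comp measurable_snd).mul gm
  have hii : IntervalIntegrable (fun s => ∫ ω, (3 * hh W U a z t1 ω)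
      * (hh W U a z s ω * H1 W U a z T s ω ^ 2) ∂P) volume t1 T := by
    refine fub_int hcg (M := 3 * (2 * D a) * (2 * D a * (2 * D a * T) ^ 2)) h1T
      (fun t ht ω => ?_)
    rw [abs_mul]
    exact mul_le_mul (cb ω) (gb t ht ω) (abs_nonneg _) (by positivity)
  have hS : 0 ≤ T - t1 := sub_nonneg.2 h1T
  obtain ⟨Di, DI⟩ := D_integral ha hS
  have qi := q_intble ha hS
  have qI := q_integral ha hS
  have Di' : IntervalIntegrable (fun s => D (2 * a + (s - t1))) volume t1 T := by
    have := Di.comp_sub_right t1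
    simpa using this
  have qi' : IntervalIntegrable (fun s => q a (s - t1)) volume t1 T := by
    have := qi.comp_sub_right t1
    simpa using this
  have DI' : ∫ s in t1..T, D (2 * a + (s - t1)) ≤ 250 / Real.sqrt a + 27 * T := by
    have := intervalIntegral.integral_comp_sub_right (a := t1) (b := T)
      (fun s => D (2 * a + s)) t1
    rw [this, sub_self]
    refine DI.trans ?_
    linarith
  have qI' : ∫ s in t1..T, q a (s - t1) ≤ a * D (2 * a) := by
    have := intervalIntegral.integral_comp_sub_right (a := t1) (b := T) (q a) t1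
    rw [this, sub_self]
    exact qI
  have hk := kap_nonneg ha
  have hpt : ∀ s ∈ Set.Ioo t1 T, ∫ ω, (3 * hh W U a z t1 ω)
      * (hh W U a z s ω * H1 W U a z T s ω ^ 2) ∂P
      ≤ 6 * (T * (a * D (2 * a))) * q a (s - t1) + 6 * kap a * D (2 * a + (s - t1)) := by
    intro s hs
    have h := S_bound hG ha ha1 z h0 hs.1 hs.2.le
    have e3 : ∀ ω, (3 * hh W U a z t1 ω) * (hh W U a z s ω * H1 W U a z T s ω ^ 2)
        = 3 * (hh W U a z t1 ω * (hh W U a z s ω * H1 W U a z T s ω ^ 2)) := by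
      intro ω; ring
    simp only [e3]
    rw [integral_const_mul]
    linarith
  simp only [e1]
  rw [e2]
  calc _ ≤ ∫ s in t1..T, (6 * (T * (a * D (2 * a))) * q a (s - t1)
        + 6 * kap a * D (2 * a + (s - t1))) := by
        refine intervalIntegral.integral_mono_on_of_le_Ioo h1T hii
          ((qi'.const_mul _).add (Di'.const_mul _)) hpt
    _ = 6 * (T * (a * D (2 * a))) * (∫ s in t1..T, q a (s - t1))
        + 6 * kap a * ∫ s in t1..T, D (2 * a + (s - t1)) := by
        rw [intervalIntegral.integral_add (qi'.const_mul _) (Di'.const_mul _),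
          intervalIntegral.integral_const_mul, intervalIntegral.integral_const_mul]
    _ ≤ 6 * (T * (a * D (2 * a))) * (a * D (2 * a))
        + 6 * kap a * (250 / Real.sqrt a + 27 * T) := by
        gcongr
    _ = _ := by ring

lemma aD_le {a : ℝ} (ha : 0 < a) (ha1 : a ≤ 1) : a * D a ≤ 125 / Real.sqrt a := by
  have hsa := Real.sqrt_pos.2 ha
  have h := D_le ha (by linarith)
  calc a * D a ≤ a * (125 * w3 a) := mul_le_mul_of_nonneg_left h ha.le
    _ = 125 / Real.sqrt a := by
        unfold w3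
        field_simp

/-- The fourth moment. -/
lemma fourth_moment (hG : Good P W U) {a : ℝ} (ha : 0 < a) (ha1 : a ≤ 1) (z : T3) {T : ℝ}
    (hT : 1 / Real.sqrt a ≤ T) :
    ∫ ω, H1 W U a z T 0 ω ^ 4 ∂P ≤ 4000000000 * T ^ 2 / a := by
  have := hG.prob
  have hD := D_pos ha
  have hsa := Real.sqrt_pos.2 ha
  have hT0 : 0 ≤ T := le_trans (by positivity) hT
  have hss : Real.sqrt a * Real.sqrt a = a := Real.mul_self_sqrt ha.le
  have gm : Measurable (Function.uncurry fun (s : ℝ) (ω : Ω) =>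
      4 * (hh W U a z s ω * H1 W U a z T s ω ^ 3)) :=
    ((hh_meas hG ha z).mul ((H1_meas hG ha z T).pow_const 3)).const_mul 4
  have gb : ∀ t ∈ Set.Ioc 0 T, ∀ ω, |4 * (hh W U a z t ω * H1 W U a z T t ω ^ 3)|
      ≤ 4 * (2 * D a * (2 * D a * T) ^ 3) := by
    intro t ht ω
    rw [abs_mul, abs_mul, abs_pow, abs_of_pos (by norm_num : (0 : ℝ) < 4)]
    refine mul_le_mul_of_nonneg_left ?_ (by norm_num)
    exact mul_le_mul (hh_bound ha z t ω)
      (pow_le_pow_left₀ (abs_nonneg _) (H1_bound ha z (by linarith [ht.1]) ht.2 ω) 3)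
      (by positivity) (by positivity)
  have e1 : ∀ ω, H1 W U a z T 0 ω ^ 4
      = 1 * (∫ s in (0 : ℝ)..T, 4 * (hh W U a z s ω * H1 W U a z T s ω ^ 3)) := by
    intro ω
    have h := pow_integral (hh_cont hG ha z ω) 3 0 T
    have h2 : ((3 : ℕ) : ℝ) + 1 = 4 := by norm_num
    rw [h2] at h
    rw [one_mul, intervalIntegral.integral_const_mul]
    exact h
  have e2 : ∫ ω, H1 W U a z T 0 ω ^ 4 ∂P
      = ∫ s in (0 : ℝ)..T, (∫ ω, 4 * (hh W U a z s ω * H1 W U a z T s ω ^ 3) ∂P) := by
    simp only [e1]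
    rw [fub (P := P) (c := fun _ => 1) measurable_const (K := 1) (by simp) gm hT0 gb]
    simp
  have hii := fub_int (P := P) gm hT0 gb
  have hk := kap_nonneg ha
  have a1 := aD_le ha ha1
  have a2 : a * D (2 * a) ≤ 125 / Real.sqrt a :=
    (mul_le_mul_of_nonneg_left (D_anti ha (by linarith)) ha.le).trans a1
  have hD2 := D_pos (s := 2 * a) (by linarith)
  have a3 : (a * D (2 * a)) ^ 2 ≤ 15625 / a := by
    calc (a * D (2 * a)) ^ 2 ≤ (125 / Real.sqrt a) ^ 2 := pow_le_pow_left₀ (by positivity) a2 2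
      _ = 15625 / a := by
          rw [div_pow, Real.sq_sqrt ha.le]; norm_num
  have a4 : kap a ≤ 552000 / a := by
    unfold kap
    calc 4 * (a * D a) * (1104 / Real.sqrt a) ≤ 4 * (125 / Real.sqrt a) * (1104 / Real.sqrt a) := by
          gcongr
      _ = 552000 / (Real.sqrt a * Real.sqrt a) := by
          field_simp
          norm_num
      _ = 552000 / a := by rw [hss]
  have a5 : 250 / Real.sqrt a + 27 * T ≤ 277 * T := by
    have : 250 / Real.sqrt a = 250 * (1 / Real.sqrt a) := by ring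
    rw [this]
    linarith
  rw [e2]
  calc _ ≤ ∫ _s in (0 : ℝ)..T,
        (24 * (T * (a * D (2 * a)) ^ 2 + kap a * (250 / Real.sqrt a + 27 * T))) := by
        apply intervalIntegral.integral_mono_on hT0 hii intervalIntegrable_const
        intro s hs
        have h := T_bound hG ha ha1 z hs.1 hs.2
        rw [integral_const_mul]
        linarith
    _ = T * (24 * (T * (a * D (2 * a)) ^ 2 + kap a * (250 / Real.sqrt a + 27 * T))) := by
        rw [intervalIntegral.integral_const, smul_eq_mul, sub_zero]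
    _ ≤ T * (24 * (T * (15625 / a) + (552000 / a) * (277 * T))) := by
        gcongr
    _ = 3670071000 * (T ^ 2 / a) := by ring
    _ ≤ 4000000000 * (T ^ 2 / a) := by
        apply mul_le_mul_of_nonneg_right (by norm_num) (by positivity)
    _ = _ := by ring

/-- The first absolute moment is of the order of the standard deviation. -/
lemma first_moment (hG : Good P W U) {a : ℝ} (ha : 0 < a) (ha1 : a ≤ 1 / 50) (z : T3) {T : ℝ}
    (hT : 1 / Real.sqrt a ≤ T) :
    Real.sqrt (T / Real.sqrt a) / 200000000000 ≤ ∫ ω, |H1 W U a z T 0 ω| ∂P := by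
  have := hG.prob
  have hD := D_pos ha
  have hsa := Real.sqrt_pos.2 ha
  have hss : Real.sqrt a * Real.sqrt a = a := Real.mul_self_sqrt ha.le
  have hT1 : 1 ≤ T := (sqrt_a_bound ha (by linarith)).trans hT
  have hT0 : 0 < T := by linarith
  have m2 := second_moment hG ha ha1 z hT1
  have m4 := fourth_moment hG ha (by linarith) z hT
  obtain ⟨V, hV⟩ : ∃ V, V = T / Real.sqrt a := ⟨_, rfl⟩
  have hV0 : 0 < V := by rw [hV]; positivity
  have hV2 : T ^ 2 / a = V ^ 2 := by
    rw [hV, div_pow, Real.sq_sqrt ha.le]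
  obtain ⟨l, hl⟩ : ∃ l, l = Real.sqrt V * 9000000 := ⟨_, rfl⟩
  have hsV := Real.sqrt_pos.2 hV0
  have hl0 : 0 < l := by rw [hl]; positivity
  have hl2 : l ^ 2 = 81000000000000 * V := by
    rw [hl, mul_pow, Real.sq_sqrt hV0.le]; ring
  have hHm := H1_meas_t hG ha z T 0
  have hHb : ∀ ω, |H1 W U a z T 0 ω| ≤ 2 * D a * T := fun ω =>
    H1_bound ha z le_rfl hT0.le ω
  have i1 : Integrable (fun ω => |H1 W U a z T 0 ω|) P :=
    (Integrable.of_bound (C := 2 * D a * T) hHm.aestronglyMeasurable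
      (Filter.Eventually.of_forall hHb)).abs
  have i2 : Integrable (fun ω => H1 W U a z T 0 ω ^ 2) P := by
    refine Integrable.of_bound (C := (2 * D a * T) ^ 2) (hHm.pow_const 2).aestronglyMeasurable
      (Filter.Eventually.of_forall fun ω => ?_)
    rw [norm_pow, Real.norm_eq_abs]
    exact pow_le_pow_left₀ (abs_nonneg _) (hHb ω) 2
  have i4 : Integrable (fun ω => H1 W U a z T 0 ω ^ 4) P := by
    refine Integrable.of_bound (C := (2 * D a * T) ^ 4) (hHm.pow_const 4).aestronglyMeasurable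
      (Filter.Eventually.of_forall fun ω => ?_)
    rw [norm_pow, Real.norm_eq_abs]
    exact pow_le_pow_left₀ (abs_nonneg _) (hHb ω) 4
  have hpt : ∀ ω, H1 W U a z T 0 ω ^ 2 / l - H1 W U a z T 0 ω ^ 4 / l ^ 3
      ≤ |H1 W U a z T 0 ω| := by
    intro ω
    obtain ⟨y, hy⟩ : ∃ y, y = |H1 W U a z T 0 ω| / l := ⟨_, rfl⟩
    have hy0 : 0 ≤ y := by rw [hy]; positivity
    have e : |H1 W U a z T 0 ω| = l * y := by rw [hy]; field_simp
    have e2 : H1 W U a z T 0 ω ^ 2 = (l * y) ^ 2 := by rw [← e, sq_abs]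
    have e4 : H1 W U a z T 0 ω ^ 4 = (l * y) ^ 4 := by
      rw [← e, show |H1 W U a z T 0 ω| ^ 4 = (|H1 W U a z T 0 ω| ^ 2) ^ 2 by ring, sq_abs]; ring
    rw [e2, e4, e]
    have e5 : (l * y) ^ 2 / l - (l * y) ^ 4 / l ^ 3 = l * (y ^ 2 - y ^ 4) := by
      field_simp
    rw [e5]
    refine mul_le_mul_of_nonneg_left ?_ hl0.le
    have h3 : 0 ≤ y * (1 - y + y ^ 3) := by
      refine mul_nonneg hy0 ?_
      nlinarith [sq_nonneg (y - 1 / 2), sq_nonneg (y - 1), mul_nonneg hy0 (sq_nonneg (y - 1))]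
    nlinarith
  have hI : (∫ ω, H1 W U a z T 0 ω ^ 2 ∂P) / l - (∫ ω, H1 W U a z T 0 ω ^ 4 ∂P) / l ^ 3
      ≤ ∫ ω, |H1 W U a z T 0 ω| ∂P := by
    rw [← integral_div, ← integral_div, ← integral_sub (i2.div_const l) (i4.div_const _)]
    exact integral_mono ((i2.div_const l).sub (i4.div_const _)) i1 hpt
  refine le_trans ?_ hI
  have m2' : V / 10000 ≤ ∫ ω, H1 W U a z T 0 ω ^ 2 ∂P := by
    refine le_trans (le_of_eq ?_) m2
    rw [hV]
    field_simp
  have m4' : ∫ ω, H1 W U a z T 0 ω ^ 4 ∂P ≤ 4000000000 * V ^ 2 := by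
    rw [← hV2]
    refine m4.trans (le_of_eq ?_)
    ring
  calc Real.sqrt (T / Real.sqrt a) / 200000000000 = Real.sqrt V / 200000000000 := by rw [hV]
    _ ≤ V / 10000 / l - 4000000000 * V ^ 2 / l ^ 3 := by
        have h1 : l ^ 3 = l * (81000000000000 * V) := by rw [← hl2]; ring
        have h2 : V / l = Real.sqrt V / 9000000 := by
          rw [hl, div_eq_div_iff (by positivity) (by norm_num)]
          have := Real.mul_self_sqrt hV0.le
          linear_combination (-9000000 : ℝ) * this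
        have h3 : V / 10000 / l - 4000000000 * V ^ 2 / l ^ 3
            = (1 / 10000 - 4000000000 / 81000000000000) * (V / l) := by
          rw [h1]
          field_simp
        rw [h3, h2]
        have h4 : (1 / 200000000000 : ℝ)
            ≤ (1 / 10000 - 4000000000 / 81000000000000) * (1 / 9000000) := by norm_num
        calc Real.sqrt V / 200000000000 = Real.sqrt V * (1 / 200000000000) := by ring
          _ ≤ Real.sqrt V * ((1 / 10000 - 4000000000 / 81000000000000) * (1 / 9000000)) :=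
              mul_le_mul_of_nonneg_left h4 hsV.le
          _ = _ := by ring
    _ ≤ _ := by
        have h1 : 0 < l ^ 3 := by positivity
        have h2 : V / 10000 / l ≤ (∫ ω, H1 W U a z T 0 ω ^ 2 ∂P) / l :=
          div_le_div_of_nonneg_right m2' hl0.le
        have h3 : (∫ ω, H1 W U a z T 0 ω ^ 4 ∂P) / l ^ 3 ≤ 4000000000 * V ^ 2 / l ^ 3 :=
          div_le_div_of_nonneg_right m4' h1.le
        linarith

end

end Pool.Agent.T2H28.OT
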