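import Pool.Agent.T2H28.OT.Bounds2

/-!
# Second and fourth moments of the additive functional
-/

set_option autoImplicit false

namespace Pool.Agent.T2H28.OT

open MeasureTheory ProbabilityTheory
open scoped ENNReal NNReal

section

variable {Ω : Type} [MeasurableSpace Ω] {P : Measure Ω} {W : ℝ≥0 → Ω → (Fin 3 → ℝ)}
  {U : Ω → T3}

/-- The test function along the path. -/
noncomputable def hh (W : ℝ≥0 → Ω → (Fin 3 → ℝ)) (U : Ω → T3) (a : ℝ) (z : T3) (t : ℝ) (ω : Ω) :
    ℝ := psi a z (bb W U t ω)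

/-- The time integral from `t` to `T`. -/
noncomputable def H1 (W : ℝ≥0 → Ω → (Fin 3 → ℝ)) (U : Ω → T3) (a : ℝ) (z : T3) (T : ℝ) (t : ℝ)
    (ω : Ω) : ℝ := ∫ s in t..T, hh W U a z s ω

lemma hh_cont (hG : Good P W U) {a : ℝ} (ha : 0 < a) (z : T3) (ω : Ω) :
    Continuous fun t => hh W U a z t ω :=
  (psi_cont ha z).comp (bb_cont hG ω)

lemma hh_meas (hG : Good P W U) {a : ℝ} (ha : 0 < a) (z : T3) :
    Measurable (Function.uncurry (hh W U a z)) :=
  (psi_cont ha z).measurable.comp (bb_meas hG)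

lemma hh_meas_t (hG : Good P W U) {a : ℝ} (ha : 0 < a) (z : T3) (t : ℝ) :
    Measurable (hh W U a z t) :=
  (psi_cont ha z).measurable.comp (bb_meas_t hG t)

lemma meas_interval_integral {f : ℝ → Ω → ℝ} (hf : Measurable (Function.uncurry f)) (t T : ℝ) :
    Measurable fun ω => ∫ s in t..T, f s ω := by
  have hm : Measurable (Function.uncurry fun (ω : Ω) (s : ℝ) => f s ω) := hf.comp measurable_swap
  simp only [intervalIntegral]
  exact (hm.stronglyMeasurable.integral_prod_right
    (ν := volume.restrict (Set.Ioc t T))).measurable.sub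
    (hm.stronglyMeasurable.integral_prod_right (ν := volume.restrict (Set.Ioc T t))).measurable

omit [MeasurableSpace Ω] in
lemma hh_bound {a : ℝ} (ha : 0 < a) (z : T3) (t : ℝ) (ω : Ω) : |hh W U a z t ω| ≤ 2 * D a :=
  (abs_psi_le ha z _).trans (phi_le ha z _)

lemma H1_cont (hG : Good P W U) {a : ℝ} (ha : 0 < a) (z : T3) (T : ℝ) (ω : Ω) :
    Continuous fun t => H1 W U a z T t ω := by
  have h := hh_cont hG ha z ω
  have e : (fun t => H1 W U a z T t ω) = fun t => -∫ s in T..t, hh W U a z s ω := by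
    funext t
    unfold H1
    exact intervalIntegral.integral_symm _ _
  rw [e]
  exact (intervalIntegral.continuous_primitive (fun x y => h.intervalIntegrable x y) T).neg

lemma H1_meas (hG : Good P W U) {a : ℝ} (ha : 0 < a) (z : T3) (T : ℝ) :
    Measurable (Function.uncurry (H1 W U a z T)) := by
  refine measurable_uncurry_of_continuous_of_measurable (fun ω => H1_cont hG ha z T ω) fun t => ?_
  exact meas_interval_integral (hh_meas hG ha z) t T

lemma H1_meas_t (hG : Good P W U) {a : ℝ} (ha : 0 < a) (z : T3) (T t : ℝ) :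
    Measurable (H1 W U a z T t) :=
  (H1_meas hG ha z T).comp (measurable_const.prodMk measurable_id)

omit [MeasurableSpace Ω] in
lemma H1_bound {a : ℝ} (ha : 0 < a) (z : T3) {T t : ℝ} (ht : 0 ≤ t) (htT : t ≤ T)
    (ω : Ω) : |H1 W U a z T t ω| ≤ 2 * D a * T := by
  unfold H1
  have h := intervalIntegral.norm_integral_le_of_norm_le_const (a := t) (b := T)
    (f := fun s => hh W U a z s ω) (C := 2 * D a) (fun s _ => hh_bound ha z s ω)
  rw [Real.norm_eq_abs, abs_of_nonneg (sub_nonneg.2 htT)] at h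
  have hD := D_pos ha
  refine h.trans ?_
  exact mul_le_mul_of_nonneg_left (by linarith) (by positivity)

/-- Integrability in time of expectations. -/
lemma fub_int [IsProbabilityMeasure P] {g : ℝ → Ω → ℝ}
    (hg : Measurable (Function.uncurry g)) {M a T : ℝ} (haT : a ≤ T)
    (hgb : ∀ t ∈ Set.Ioc a T, ∀ ω, |g t ω| ≤ M) :
    IntervalIntegrable (fun t => ∫ ω, g t ω ∂P) volume a T := by
  rw [intervalIntegrable_iff_integrableOn_Ioc_of_le haT]
  refine Integrable.of_bound (C := M) ?_ ?_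
  · exact (hg.stronglyMeasurable.integral_prod_right (ν := P)).aestronglyMeasurable
  · filter_upwards [ae_restrict_mem measurableSet_Ioc] with t ht
    have := norm_integral_le_of_norm_le_const (μ := P) (C := M) (f := fun ω => g t ω)
      (Filter.Eventually.of_forall fun ω => hgb t ht ω)
    simpa using this

/-- The two time covariance. -/
lemma cov_eq (hG : Good P W U) {a : ℝ} (ha : 0 < a) (z : T3) {s t : ℝ} (hs : 0 ≤ s)
    (hst : s < t) : ∫ ω, hh W U a z s ω * hh W U a z t ω ∂P = q a (t - s) := by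
  have hm := (psi_cont ha z).measurable
  have hb : ∀ x, |psi a z x| ≤ 2 * D a := fun x => (abs_psi_le ha z x).trans (phi_le ha z x)
  have h := two hG hs hst.le hm hm hb hb
  have h2 : ∀ x, Av (t - s).toNNReal (psi a z) x
      = pk (a + (t - s)) (x - z) - pk (2 * a + (t - s)) (x - z) :=
    fun x => Av_psi ha (sub_pos.2 hst) z x
  simp only [h2] at h
  rw [q_val ha (sub_pos.2 hst) z] at h
  exact h

lemma phi_two (hG : Good P W U) {a : ℝ} (ha : 0 < a) (z : T3) {s t : ℝ} (hs : 0 ≤ s)
    (hst : s < t) :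
    ∫ ω, phi a z (bb W U s ω) * phi a z (bb W U t ω) ∂P ≤ 4 * D (2 * a + (t - s)) := by
  have hm := (phi_cont ha z).measurable
  have hb : ∀ x, |phi a z x| ≤ 2 * D a := fun x => by
    rw [abs_of_nonneg (phi_nonneg ha z x)]; exact phi_le ha z x
  have h := two hG hs hst.le hm hm hb hb
  have h2 : ∀ x, Av (t - s).toNNReal (phi a z) x
      = pk (a + (t - s)) (x - z) + pk (2 * a + (t - s)) (x - z) :=
    fun x => Av_phi ha (sub_pos.2 hst) z x
  simp only [h2] at h
  rw [h]
  exact phi_val ha (sub_pos.2 hst) z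

/-- The second moment. -/
lemma second_moment (hG : Good P W U) {a : ℝ} (ha : 0 < a) (ha1 : a ≤ 1 / 50) (z : T3) {T : ℝ}
    (hT : 1 ≤ T) : T / (10000 * Real.sqrt a) ≤ ∫ ω, H1 W U a z T 0 ω ^ 2 ∂P := by
  have := hG.prob
  have hT0 : 0 ≤ T := by linarith
  have hD := D_pos ha
  have hsa := Real.sqrt_pos.2 ha
  have e1 : ∀ ω, H1 W U a z T 0 ω ^ 2
      = 1 * (∫ s in (0 : ℝ)..T, 2 * (hh W U a z s ω * H1 W U a z T s ω)) := by
    intro ω
    have h := pow_integral (hh_cont hG ha z ω) 1 0 T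
    simp only [pow_one] at h
    rw [one_mul, intervalIntegral.integral_const_mul]
    have h2 : ((1 : ℕ) : ℝ) + 1 = 2 := by norm_num
    rw [h2] at h
    exact h
  have hgm : Measurable (Function.uncurry fun (s : ℝ) (ω : Ω) =>
      2 * (hh W U a z s ω * H1 W U a z T s ω)) :=
    ((hh_meas hG ha z).mul (H1_meas hG ha z T)).const_mul 2
  have hgb : ∀ t ∈ Set.Ioc 0 T, ∀ ω, |2 * (hh W U a z t ω * H1 W U a z T t ω)|
      ≤ 2 * (2 * D a * (2 * D a * T)) := by
    intro t ht ω
    rw [abs_mul, abs_mul, abs_two]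
    refine mul_le_mul_of_nonneg_left ?_ (by norm_num)
    exact mul_le_mul (hh_bound ha z t ω) (H1_bound ha z ht.1.le ht.2 ω) (abs_nonneg _)
      (by positivity)
  have e2 : ∫ ω, H1 W U a z T 0 ω ^ 2 ∂P
      = ∫ s in (0 : ℝ)..T, (∫ ω, 2 * (hh W U a z s ω * H1 W U a z T s ω) ∂P) := by
    simp only [e1]
    rw [fub (P := P) (c := fun _ => 1) measurable_const (K := 1) (by simp) hgm hT0 hgb]
    simp
  have e3 : ∀ s ∈ Set.Icc 0 T, ∫ ω, 2 * (hh W U a z s ω * H1 W U a z T s ω) ∂P
      = 2 * ∫ u in (0 : ℝ)..(T - s), q a u := by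
    intro s hs
    rw [integral_const_mul]
    congr 1
    have h1 := fub (P := P) (c := hh W U a z s) (hh_meas_t hG ha z s) (K := 2 * D a)
      (fun ω => hh_bound ha z s ω) (hh_meas hG ha z) (M := 2 * D a) hs.2
      (fun t _ ω => hh_bound ha z t ω)
    unfold H1
    rw [h1, intervalIntegral.integral_of_le hs.2]
    have h2 : ∫ t in Set.Ioc s T, (∫ ω, hh W U a z s ω * hh W U a z t ω ∂P)
        = ∫ t in Set.Ioc s T, q a (t - s) :=
      setIntegral_congr_fun measurableSet_Ioc fun t ht => cov_eq hG ha z hs.1 ht.1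
    rw [h2, ← intervalIntegral.integral_of_le hs.2]
    have h3 := intervalIntegral.integral_comp_sub_right (a := s) (b := T) (q a) s
    rw [h3, sub_self]
  have hnn : ∀ S : ℝ, 0 ≤ S → 0 ≤ ∫ u in (0 : ℝ)..S, q a u := by
    intro S hS
    apply intervalIntegral.integral_nonneg hS
    intro u hu
    exact q_nonneg ha hu.1
  have hii : IntervalIntegrable
      (fun s => ∫ ω, 2 * (hh W U a z s ω * H1 W U a z T s ω) ∂P) volume 0 T :=
    fub_int hgm hT0 hgb
  have hT2 : 0 ≤ T / 2 := by linarith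
  have hi1 : IntervalIntegrable
      (fun s => ∫ ω, 2 * (hh W U a z s ω * H1 W U a z T s ω) ∂P) volume 0 (T / 2) := by
    refine hii.mono_set ?_
    rw [Set.uIcc_of_le hT2, Set.uIcc_of_le hT0]
    exact Set.Icc_subset_Icc le_rfl (by linarith)
  have hi2 : IntervalIntegrable
      (fun s => ∫ ω, 2 * (hh W U a z s ω * H1 W U a z T s ω) ∂P) volume (T / 2) T := by
    refine hii.mono_set ?_
    rw [Set.uIcc_of_le (by linarith : T / 2 ≤ T), Set.uIcc_of_le hT0]
    exact Set.Icc_subset_Icc hT2 le_rfl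
  rw [e2, ← intervalIntegral.integral_add_adjacent_intervals hi1 hi2]
  have h4 : 0 ≤ ∫ s in (T / 2)..T, (∫ ω, 2 * (hh W U a z s ω * H1 W U a z T s ω) ∂P) := by
    apply intervalIntegral.integral_nonneg (by linarith)
    intro s hs
    rw [e3 s ⟨by linarith [hs.1], hs.2⟩]
    have := hnn (T - s) (by linarith [hs.2])
    linarith
  have h5 : T / (10000 * Real.sqrt a)
      ≤ ∫ s in (0 : ℝ)..(T / 2), (∫ ω, 2 * (hh W U a z s ω * H1 W U a z T s ω) ∂P) := by
    calc T / (10000 * Real.sqrt a) = ∫ _s in (0 : ℝ)..(T / 2), 2 * (1 / (10000 * Real.sqrt a)) := by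
          rw [intervalIntegral.integral_const, smul_eq_mul]
          ring
      _ ≤ _ := by
          apply intervalIntegral.integral_mono_on hT2 intervalIntegrable_const hi1
          intro s hs
          rw [e3 s ⟨hs.1, by linarith [hs.2]⟩]
          have := q_int_lower ha ha1 (S := T - s) (by linarith [hs.2])
          linarith
  linarith

/-- The four point integral, after one time integration. -/
lemma R_eq (hG : Good P W U) {a : ℝ} (ha : 0 < a) (z : T3) {T t1 t2 t3 : ℝ} (h0 : 0 ≤ t1)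
    (h12 : t1 < t2) (h23 : t2 < t3) (h3T : t3 ≤ T) :
    ∫ ω, (hh W U a z t1 ω * (hh W U a z t2 ω * hh W U a z t3 ω)) * H1 W U a z T t3 ω ∂P
      = ∫ ω, psi a z (bb W U t1 ω) * (psi a z (bb W U t2 ω) *
          (psi a z (bb W U t3 ω) * pot a z (T - t3) (bb W U t3 ω))) ∂P := by
  have := hG.prob
  have hD := D_pos ha
  have hm := (psi_cont ha z).measurable
  have hb : ∀ x, |psi a z x| ≤ 2 * D a := fun x => (abs_psi_le ha z x).trans (phi_le ha z x)
  have cm : Measurable fun ω => hh W U a z t1 ω * (hh W U a z t2 ω * hh W U a z t3 ω) :=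
    (hh_meas_t hG ha z t1).mul ((hh_meas_t hG ha z t2).mul (hh_meas_t hG ha z t3))
  have cb : ∀ ω, |hh W U a z t1 ω * (hh W U a z t2 ω * hh W U a z t3 ω)|
      ≤ 2 * D a * (2 * D a * (2 * D a)) := by
    intro ω
    rw [abs_mul, abs_mul]
    exact mul_le_mul (hh_bound ha z _ ω) (mul_le_mul (hh_bound ha z _ ω) (hh_bound ha z _ ω)
      (abs_nonneg _) (by positivity)) (by positivity) (by positivity)
  have h1 := fub (P := P) cm cb (hh_meas hG ha z) (M := 2 * D a) h3T
    (fun t _ ω => hh_bound ha z t ω)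
  have gm : Measurable (Function.uncurry fun (t : ℝ) (ω : Ω) => dk a z (t - t3) (bb W U t3 ω)) := by
    have e : Measurable fun p : ℝ × Ω => ((p.1 - t3, bb W U t3 p.2) : ℝ × T3) :=
      (measurable_fst.sub measurable_const).prodMk ((bb_meas_t hG t3).comp measurable_snd)
    exact Measurable.comp (g := fun p : ℝ × T3 => dk a z p.1 p.2)
      (f := fun p : ℝ × Ω => ((p.1 - t3, bb W U t3 p.2) : ℝ × T3)) (dk_joint ha z).measurable e
  have h2 := fub (P := P) cm cb gm (M := 2 * D a) h3T (fun t _ ω => dk_bound ha z _ _)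
  have h3 : ∫ t in t3..T, (∫ ω, (hh W U a z t1 ω * (hh W U a z t2 ω * hh W U a z t3 ω))
        * hh W U a z t ω ∂P)
      = ∫ t in t3..T, (∫ ω, (hh W U a z t1 ω * (hh W U a z t2 ω * hh W U a z t3 ω))
        * dk a z (t - t3) (bb W U t3 ω) ∂P) := by
    rw [intervalIntegral.integral_of_le h3T, intervalIntegral.integral_of_le h3T]
    refine setIntegral_congr_fun measurableSet_Ioc fun t ht => ?_
    have h4 := markov4 hG h0 h12.le h23.le ht.1.le hm hm hm hm hb hb hb hb
    have h5 : ∀ x, Av (t - t3).toNNReal (psi a z) x = dk a z (t - t3) x := by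
      intro x
      rw [Av_psi ha (sub_pos.2 ht.1), dk_eq z (sub_nonneg.2 ht.1.le)]
    simp only [h5] at h4
    have e1 : ∀ ω, (hh W U a z t1 ω * (hh W U a z t2 ω * hh W U a z t3 ω)) * hh W U a z t ω
        = psi a z (bb W U t1 ω) * (psi a z (bb W U t2 ω) * (psi a z (bb W U t3 ω) *
          psi a z (bb W U t ω))) := by
      intro ω; unfold hh; ring
    have e2 : ∀ ω, (hh W U a z t1 ω * (hh W U a z t2 ω * hh W U a z t3 ω))
          * dk a z (t - t3) (bb W U t3 ω)
        = psi a z (bb W U t1 ω) * (psi a z (bb W U t2 ω) * (psi a z (bb W U t3 ω) *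
          dk a z (t - t3) (bb W U t3 ω))) := by
      intro ω; unfold hh; ring
    show ∫ ω, (hh W U a z t1 ω * (hh W U a z t2 ω * hh W U a z t3 ω)) * hh W U a z t ω ∂P
      = ∫ ω, (hh W U a z t1 ω * (hh W U a z t2 ω * hh W U a z t3 ω))
          * dk a z (t - t3) (bb W U t3 ω) ∂P
    simp only [e1, e2]
    exact h4
  unfold H1
  rw [h1, h3, ← h2]
  refine integral_congr_ae (Filter.Eventually.of_forall fun ω => ?_)
  have h6 : ∫ t in t3..T, dk a z (t - t3) (bb W U t3 ω) = pot a z (T - t3) (bb W U t3 ω) := by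
    have := intervalIntegral.integral_comp_sub_right (a := t3) (b := T)
      (fun s => dk a z s (bb W U t3 ω)) t3
    rw [this, sub_self]
    rfl
  show (hh W U a z t1 ω * (hh W U a z t2 ω * hh W U a z t3 ω))
      * (∫ t in t3..T, dk a z (t - t3) (bb W U t3 ω)) = _
  rw [h6]
  unfold hh
  ring

/-- The bound for the three times integral. -/
lemma R_bound (hG : Good P W U) {a : ℝ} (ha : 0 < a) (ha1 : a ≤ 1) (z : T3) {T t1 t2 t3 : ℝ}
    (h0 : 0 ≤ t1) (h12 : t1 < t2) (h23 : t2 < t3) (h3T : t3 ≤ T) :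
    ∫ ω, (hh W U a z t1 ω * (hh W U a z t2 ω * hh W U a z t3 ω)) * H1 W U a z T t3 ω ∂P
      ≤ a * D (2 * a) * q a (t2 - t1)
        + a * D a * eb a (t3 - t2) * (4 * D (2 * a + (t2 - t1))) := by
  have := hG.prob
  have := prob_T3
  have hD := D_pos ha
  have hm := (psi_cont ha z).measurable
  have hb : ∀ x, |psi a z x| ≤ 2 * D a := fun x => (abs_psi_le ha z x).trans (phi_le ha z x)
  obtain ⟨G, hGd⟩ : ∃ G : T3 → ℝ, G = fun x => psi a z x * pot a z (T - t3) x := ⟨_, rfl⟩
  have hS : 0 ≤ T - t3 := sub_nonneg.2 h3T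
  have Gc : Continuous G := by rw [hGd]; exact (psi_cont ha z).mul (pot_cont ha z _)
  have Gb : ∀ x, |G x| ≤ a * D a * phi a z x := by
    intro x
    rw [hGd]
    simp only
    rw [abs_mul, mul_comm]
    exact mul_le_mul (pot_bound ha z hS x) (abs_psi_le ha z x) (abs_nonneg _) (by positivity)
  have Gb2 : ∀ x, |G x| ≤ max (2 * D a) (a * D a * (2 * D a)) := fun x =>
    (Gb x).trans ((mul_le_mul_of_nonneg_left (phi_le ha z x) (by positivity)).trans
      (le_max_right _ _))
  have hb2 : ∀ x, |psi a z x| ≤ max (2 * D a) (a * D a * (2 * D a)) := fun x =>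
    (hb x).trans (le_max_left _ _)
  rw [R_eq hG ha z h0 h12 h23 h3T]
  have h1 := markov3 hG h0 h12.le h23.le hm hm Gc.measurable hb2 hb2 Gb2
  have h1' : ∫ ω, psi a z (bb W U t1 ω) * (psi a z (bb W U t2 ω) *
          (psi a z (bb W U t3 ω) * pot a z (T - t3) (bb W U t3 ω))) ∂P
      = ∫ ω, psi a z (bb W U t1 ω) * (psi a z (bb W U t2 ω) *
          Av (t3 - t2).toNNReal G (bb W U t2 ω)) ∂P := by
    rw [← h1, hGd]
  rw [h1']
  obtain ⟨m, hmd⟩ : ∃ m, m = ∫ y, G y := ⟨_, rfl⟩
  have hm0 : 0 ≤ m ∧ m ≤ a * D (2 * a) := by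
    have e : m = ∫ s in (0 : ℝ)..(T - t3), q a s := by rw [hmd, hGd]; exact psi_pot ha z hS
    rw [e]
    refine ⟨?_, q_integral ha hS⟩
    apply intervalIntegral.integral_nonneg hS
    intro u hu
    exact q_nonneg ha hu.1
  have hfl : ∀ x, |Av (t3 - t2).toNNReal G x - m| ≤ a * D a * eb a (t3 - t2) := by
    intro x
    rw [hmd]
    refine (fluct ha (sub_pos.2 h23) z Gc.measurable Gb x).trans ?_
    exact mul_le_mul_of_nonneg_left (ee_le ha ha1 (sub_pos.2 h23)) (by positivity)
  have hcov := cov_eq hG ha z h0 h12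
  have hphi := phi_two hG ha z h0 h12
  have b1m := bb_meas_t hG t1
  have b2m := bb_meas_t hG t2
  have hpm := (phi_cont ha z).measurable
  have i1 : Integrable (fun ω => m * (hh W U a z t1 ω * hh W U a z t2 ω)) P := by
    have j0 : Measurable fun ω => hh W U a z t1 ω * hh W U a z t2 ω :=
      (hh_meas_t hG ha z t1).mul (hh_meas_t hG ha z t2)
    have j1 : Integrable (fun ω => hh W U a z t1 ω * hh W U a z t2 ω) P := by
      refine Integrable.of_bound (C := 2 * D a * (2 * D a)) j0.aestronglyMeasurable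
        (Filter.Eventually.of_forall fun ω => ?_)
      rw [norm_mul, Real.norm_eq_abs, Real.norm_eq_abs]
      exact mul_le_mul (hh_bound ha z _ ω) (hh_bound ha z _ ω) (abs_nonneg _) (by positivity)
    exact j1.const_mul m
  have i2 : Integrable (fun ω => a * D a * eb a (t3 - t2)
      * (phi a z (bb W U t1 ω) * phi a z (bb W U t2 ω))) P := by
    have j0 : Measurable fun ω => phi a z (bb W U t1 ω) * phi a z (bb W U t2 ω) :=
      (hpm.comp b1m).mul (hpm.comp b2m)
    have j1 : Integrable (fun ω => phi a z (bb W U t1 ω) * phi a z (bb W U t2 ω)) P := by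
      refine Integrable.of_bound (C := 2 * D a * (2 * D a)) j0.aestronglyMeasurable
        (Filter.Eventually.of_forall fun ω => ?_)
      rw [norm_mul, Real.norm_eq_abs, Real.norm_eq_abs, abs_of_nonneg (phi_nonneg ha z _),
        abs_of_nonneg (phi_nonneg ha z _)]
      exact mul_le_mul (phi_le ha z _) (phi_le ha z _) (phi_nonneg ha z _) (by positivity)
    exact j1.const_mul _
  have i3 : Integrable (fun ω => psi a z (bb W U t1 ω) * (psi a z (bb W U t2 ω) *
          Av (t3 - t2).toNNReal G (bb W U t2 ω))) P := by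
    refine Integrable.of_bound (C := 2 * D a * (2 * D a * max (2 * D a) (a * D a * (2 * D a)))) ?_
      (Filter.Eventually.of_forall fun ω => ?_)
    · exact ((hm.comp b1m).mul ((hm.comp b2m).mul
        ((Av_measurable _ Gc.measurable).comp b2m))).aestronglyMeasurable
    · rw [norm_mul, norm_mul, Real.norm_eq_abs, Real.norm_eq_abs, Real.norm_eq_abs]
      exact mul_le_mul (hb _) (mul_le_mul (hb _) (Av_abs_le _ Gb2 _) (abs_nonneg _)
        (by positivity)) (by positivity) (by positivity)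
  have hpt : ∀ ω, psi a z (bb W U t1 ω) * (psi a z (bb W U t2 ω) *
          Av (t3 - t2).toNNReal G (bb W U t2 ω))
      ≤ m * (hh W U a z t1 ω * hh W U a z t2 ω) + a * D a * eb a (t3 - t2)
        * (phi a z (bb W U t1 ω) * phi a z (bb W U t2 ω)) := by
    intro ω
    have e : psi a z (bb W U t1 ω) * (psi a z (bb W U t2 ω) *
          Av (t3 - t2).toNNReal G (bb W U t2 ω))
        = m * (hh W U a z t1 ω * hh W U a z t2 ω)
          + psi a z (bb W U t1 ω) * psi a z (bb W U t2 ω)
            * (Av (t3 - t2).toNNReal G (bb W U t2 ω) - m) := by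
      unfold hh; ring
    rw [e]
    have e2 : psi a z (bb W U t1 ω) * psi a z (bb W U t2 ω)
        * (Av (t3 - t2).toNNReal G (bb W U t2 ω) - m)
        ≤ a * D a * eb a (t3 - t2) * (phi a z (bb W U t1 ω) * phi a z (bb W U t2 ω)) := by
      refine (le_abs_self _).trans ?_
      rw [abs_mul, abs_mul, mul_comm]
      exact mul_le_mul (hfl _) (mul_le_mul (abs_psi_le ha z _) (abs_psi_le ha z _) (abs_nonneg _)
        (phi_nonneg ha z _)) (by positivity) ((abs_nonneg _).trans (hfl 0))
    linarith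
  calc _ ≤ ∫ ω, (m * (hh W U a z t1 ω * hh W U a z t2 ω) + a * D a * eb a (t3 - t2)
        * (phi a z (bb W U t1 ω) * phi a z (bb W U t2 ω))) ∂P :=
        integral_mono i3 (i1.add i2) hpt
    _ = m * q a (t2 - t1) + a * D a * eb a (t3 - t2)
        * ∫ ω, phi a z (bb W U t1 ω) * phi a z (bb W U t2 ω) ∂P := by
        rw [integral_add i1 i2, integral_const_mul, integral_const_mul, hcov]
    _ ≤ _ := by
        have hq := q_nonneg ha (sub_pos.2 h12).le
        have he : 0 ≤ a * D a * eb a (t3 - t2) := (abs_nonneg _).trans (hfl 0)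
        gcongr
        exact hm0.2

end

end Pool.Agent.T2H28.OT
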