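import Pool.Agent.T2H28.OT.Process

/-!
# Time integrals along the path
-/

set_option autoImplicit false

namespace Pool.Agent.T2H28.OT

open MeasureTheory ProbabilityTheory
open scoped ENNReal NNReal

/-- Powers of a time integral. -/
lemma pow_integral {h : ℝ → ℝ} (hh : Continuous h) (k : ℕ) (t T : ℝ) :
    (∫ s in t..T, h s) ^ (k + 1) = (k + 1) * ∫ s in t..T, h s * (∫ u in s..T, h u) ^ k := by
  have hd : ∀ s : ℝ, HasDerivAt (fun s => ∫ u in s..T, h u) (-(h s)) s := by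
    intro s
    exact intervalIntegral.integral_hasDerivAt_left (hh.intervalIntegrable _ _)
      (hh.stronglyMeasurableAtFilter _ _) hh.continuousAt
  have hc : Continuous fun s => ∫ u in s..T, h u := by
    rw [continuous_iff_continuousAt]
    intro s
    exact (hd s).continuousAt
  have h1 : ∀ s ∈ Set.uIcc t T, HasDerivAt (fun s => -(∫ u in s..T, h u) ^ (k + 1))
      ((k + 1) * (h s * (∫ u in s..T, h u) ^ k)) s := by
    intro s _
    have h3 := ((hd s).pow (k + 1)).neg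
    have h4 : -(((k + 1 : ℕ) : ℝ) * (∫ u in s..T, h u) ^ (k + 1 - 1) * -(h s))
        = (k + 1) * (h s * (∫ u in s..T, h u) ^ k) := by
      push_cast
      ring
    rw [h4] at h3
    exact h3
  have h2 := intervalIntegral.integral_eq_sub_of_hasDerivAt h1
    ((continuous_const.mul (hh.mul (hc.pow k))).intervalIntegrable _ _)
  rw [intervalIntegral.integral_const_mul] at h2
  rw [h2]
  simp

section

variable {Ω : Type} [MeasurableSpace Ω] {P : Measure Ω} {W : ℝ≥0 → Ω → (Fin 3 → ℝ)}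
  {U : Ω → T3}

/-- All assumptions on the driving data. -/
structure Good (P : Measure Ω) (W : ℝ≥0 → Ω → (Fin 3 → ℝ)) (U : Ω → T3) : Prop where
  prob : IsProbabilityMeasure P
  bm : IsBM3 P W
  mU : Measurable U
  lU : P.map U = volume
  ind : IndepFun U (fun ω t => W t ω) P

/-- The process indexed by real times. -/
noncomputable def bb (W : ℝ≥0 → Ω → (Fin 3 → ℝ)) (U : Ω → T3) (t : ℝ) (ω : Ω) : T3 :=
  U ω + prj (W t.toNNReal ω)

lemma bb_cont (hG : Good P W U) (ω : Ω) : Continuous fun t => bb W U t ω := by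
  unfold bb
  exact continuous_const.add
    (prj_continuous.comp ((hG.bm.continuous ω).comp continuous_real_toNNReal))

lemma bb_meas_t (hG : Good P W U) (t : ℝ) : Measurable (bb W U t) := by
  unfold bb
  exact hG.mU.add (prj_measurable.comp (hG.bm.measurable _))

lemma bb_meas (hG : Good P W U) : Measurable (Function.uncurry (bb W U)) :=
  measurable_uncurry_of_continuous_of_measurable (fun ω => bb_cont hG ω) (bb_meas_t hG)

/-- The four point function for real times. -/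
lemma four (hG : Good P W U) {t1 t2 t3 t4 : ℝ} (h0 : 0 ≤ t1) (h12 : t1 ≤ t2) (h23 : t2 ≤ t3)
    (h34 : t3 ≤ t4) {F1 F2 F3 F4 : T3 → ℝ}
    (m1 : Measurable F1) (m2 : Measurable F2) (m3 : Measurable F3) (m4 : Measurable F4) {C : ℝ}
    (b1 : ∀ x, |F1 x| ≤ C) (b2 : ∀ x, |F2 x| ≤ C) (b3 : ∀ x, |F3 x| ≤ C)
    (b4 : ∀ x, |F4 x| ≤ C) :
    ∫ ω, F1 (bb W U t1 ω) * (F2 (bb W U t2 ω) * (F3 (bb W U t3 ω) * F4 (bb W U t4 ω))) ∂P
      = ∫ x, F1 x * Av (t2 - t1).toNNReal (fun x => F2 x * Av (t3 - t2).toNNReal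
          (fun x => F3 x * Av (t4 - t3).toNNReal F4 x) x) x := by
  have := hG.prob
  have h := four_point hG.bm hG.mU hG.lU hG.ind (t1 := t1.toNNReal) (t2 := t2.toNNReal)
    (t3 := t3.toNNReal) (t4 := t4.toNNReal) (Real.toNNReal_le_toNNReal h12)
    (Real.toNNReal_le_toNNReal h23) (Real.toNNReal_le_toNNReal h34) m1 m2 m3 m4 b1 b2 b3 b4
  have e : ∀ s t : ℝ, 0 ≤ s → t.toNNReal - s.toNNReal = (t - s).toNNReal := by
    intro s t hs
    apply NNReal.eq
    rcases le_total s t with h | h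
    · rw [NNReal.coe_sub (Real.toNNReal_le_toNNReal h), Real.coe_toNNReal _ (hs.trans h),
        Real.coe_toNNReal _ hs, Real.coe_toNNReal _ (sub_nonneg.2 h)]
    · rw [Real.toNNReal_of_nonpos (sub_nonpos.2 h),
        tsub_eq_zero_of_le (Real.toNNReal_le_toNNReal h)]
  rw [e _ _ h0, e _ _ (h0.trans h12), e _ _ ((h0.trans h12).trans h23)] at h
  exact h

/-- Averaging with time zero does nothing on integrals of bounded functions: three points. -/
lemma Av_const (s : ℝ≥0) (c : ℝ) (x : T3) : Av s (fun _ => c) x = c := by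
  unfold Av; simp

/-- The Markov property in four point form. -/
lemma markov4 (hG : Good P W U) {t1 t2 t3 t4 : ℝ} (h0 : 0 ≤ t1) (h12 : t1 ≤ t2) (h23 : t2 ≤ t3)
    (h34 : t3 ≤ t4) {F1 F2 F3 F4 : T3 → ℝ}
    (m1 : Measurable F1) (m2 : Measurable F2) (m3 : Measurable F3) (m4 : Measurable F4) {C : ℝ}
    (b1 : ∀ x, |F1 x| ≤ C) (b2 : ∀ x, |F2 x| ≤ C) (b3 : ∀ x, |F3 x| ≤ C)
    (b4 : ∀ x, |F4 x| ≤ C) :
    ∫ ω, F1 (bb W U t1 ω) * (F2 (bb W U t2 ω) * (F3 (bb W U t3 ω) * F4 (bb W U t4 ω))) ∂P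
      = ∫ ω, F1 (bb W U t1 ω) * (F2 (bb W U t2 ω) * (F3 (bb W U t3 ω) *
          Av (t4 - t3).toNNReal F4 (bb W U t3 ω))) ∂P := by
  have hC : 0 ≤ C := (abs_nonneg _).trans (b3 0)
  rw [four hG h0 h12 h23 h34 m1 m2 m3 m4 b1 b2 b3 b4]
  have hb3 : ∀ x, |F3 x * Av (t4 - t3).toNNReal F4 x| ≤ C * C := fun x => by
    rw [abs_mul]; exact mul_le_mul (b3 _) (Av_abs_le _ b4 _) (abs_nonneg _) hC
  have hmax : ∀ {y : ℝ}, |y| ≤ C → |y| ≤ max C (max (C * C) 1) :=
    fun h => h.trans (le_max_left _ _)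
  have h := four hG h0 h12 h23 (le_refl t3) m1 m2 (m3.mul (Av_measurable (t4 - t3).toNNReal m4))
    (measurable_const (a := (1 : ℝ))) (C := max C (max (C * C) 1)) (fun x => hmax (b1 x))
    (fun x => hmax (b2 x))
    (fun x => (hb3 x).trans ((le_max_left _ _).trans (le_max_right _ _)))
    (fun x => by rw [abs_one]; exact (le_max_right _ _).trans (le_max_right _ _))
  simp only [mul_one, Av_const] at h
  exact h.symm

/-- The Markov property in three point form. -/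
lemma markov3 (hG : Good P W U) {t1 t2 t3 : ℝ} (h0 : 0 ≤ t1) (h12 : t1 ≤ t2) (h23 : t2 ≤ t3)
    {F1 F2 F3 : T3 → ℝ}
    (m1 : Measurable F1) (m2 : Measurable F2) (m3 : Measurable F3) {C : ℝ}
    (b1 : ∀ x, |F1 x| ≤ C) (b2 : ∀ x, |F2 x| ≤ C) (b3 : ∀ x, |F3 x| ≤ C) :
    ∫ ω, F1 (bb W U t1 ω) * (F2 (bb W U t2 ω) * F3 (bb W U t3 ω)) ∂P
      = ∫ ω, F1 (bb W U t1 ω) * (F2 (bb W U t2 ω) *
          Av (t3 - t2).toNNReal F3 (bb W U t2 ω)) ∂P := by
  have hmax : ∀ {y : ℝ}, |y| ≤ C → |y| ≤ max C 1 := fun h => h.trans (le_max_left _ _)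
  have h := markov4 hG h0 (le_refl t1) h12 h23 m1 (measurable_const (a := (1 : ℝ))) m2 m3
    (C := max C 1) (fun x => hmax (b1 x))
    (fun x => by rw [abs_one]; exact le_max_right _ _) (fun x => hmax (b2 x))
    (fun x => hmax (b3 x))
  simpa only [one_mul] using h

/-- The two point function. -/
lemma two (hG : Good P W U) {t1 t2 : ℝ} (h0 : 0 ≤ t1) (h12 : t1 ≤ t2)
    {F1 F2 : T3 → ℝ} (m1 : Measurable F1) (m2 : Measurable F2) {C : ℝ}
    (b1 : ∀ x, |F1 x| ≤ C) (b2 : ∀ x, |F2 x| ≤ C) :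
    ∫ ω, F1 (bb W U t1 ω) * F2 (bb W U t2 ω) ∂P
      = ∫ x, F1 x * Av (t2 - t1).toNNReal F2 x := by
  have hmax : ∀ {y : ℝ}, |y| ≤ C → |y| ≤ max C 1 := fun h => h.trans (le_max_left _ _)
  have h := four hG h0 h12 (le_refl t2) (le_refl t2) m1 m2 (measurable_const (a := (1 : ℝ)))
    (measurable_const (a := (1 : ℝ))) (C := max C 1) (fun x => hmax (b1 x))
    (fun x => hmax (b2 x)) (fun x => by rw [abs_one]; exact le_max_right _ _)
    (fun x => by rw [abs_one]; exact le_max_right _ _)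
  simpa only [mul_one, Av_const] using h

/-- Exchange of expectation and time integral. -/
lemma fub [IsProbabilityMeasure P] {c : Ω → ℝ} (hc : Measurable c) {K : ℝ}
    (hcb : ∀ ω, |c ω| ≤ K) {g : ℝ → Ω → ℝ}
    (hg : Measurable (Function.uncurry g)) {M a T : ℝ} (haT : a ≤ T)
    (hgb : ∀ t ∈ Set.Ioc a T, ∀ ω, |g t ω| ≤ M) :
    ∫ ω, c ω * (∫ t in a..T, g t ω) ∂P = ∫ t in a..T, (∫ ω, c ω * g t ω ∂P) := by
  have h1 : ∀ ω, (c ω * ∫ t in a..T, g t ω) = ∫ t in Set.Ioc a T, c ω * g t ω := by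
    intro ω
    rw [intervalIntegral.integral_of_le haT, integral_const_mul]
  simp only [h1]
  rw [intervalIntegral.integral_of_le haT]
  rw [integral_integral_swap]
  have hm : Measurable (Function.uncurry fun (ω : Ω) (t : ℝ) => c ω * g t ω) :=
    (hc.comp measurable_fst).mul (hg.comp measurable_swap)
  refine Integrable.of_bound (C := K * M) hm.aestronglyMeasurable ?_
  have h2 : ∀ᵐ x : Ω × ℝ ∂(P.prod (volume.restrict (Set.Ioc a T))), x.2 ∈ Set.Ioc a T := by
    have h3 : MeasurableSet {x : Ω × ℝ | x.2 ∈ Set.Ioc a T} :=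
      measurable_snd measurableSet_Ioc
    rw [Measure.ae_prod_iff_ae_ae h3]
    exact Filter.Eventually.of_forall fun ω => ae_restrict_mem measurableSet_Ioc
  filter_upwards [h2] with x hx
  have hK : 0 ≤ K := (abs_nonneg _).trans (hcb x.1)
  simp only [Function.uncurry]
  rw [norm_mul, Real.norm_eq_abs, Real.norm_eq_abs]
  exact mul_le_mul (hcb x.1) (hgb x.2 hx x.1) (abs_nonneg _) hK

end

end Pool.Agent.T2H28.OT
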