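import Pool.Agent.T2H28.OT.Shift

/-!
# Stationary Brownian motion on the torus: finite dimensional distributions
-/

set_option autoImplicit false

namespace Pool.Agent.T2H28.OT

open MeasureTheory ProbabilityTheory
open scoped ENNReal NNReal

/-- `W` is a standard Brownian motion in `ℝ^3` started at the origin: continuous paths,
independent increments, and `W_t - W_s` is centred Gaussian with covariance `(t - s) I`. -/
structure IsBM3 {Ω : Type} [MeasurableSpace Ω] (P : Measure Ω) (W : ℝ≥0 → Ω → (Fin 3 → ℝ)) :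
    Prop where
  measurable : ∀ t, Measurable (W t)
  continuous : ∀ ω, Continuous fun t => W t ω
  start : ∀ ω, W 0 ω = 0
  incr : HasIndepIncrements W P
  law : ∀ s t, s ≤ t → P.map (fun ω => W t ω - W s ω) = Measure.pi fun _ => gaussianReal 0 (t - s)

/-- The process `B` is a stationary Brownian motion on the torus: the projection of a standard
Brownian motion in `ℝ^3`, started at an independent uniform point of the torus. -/
def IsStatBM {Ω : Type} [MeasurableSpace Ω] (P : Measure Ω) (B : ℝ≥0 → Ω → T3) : Prop :=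
  ∃ (W : ℝ≥0 → Ω → (Fin 3 → ℝ)) (U : Ω → T3), IsBM3 P W ∧ Measurable U ∧ P.map U = volume ∧
    IndepFun U (fun ω t => W t ω) P ∧ ∀ t ω, B t ω = U ω + prj (W t ω)

/-- Averaging against the Gaussian law. -/
noncomputable def Av (s : ℝ≥0) (F : T3 → ℝ) (x : T3) : ℝ := ∫ y, F (x + prj y) ∂(gau s)

lemma Av_measurable (s : ℝ≥0) {F : T3 → ℝ} (hF : Measurable F) : Measurable (Av s F) := by
  unfold Av
  have : Measurable (Function.uncurry fun (x : T3) (y : Fin 3 → ℝ) => F (x + prj y)) :=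
    hF.comp (measurable_fst.add (prj_measurable.comp measurable_snd))
  exact this.stronglyMeasurable.integral_prod_right.measurable

lemma Av_abs_le (s : ℝ≥0) {F : T3 → ℝ} {C : ℝ} (hF : ∀ x, |F x| ≤ C) (x : T3) :
    |Av s F x| ≤ C := by
  unfold Av
  have := norm_integral_le_of_norm_le_const (μ := gau s) (C := C)
    (f := fun y => F (x + prj y)) (Filter.Eventually.of_forall fun y => hF _)
  simpa using this

/-- One step of peeling a product measure on `Fin (n + 1) → E`. -/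
lemma integral_pi_succ {E : Type} [MeasurableSpace E] (n : ℕ) (μ : Fin (n + 1) → Measure E)
    [∀ i, IsProbabilityMeasure (μ i)] {f : (Fin (n + 1) → E) → ℝ} (hf : Measurable f) {C : ℝ}
    (hC : ∀ z, |f z| ≤ C) :
    ∫ z, f z ∂(Measure.pi μ)
      = ∫ a, ∫ z : Fin n → E, f (Fin.cons a z) ∂(Measure.pi fun i => μ i.succ) ∂(μ 0) := by
  have hmp := measurePreserving_piFinSuccAbove μ 0
  have h1 := (hmp.symm).integral_comp' (g := f)
  rw [← h1]
  have hi : Integrable (fun x : E × (Fin n → E) =>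
      f ((MeasurableEquiv.piFinSuccAbove (fun _ => E) 0).symm x))
      ((μ 0).prod (Measure.pi fun j => μ (Fin.succAbove 0 j))) := by
    refine Integrable.of_bound (C := C) ?_ (Filter.Eventually.of_forall fun x => hC _)
    exact (hf.comp (MeasurableEquiv.measurable _)).aestronglyMeasurable
  rw [integral_prod _ hi]
  simp only [MeasurableEquiv.piFinSuccAbove, MeasurableEquiv.symm_mk, MeasurableEquiv.coe_mk,
    Fin.insertNthEquiv, Equiv.symm_symm, Equiv.coe_fn_mk, Fin.insertNth_zero', Fin.zero_succAbove]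

lemma integral_pi_zero {E : Type} [MeasurableSpace E] (μ : Fin 0 → Measure E)
    (f : (Fin 0 → E) → ℝ) (z0 : Fin 0 → E) :
    ∫ z, f z ∂(Measure.pi μ) = f z0 := by
  rw [Measure.pi_of_empty μ z0, integral_dirac' _ _ (by
    exact (Subsingleton.measurable (f := f)).stronglyMeasurable)]

abbrev E3 : Type := Fin 3 → ℝ

lemma meas_add_prj {α : Type} [MeasurableSpace α] {F : T3 → ℝ} (hF : Measurable F)
    {f : α → T3} (hf : Measurable f) {g : α → E3} (hg : Measurable g) :
    Measurable fun x => F (f x + prj (g x)) :=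
  hF.comp (hf.add (prj_measurable.comp hg))

lemma chain1 (μ : Fin 1 → Measure E3) [∀ i, IsProbabilityMeasure (μ i)] {s : ℝ≥0}
    (h0 : μ 0 = gau s) {F4 : T3 → ℝ} (m4 : Measurable F4) {C : ℝ} (b4 : ∀ x, |F4 x| ≤ C)
    (v : T3) : ∫ z, F4 (v + prj (z 0)) ∂(Measure.pi μ) = Av s F4 v := by
  rw [integral_pi_succ 0 μ (f := fun z => F4 (v + prj (z 0)))
    (meas_add_prj m4 measurable_const (measurable_pi_apply 0)) (fun z => b4 _)]
  have : ∀ a : E3, ∫ z : Fin 0 → E3, F4 (v + prj ((Fin.cons a z : Fin 1 → E3) 0))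
      ∂(Measure.pi fun i => μ i.succ) = F4 (v + prj a) := by
    intro a
    rw [integral_pi_zero _ _ (fun i => i.elim0)]
    rfl
  simp only [this, h0]
  rfl

lemma chain2 (μ : Fin 2 → Measure E3) [∀ i, IsProbabilityMeasure (μ i)] {s r : ℝ≥0}
    (h0 : μ 0 = gau s) (h1 : μ 1 = gau r) {F3 F4 : T3 → ℝ} (m3 : Measurable F3)
    (m4 : Measurable F4) {C : ℝ} (b3 : ∀ x, |F3 x| ≤ C) (b4 : ∀ x, |F4 x| ≤ C) (v : T3) :
    ∫ z, F3 (v + prj (z 0)) * F4 (v + prj (z 0) + prj (z 1)) ∂(Measure.pi μ)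
      = Av s (fun x => F3 x * Av r F4 x) v := by
  have hC : 0 ≤ C := (abs_nonneg _).trans (b3 0)
  rw [integral_pi_succ 1 μ (f := fun z => F3 (v + prj (z 0)) * F4 (v + prj (z 0) + prj (z 1)))
    (C := C * C) ?_ ?_]
  · have : ∀ a : E3, ∫ z : Fin 1 → E3, F3 (v + prj ((Fin.cons a z : Fin 2 → E3) 0))
        * F4 (v + prj ((Fin.cons a z : Fin 2 → E3) 0) + prj ((Fin.cons a z : Fin 2 → E3) 1))
        ∂(Measure.pi fun i => μ i.succ) = F3 (v + prj a) * Av r F4 (v + prj a) := by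
      intro a
      have e : ∀ z : Fin 1 → E3, (Fin.cons a z : Fin 2 → E3) 1 = z 0 := fun z => rfl
      have e0 : ∀ z : Fin 1 → E3, (Fin.cons a z : Fin 2 → E3) 0 = a := fun z => rfl
      simp only [e, e0]
      rw [integral_const_mul, chain1 (fun i => μ i.succ) (s := r) h1 m4 b4]
    simp only [this, h0]
    rfl
  · exact (meas_add_prj m3 measurable_const (measurable_pi_apply 0)).mul
      (meas_add_prj m4 (measurable_const.add (prj_measurable.comp (measurable_pi_apply 0)))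
        (measurable_pi_apply 1))
  · intro z
    rw [abs_mul]
    exact mul_le_mul (b3 _) (b4 _) (abs_nonneg _) hC

lemma chain3 (μ : Fin 3 → Measure E3) [∀ i, IsProbabilityMeasure (μ i)] {s r q : ℝ≥0}
    (h0 : μ 0 = gau s) (h1 : μ 1 = gau r) (h2 : μ 2 = gau q) {F2 F3 F4 : T3 → ℝ}
    (m2 : Measurable F2) (m3 : Measurable F3) (m4 : Measurable F4) {C : ℝ}
    (b2 : ∀ x, |F2 x| ≤ C) (b3 : ∀ x, |F3 x| ≤ C) (b4 : ∀ x, |F4 x| ≤ C) (v : T3) :
    ∫ z, F2 (v + prj (z 0)) * (F3 (v + prj (z 0) + prj (z 1))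
        * F4 (v + prj (z 0) + prj (z 1) + prj (z 2))) ∂(Measure.pi μ)
      = Av s (fun x => F2 x * Av r (fun x => F3 x * Av q F4 x) x) v := by
  have hC : 0 ≤ C := (abs_nonneg _).trans (b3 0)
  rw [integral_pi_succ 2 μ (f := fun z => F2 (v + prj (z 0)) * (F3 (v + prj (z 0) + prj (z 1))
        * F4 (v + prj (z 0) + prj (z 1) + prj (z 2))))
    (C := C * (C * C)) ?_ ?_]
  · have : ∀ a : E3, ∫ z : Fin 2 → E3, F2 (v + prj ((Fin.cons a z : Fin 3 → E3) 0))
        * (F3 (v + prj ((Fin.cons a z : Fin 3 → E3) 0) + prj ((Fin.cons a z : Fin 3 → E3) 1))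
        * F4 (v + prj ((Fin.cons a z : Fin 3 → E3) 0) + prj ((Fin.cons a z : Fin 3 → E3) 1)
          + prj ((Fin.cons a z : Fin 3 → E3) 2)))
        ∂(Measure.pi fun i => μ i.succ)
        = F2 (v + prj a) * Av r (fun x => F3 x * Av q F4 x) (v + prj a) := by
      intro a
      have e1 : ∀ z : Fin 2 → E3, (Fin.cons a z : Fin 3 → E3) 1 = z 0 := fun z => rfl
      have e2 : ∀ z : Fin 2 → E3, (Fin.cons a z : Fin 3 → E3) 2 = z 1 := fun z => rfl
      have e0 : ∀ z : Fin 2 → E3, (Fin.cons a z : Fin 3 → E3) 0 = a := fun z => rfl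
      simp only [e1, e2, e0]
      rw [integral_const_mul, chain2 (fun i => μ i.succ) (s := r) (r := q) h1 h2 m3 m4 b3 b4]
    simp only [this, h0]
    rfl
  · exact (meas_add_prj m2 measurable_const (measurable_pi_apply 0)).mul
      ((meas_add_prj m3 (measurable_const.add (prj_measurable.comp (measurable_pi_apply 0)))
        (measurable_pi_apply 1)).mul
      (meas_add_prj m4 ((measurable_const.add (prj_measurable.comp (measurable_pi_apply 0))).add
        (prj_measurable.comp (measurable_pi_apply 1))) (measurable_pi_apply 2)))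
  · intro z
    rw [abs_mul, abs_mul]
    exact mul_le_mul (b2 _) (mul_le_mul (b3 _) (b4 _) (abs_nonneg _) hC)
      (mul_nonneg (abs_nonneg _) (abs_nonneg _)) hC

lemma chain4 (μ : Fin 4 → Measure E3) [∀ i, IsProbabilityMeasure (μ i)] {s r q p : ℝ≥0}
    (h0 : μ 0 = gau s) (h1 : μ 1 = gau r) (h2 : μ 2 = gau q) (h3 : μ 3 = gau p)
    {F1 F2 F3 F4 : T3 → ℝ}
    (m1 : Measurable F1) (m2 : Measurable F2) (m3 : Measurable F3) (m4 : Measurable F4) {C : ℝ}
    (b1 : ∀ x, |F1 x| ≤ C) (b2 : ∀ x, |F2 x| ≤ C) (b3 : ∀ x, |F3 x| ≤ C) (b4 : ∀ x, |F4 x| ≤ C)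
    (v : T3) :
    ∫ z, F1 (v + prj (z 0)) * (F2 (v + prj (z 0) + prj (z 1)) *
        (F3 (v + prj (z 0) + prj (z 1) + prj (z 2))
        * F4 (v + prj (z 0) + prj (z 1) + prj (z 2) + prj (z 3)))) ∂(Measure.pi μ)
      = Av s (fun x => F1 x * Av r (fun x => F2 x * Av q (fun x => F3 x * Av p F4 x) x) x) v := by
  have hC : 0 ≤ C := (abs_nonneg _).trans (b3 0)
  rw [integral_pi_succ 3 μ (f := fun z => F1 (v + prj (z 0)) * (F2 (v + prj (z 0) + prj (z 1)) *
        (F3 (v + prj (z 0) + prj (z 1) + prj (z 2))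
        * F4 (v + prj (z 0) + prj (z 1) + prj (z 2) + prj (z 3)))))
    (C := C * (C * (C * C))) ?_ ?_]
  · have : ∀ a : E3, ∫ z : Fin 3 → E3, F1 (v + prj ((Fin.cons a z : Fin 4 → E3) 0))
        * (F2 (v + prj ((Fin.cons a z : Fin 4 → E3) 0) + prj ((Fin.cons a z : Fin 4 → E3) 1))
        * (F3 (v + prj ((Fin.cons a z : Fin 4 → E3) 0) + prj ((Fin.cons a z : Fin 4 → E3) 1)
          + prj ((Fin.cons a z : Fin 4 → E3) 2))
        * F4 (v + prj ((Fin.cons a z : Fin 4 → E3) 0) + prj ((Fin.cons a z : Fin 4 → E3) 1)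
          + prj ((Fin.cons a z : Fin 4 → E3) 2) + prj ((Fin.cons a z : Fin 4 → E3) 3))))
        ∂(Measure.pi fun i => μ i.succ)
        = F1 (v + prj a)
          * Av r (fun x => F2 x * Av q (fun x => F3 x * Av p F4 x) x) (v + prj a) := by
      intro a
      have e1 : ∀ z : Fin 3 → E3, (Fin.cons a z : Fin 4 → E3) 1 = z 0 := fun z => rfl
      have e2 : ∀ z : Fin 3 → E3, (Fin.cons a z : Fin 4 → E3) 2 = z 1 := fun z => rfl
      have e3 : ∀ z : Fin 3 → E3, (Fin.cons a z : Fin 4 → E3) 3 = z 2 := fun z => rfl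
      have e0 : ∀ z : Fin 3 → E3, (Fin.cons a z : Fin 4 → E3) 0 = a := fun z => rfl
      simp only [e1, e2, e3, e0]
      rw [integral_const_mul, chain3 (fun i => μ i.succ) (s := r) (r := q) (q := p) h1 h2 h3
        m2 m3 m4 b2 b3 b4]
    simp only [this, h0]
    rfl
  · exact (meas_add_prj m1 measurable_const (measurable_pi_apply 0)).mul
      ((meas_add_prj m2 (measurable_const.add (prj_measurable.comp (measurable_pi_apply 0)))
        (measurable_pi_apply 1)).mul
      ((meas_add_prj m3 ((measurable_const.add (prj_measurable.comp (measurable_pi_apply 0))).add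
        (prj_measurable.comp (measurable_pi_apply 1))) (measurable_pi_apply 2)).mul
      (meas_add_prj m4 (((measurable_const.add (prj_measurable.comp (measurable_pi_apply 0))).add
        (prj_measurable.comp (measurable_pi_apply 1))).add
        (prj_measurable.comp (measurable_pi_apply 2))) (measurable_pi_apply 3))))
  · intro z
    rw [abs_mul, abs_mul, abs_mul]
    exact mul_le_mul (b1 _) (mul_le_mul (b2 _) (mul_le_mul (b3 _) (b4 _) (abs_nonneg _) hC)
      (mul_nonneg (abs_nonneg _) (abs_nonneg _)) hC)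
      (mul_nonneg (abs_nonneg _) (mul_nonneg (abs_nonneg _) (abs_nonneg _))) hC

/-- Averages preserve the uniform measure. -/
lemma integral_Av (s : ℝ≥0) {F : T3 → ℝ} (hF : Measurable F) {C : ℝ} (hb : ∀ x, |F x| ≤ C) :
    ∫ x, Av s F x = ∫ x, F x := by
  have := prob_T3
  unfold Av
  have hi : Integrable (Function.uncurry fun (x : T3) (y : E3) => F (x + prj y))
      ((volume : Measure T3).prod (gau s)) := by
    refine Integrable.of_bound (C := C) ?_ (Filter.Eventually.of_forall fun x => hb _)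
    exact (meas_add_prj hF measurable_fst measurable_snd).aestronglyMeasurable
  rw [integral_integral_swap hi]
  have h1 : ∀ y : E3, ∫ x : T3, F (x + prj y) = ∫ x, F x := by
    intro y
    exact integral_add_right_eq_self (fun x => F x) (prj y)
  simp only [h1]
  simp

section

variable {Ω : Type} [MeasurableSpace Ω] {P : Measure Ω} {W : ℝ≥0 → Ω → (Fin 3 → ℝ)}
  {U : Ω → T3}

/-- The four point function. -/
lemma four_point [IsProbabilityMeasure P] (hW : IsBM3 P W) (hU : Measurable U)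
    (hUl : P.map U = volume) (hind : IndepFun U (fun ω t => W t ω) P)
    {t1 t2 t3 t4 : ℝ≥0} (h12 : t1 ≤ t2) (h23 : t2 ≤ t3) (h34 : t3 ≤ t4)
    {F1 F2 F3 F4 : T3 → ℝ}
    (m1 : Measurable F1) (m2 : Measurable F2) (m3 : Measurable F3) (m4 : Measurable F4) {C : ℝ}
    (b1 : ∀ x, |F1 x| ≤ C) (b2 : ∀ x, |F2 x| ≤ C) (b3 : ∀ x, |F3 x| ≤ C)
    (b4 : ∀ x, |F4 x| ≤ C) :
    ∫ ω, F1 (U ω + prj (W t1 ω)) * (F2 (U ω + prj (W t2 ω)) * (F3 (U ω + prj (W t3 ω)) *
      F4 (U ω + prj (W t4 ω)))) ∂P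
      = ∫ x, F1 x * Av (t2 - t1) (fun x => F2 x * Av (t3 - t2)
          (fun x => F3 x * Av (t4 - t3) F4 x) x) x := by
  have := prob_T3
  have hC : 0 ≤ C := (abs_nonneg _).trans (b3 0)
  obtain ⟨τ, hτ⟩ : ∃ τ : Fin 5 → ℝ≥0, τ = ![0, t1, t2, t3, t4] := ⟨_, rfl⟩
  have hmono : Monotone τ := by
    rw [Fin.monotone_iff_le_succ]
    intro i
    fin_cases i
    · simp [hτ]
    · simpa [hτ] using h12
    · simpa [hτ] using h23
    · simpa [hτ] using h34
  have hiInd := hW.incr 4 τ hmono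
  obtain ⟨Z, hZ⟩ : ∃ Z : Ω → Fin 4 → E3,
    Z = fun ω i => W (τ i.succ) ω - W (τ i.castSucc) ω := ⟨_, rfl⟩
  have hZm : Measurable Z := by
    rw [hZ]
    exact measurable_pi_lambda _ fun i => (hW.measurable _).sub (hW.measurable _)
  obtain ⟨μ, hμ⟩ : ∃ μ : Fin 4 → Measure E3,
    μ = fun i => gau (τ i.succ - τ i.castSucc) := ⟨_, rfl⟩
  have hμp : ∀ i, IsProbabilityMeasure (μ i) := by
    intro i; rw [hμ]; infer_instance
  have hZl : P.map Z = Measure.pi μ := by
    have h1 := (iIndepFun_iff_map_fun_eq_pi_map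
      (fun (i : Fin 4) =>
        ((hW.measurable (τ i.succ)).sub (hW.measurable (τ i.castSucc))).aemeasurable)).1 hiInd
    rw [hZ, hμ]
    refine Eq.trans h1 ?_
    congr 1
    funext i
    exact hW.law _ _ (hmono (Fin.castSucc_le_succ i))
  have hUZ : IndepFun U Z P := by
    have h1 : Measurable (fun (p : ℝ≥0 → E3) (i : Fin 4) => p (τ i.succ) - p (τ i.castSucc)) := by
      refine measurable_pi_lambda _ fun i => ?_
      exact (measurable_pi_apply _).sub (measurable_pi_apply _)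
    have h2 := hind.comp (φ := id) (ψ := fun (p : ℝ≥0 → E3) (i : Fin 4) =>
      p (τ i.succ) - p (τ i.castSucc)) measurable_id h1
    have h3 : (fun (p : ℝ≥0 → E3) (i : Fin 4) => p (τ i.succ) - p (τ i.castSucc)) ∘
      (fun ω t => W t ω) = Z := by rw [hZ]; rfl
    rw [h3] at h2
    exact h2
  have hjoint : P.map (fun ω => (U ω, Z ω)) = (volume : Measure T3).prod (Measure.pi μ) := by
    rw [(indepFun_iff_map_prod_eq_prod_map_map hU.aemeasurable hZm.aemeasurable).1 hUZ, hUl, hZl]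
  have w1 : ∀ ω, W t1 ω = Z ω 0 := by
    intro ω; rw [hZ, hτ]; simp [hW.start ω]
  have w2 : ∀ ω, W t2 ω = Z ω 0 + Z ω 1 := by
    intro ω; rw [hZ, hτ]; simp [hW.start ω]
  have w3 : ∀ ω, W t3 ω = Z ω 0 + Z ω 1 + Z ω 2 := by
    intro ω; rw [hZ, hτ]; simp [hW.start ω]
  have w4 : ∀ ω, W t4 ω = Z ω 0 + Z ω 1 + Z ω 2 + Z ω 3 := by
    intro ω; rw [hZ, hτ]; simp [hW.start ω]
  obtain ⟨H, hH⟩ : ∃ H : T3 × (Fin 4 → E3) → ℝ, H = fun x =>
      F1 (x.1 + prj (x.2 0)) * (F2 (x.1 + prj (x.2 0) + prj (x.2 1)) *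
        (F3 (x.1 + prj (x.2 0) + prj (x.2 1) + prj (x.2 2))
        * F4 (x.1 + prj (x.2 0) + prj (x.2 1) + prj (x.2 2) + prj (x.2 3)))) := ⟨_, rfl⟩
  have ev : ∀ i : Fin 4, Measurable fun x : T3 × (Fin 4 → E3) => x.2 i :=
    fun i => (measurable_pi_apply i).comp measurable_snd
  have hHm : Measurable H := by
    rw [hH]
    exact (meas_add_prj m1 measurable_fst (ev 0)).mul
      ((meas_add_prj m2 (measurable_fst.add (prj_measurable.comp (ev 0))) (ev 1)).mul
      ((meas_add_prj m3 ((measurable_fst.add (prj_measurable.comp (ev 0))).add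
        (prj_measurable.comp (ev 1))) (ev 2)).mul
      (meas_add_prj m4 (((measurable_fst.add (prj_measurable.comp (ev 0))).add
        (prj_measurable.comp (ev 1))).add (prj_measurable.comp (ev 2))) (ev 3))))
  have hHb : ∀ x, |H x| ≤ C * (C * (C * C)) := by
    intro x
    rw [hH]
    simp only
    rw [abs_mul, abs_mul, abs_mul]
    exact mul_le_mul (b1 _) (mul_le_mul (b2 _) (mul_le_mul (b3 _) (b4 _) (abs_nonneg _) hC)
      (mul_nonneg (abs_nonneg _) (abs_nonneg _)) hC)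
      (mul_nonneg (abs_nonneg _) (mul_nonneg (abs_nonneg _) (abs_nonneg _))) hC
  have e1 : ∫ ω, F1 (U ω + prj (W t1 ω)) * (F2 (U ω + prj (W t2 ω)) * (F3 (U ω + prj (W t3 ω)) *
      F4 (U ω + prj (W t4 ω)))) ∂P = ∫ ω, H (U ω, Z ω) ∂P := by
    refine integral_congr_ae (Filter.Eventually.of_forall fun ω => ?_)
    simp only
    rw [hH]
    simp only [w1, w2, w3, w4, prj_add, ← add_assoc]
  have e2 : ∫ ω, H (U ω, Z ω) ∂P = ∫ x, H x ∂((volume : Measure T3).prod (Measure.pi μ)) := by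
    rw [← hjoint, integral_map (hU.prodMk hZm).aemeasurable hHm.aestronglyMeasurable]
  have hHi : Integrable H ((volume : Measure T3).prod (Measure.pi μ)) :=
    Integrable.of_bound (C := C * (C * (C * C))) hHm.aestronglyMeasurable
      (Filter.Eventually.of_forall hHb)
  rw [e1, e2, integral_prod _ hHi]
  have e3 : ∀ x : T3, ∫ z, H (x, z) ∂(Measure.pi μ)
      = Av t1 (fun x => F1 x * Av (t2 - t1) (fun x => F2 x * Av (t3 - t2)
          (fun x => F3 x * Av (t4 - t3) F4 x) x) x) x := by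
    intro x
    rw [hH]
    exact chain4 μ (by rw [hμ, hτ]; simp) (by rw [hμ, hτ]; simp) (by rw [hμ, hτ]; simp)
      (by rw [hμ, hτ]; simp) m1 m2 m3 m4 b1 b2 b3 b4 x
  simp only [e3]
  have hm3 : Measurable fun x => F3 x * Av (t4 - t3) F4 x := m3.mul (Av_measurable _ m4)
  have hb3 : ∀ x, |F3 x * Av (t4 - t3) F4 x| ≤ C * C := fun x => by
    rw [abs_mul]; exact mul_le_mul (b3 _) (Av_abs_le _ b4 _) (abs_nonneg _) hC
  have hm2 : Measurable fun x => F2 x * Av (t3 - t2) (fun x => F3 x * Av (t4 - t3) F4 x) x :=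
    m2.mul (Av_measurable _ hm3)
  have hb2 : ∀ x, |F2 x * Av (t3 - t2) (fun x => F3 x * Av (t4 - t3) F4 x) x| ≤ C * (C * C) :=
    fun x => by
      rw [abs_mul]; exact mul_le_mul (b2 _) (Av_abs_le _ hb3 _) (abs_nonneg _) hC
  refine integral_Av t1 (m1.mul (Av_measurable _ hm2)) (C := C * (C * (C * C))) fun x => ?_
  rw [abs_mul]
  exact mul_le_mul (b1 _) (Av_abs_le _ hb2 _) (abs_nonneg _) hC

end

end Pool.Agent.T2H28.OT
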