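import Pool.Agent.T2H28.OT.Path

/-!
# The test functions
-/

set_option autoImplicit false

namespace Pool.Agent.T2H28.OT

open MeasureTheory ProbabilityTheory
open scoped ENNReal NNReal

/-- The test function: difference of two heat kernels centred at `z`. -/
noncomputable def psi (a : ℝ) (z x : T3) : ℝ := pk a (x - z) - pk (2 * a) (x - z)

/-- Its majorant. -/
noncomputable def phi (a : ℝ) (z x : T3) : ℝ := pk a (x - z) + pk (2 * a) (x - z)

lemma pkz_cont {a : ℝ} (ha : 0 < a) (z : T3) : Continuous fun x => pk a (x - z) :=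
  (pk_continuous ha).comp (continuous_sub_right z)

lemma psi_cont {a : ℝ} (ha : 0 < a) (z : T3) : Continuous (psi a z) :=
  (pkz_cont ha z).sub (pkz_cont (by linarith) z)

lemma phi_cont {a : ℝ} (ha : 0 < a) (z : T3) : Continuous (phi a z) :=
  (pkz_cont ha z).add (pkz_cont (by linarith) z)

lemma abs_psi_le {a : ℝ} (ha : 0 < a) (z x : T3) : |psi a z x| ≤ phi a z x := by
  unfold psi phi
  have h1 := pk_nonneg ha (x - z)
  have h2 := pk_nonneg (s := 2 * a) (by linarith) (x - z)
  rw [abs_le]
  constructor <;> linarith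

lemma phi_nonneg {a : ℝ} (ha : 0 < a) (z x : T3) : 0 ≤ phi a z x :=
  (abs_nonneg _).trans (abs_psi_le ha z x)

lemma phi_le {a : ℝ} (ha : 0 < a) (z x : T3) : phi a z x ≤ 2 * D a := by
  unfold phi
  have h1 := pk_le ha (x - z)
  have h2 := pk_le (s := 2 * a) (by linarith) (x - z)
  have h3 := D_anti ha (by linarith : a ≤ 2 * a)
  linarith

lemma Av_pk {a s : ℝ} (ha : 0 < a) (hs : 0 < s) (z x : T3) :
    Av s.toNNReal (fun x => pk a (x - z)) x = pk (a + s) (x - z) := by
  unfold Av
  rw [gau_integral (F := fun x => pk a (x - z)) (Real.toNNReal_pos.2 hs)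
    (pkz_cont ha z).measurable x, Real.coe_toNNReal _ hs.le, ← pk_conv ha hs]
  refine integral_congr_ae (Filter.Eventually.of_forall fun y => ?_)
  simp only
  congr 2
  abel

lemma gau_int {F : T3 → ℝ} (hF : Continuous F) (s : ℝ≥0) (x : T3) :
    Integrable (fun y => F (x + prj y)) (gau s) := by
  obtain ⟨C, hC⟩ := (isCompact_univ (X := T3)).exists_bound_of_continuousOn hF.continuousOn
  refine Integrable.of_bound (C := C) ?_ (Filter.Eventually.of_forall fun y => hC _ trivial)
  exact (meas_add_prj hF.measurable measurable_const measurable_id).aestronglyMeasurable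

lemma Av_psi {a s : ℝ} (ha : 0 < a) (hs : 0 < s) (z x : T3) :
    Av s.toNNReal (psi a z) x = pk (a + s) (x - z) - pk (2 * a + s) (x - z) := by
  rw [← Av_pk ha hs z x, ← Av_pk (a := 2 * a) (by linarith) hs z x]
  unfold Av psi
  exact integral_sub (gau_int (pkz_cont ha z) _ x) (gau_int (pkz_cont (by linarith) z) _ x)

lemma Av_phi {a s : ℝ} (ha : 0 < a) (hs : 0 < s) (z x : T3) :
    Av s.toNNReal (phi a z) x = pk (a + s) (x - z) + pk (2 * a + s) (x - z) := by
  rw [← Av_pk ha hs z x, ← Av_pk (a := 2 * a) (by linarith) hs z x]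
  unfold Av phi
  exact integral_add (gau_int (pkz_cont ha z) _ x) (gau_int (pkz_cont (by linarith) z) _ x)

lemma int_pk_pk {a b : ℝ} (ha : 0 < a) (hb : 0 < b) (z : T3) :
    ∫ x, pk a (x - z) * pk b (x - z) = D (a + b) := by
  rw [integral_sub_right_eq_self (fun x => pk a x * pk b x) z, ← pk_zero, ← pk_conv ha hb]
  simp

lemma int_pkz {a : ℝ} (ha : 0 < a) (z : T3) : ∫ x, pk a (x - z) = 1 := by
  rw [integral_sub_right_eq_self (fun x => pk a x) z, pk_integral ha]

/-- The covariance function. -/
noncomputable def q (a s : ℝ) : ℝ := D (2 * a + s) - 2 * D (3 * a + s) + D (4 * a + s)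

lemma q_val {a s : ℝ} (ha : 0 < a) (hs : 0 < s) (z : T3) :
    ∫ x, psi a z x * (pk (a + s) (x - z) - pk (2 * a + s) (x - z)) = q a s := by
  have := prob_T3
  have i1 : ∀ {u v : ℝ}, 0 < u → 0 < v → Integrable fun x : T3 => pk u (x - z) * pk v (x - z) :=
    fun hu hv => cont_int ((pkz_cont hu z).mul (pkz_cont hv z)) _
  have h1 : ∀ x, psi a z x * (pk (a + s) (x - z) - pk (2 * a + s) (x - z))
      = (pk a (x - z) * pk (a + s) (x - z) - pk a (x - z) * pk (2 * a + s) (x - z))
        - (pk (2 * a) (x - z) * pk (a + s) (x - z)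
          - pk (2 * a) (x - z) * pk (2 * a + s) (x - z)) := by
    intro x; unfold psi; ring
  simp only [h1]
  have p1 : 0 < a + s := by linarith
  have p2 : 0 < 2 * a + s := by linarith
  have p3 : 0 < 2 * a := by linarith
  have j1 : Integrable fun x : T3 =>
      pk a (x - z) * pk (a + s) (x - z) - pk a (x - z) * pk (2 * a + s) (x - z) :=
    (i1 ha p1).sub (i1 ha p2)
  have j2 : Integrable fun x : T3 =>
      pk (2 * a) (x - z) * pk (a + s) (x - z) - pk (2 * a) (x - z) * pk (2 * a + s) (x - z) :=
    (i1 p3 p1).sub (i1 p3 p2)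
  rw [integral_sub j1 j2, integral_sub (i1 ha p1) (i1 ha p2), integral_sub (i1 p3 p1) (i1 p3 p2),
    int_pk_pk ha p1, int_pk_pk ha p2, int_pk_pk p3 p1, int_pk_pk p3 p2]
  unfold q
  rw [show a + (a + s) = 2 * a + s by ring, show a + (2 * a + s) = 3 * a + s by ring,
    show 2 * a + (a + s) = 3 * a + s by ring, show 2 * a + (2 * a + s) = 4 * a + s by ring]
  ring

lemma phi_val {a s : ℝ} (ha : 0 < a) (hs : 0 < s) (z : T3) :
    ∫ x, phi a z x * (pk (a + s) (x - z) + pk (2 * a + s) (x - z)) ≤ 4 * D (2 * a + s) := by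
  have := prob_T3
  have i1 : ∀ {u v : ℝ}, 0 < u → 0 < v → Integrable fun x : T3 => pk u (x - z) * pk v (x - z) :=
    fun hu hv => cont_int ((pkz_cont hu z).mul (pkz_cont hv z)) _
  have h1 : ∀ x, phi a z x * (pk (a + s) (x - z) + pk (2 * a + s) (x - z))
      = (pk a (x - z) * pk (a + s) (x - z) + pk a (x - z) * pk (2 * a + s) (x - z))
        + (pk (2 * a) (x - z) * pk (a + s) (x - z)
          + pk (2 * a) (x - z) * pk (2 * a + s) (x - z)) := by
    intro x; unfold phi; ring
  simp only [h1]
  have p1 : 0 < a + s := by linarith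
  have p2 : 0 < 2 * a + s := by linarith
  have p3 : 0 < 2 * a := by linarith
  have j1 : Integrable fun x : T3 =>
      pk a (x - z) * pk (a + s) (x - z) + pk a (x - z) * pk (2 * a + s) (x - z) :=
    (i1 ha p1).add (i1 ha p2)
  have j2 : Integrable fun x : T3 =>
      pk (2 * a) (x - z) * pk (a + s) (x - z) + pk (2 * a) (x - z) * pk (2 * a + s) (x - z) :=
    (i1 p3 p1).add (i1 p3 p2)
  rw [integral_add j1 j2, integral_add (i1 ha p1) (i1 ha p2), integral_add (i1 p3 p1) (i1 p3 p2),
    int_pk_pk ha p1, int_pk_pk ha p2, int_pk_pk p3 p1, int_pk_pk p3 p2]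
  rw [show a + (a + s) = 2 * a + s by ring, show a + (2 * a + s) = 3 * a + s by ring,
    show 2 * a + (a + s) = 3 * a + s by ring, show 2 * a + (2 * a + s) = 4 * a + s by ring]
  have h2 := D_anti p2 (by linarith : 2 * a + s ≤ 3 * a + s)
  have h3 := D_anti p2 (by linarith : 2 * a + s ≤ 4 * a + s)
  linarith

lemma q_nonneg {a s : ℝ} (ha : 0 < a) (hs : 0 ≤ s) : 0 ≤ q a s := by
  have := prob_T3
  have p1 : 0 < a + s / 2 := by linarith
  have p2 : 0 < 2 * a + s / 2 := by linarith
  have i1 : ∀ {u v : ℝ}, 0 < u → 0 < v → Integrable fun x : T3 => pk u (x - 0) * pk v (x - 0) :=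
    fun hu hv => cont_int ((pkz_cont hu 0).mul (pkz_cont hv 0)) _
  have h1 : ∫ x : T3, (pk (a + s / 2) (x - 0) - pk (2 * a + s / 2) (x - 0)) ^ 2 = q a s := by
    have h2 : ∀ x : T3, (pk (a + s / 2) (x - 0) - pk (2 * a + s / 2) (x - 0)) ^ 2
        = (pk (a + s / 2) (x - 0) * pk (a + s / 2) (x - 0)
          - 2 * (pk (a + s / 2) (x - 0) * pk (2 * a + s / 2) (x - 0)))
          + pk (2 * a + s / 2) (x - 0) * pk (2 * a + s / 2) (x - 0) := by
      intro x; ring
    simp only [h2]
    have j1 : Integrable fun x : T3 => pk (a + s / 2) (x - 0) * pk (a + s / 2) (x - 0)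
          - 2 * (pk (a + s / 2) (x - 0) * pk (2 * a + s / 2) (x - 0)) :=
      (i1 p1 p1).sub ((i1 p1 p2).const_mul 2)
    rw [integral_add j1 (i1 p2 p2), integral_sub (i1 p1 p1) ((i1 p1 p2).const_mul 2),
      integral_const_mul, int_pk_pk p1 p1, int_pk_pk p1 p2, int_pk_pk p2 p2]
    unfold q
    rw [show a + s / 2 + (a + s / 2) = 2 * a + s by ring,
      show a + s / 2 + (2 * a + s / 2) = 3 * a + s by ring,
      show 2 * a + s / 2 + (2 * a + s / 2) = 4 * a + s by ring]
  rw [← h1]
  exact integral_nonneg fun x => sq_nonneg _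

/-- The bound for the fluctuations. -/
noncomputable def ee (a s : ℝ) : ℝ := if s ≤ 1 then 2 * D (a + s) + 2 else 2 * (D s - 1)

lemma fluct {a s α : ℝ} (ha : 0 < a) (hs : 0 < s) (z : T3) {G : T3 → ℝ} (hG : Measurable G)
    (hb : ∀ x, |G x| ≤ α * phi a z x) (x : T3) :
    |Av s.toNNReal G x - ∫ y, G y| ≤ α * ee a s := by
  have := prob_T3
  have hα : 0 ≤ α := by
    by_contra hcon
    push Not at hcon
    have h1 : ∫ x : T3, phi a z x = 2 := by
      unfold phi
      rw [integral_add (cont_int (pkz_cont ha z) _) (cont_int (pkz_cont (by linarith) z) _),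
        int_pkz ha, int_pkz (by linarith)]
      norm_num
    have h2 : ∀ x, phi a z x = 0 := by
      intro x
      have h3 := (abs_nonneg _).trans (hb x)
      have h4 := phi_nonneg ha z x
      nlinarith
    simp only [h2, integral_zero] at h1
    norm_num at h1
  have h2D : ∀ x, |G x| ≤ α * (2 * D a) := fun x =>
    (hb x).trans (mul_le_mul_of_nonneg_left (phi_le ha z x) hα)
  have e1 : Av s.toNNReal G x = ∫ y : T3, G (x + y) * pk s y := by
    unfold Av
    rw [gau_integral (Real.toNNReal_pos.2 hs) hG x, Real.coe_toNNReal _ hs.le]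
  have e2 : ∫ y, G y = ∫ y : T3, G (x + y) := (integral_add_left_eq_self G x).symm
  have hGx : Integrable fun y : T3 => G (x + y) :=
    Integrable.of_bound (C := α * (2 * D a)) (hG.comp (measurable_const_add x)).aestronglyMeasurable
      (Filter.Eventually.of_forall fun y => h2D _)
  have hGxp : Integrable fun y : T3 => G (x + y) * pk s y := by
    refine Integrable.of_bound (C := α * (2 * D a) * D s)
      ((hG.comp (measurable_const_add x)).mul (pk_continuous hs).measurable).aestronglyMeasurable
      (Filter.Eventually.of_forall fun y => ?_)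
    rw [norm_mul, Real.norm_eq_abs, Real.norm_eq_abs, abs_of_nonneg (pk_nonneg hs y)]
    exact mul_le_mul (h2D _) (pk_le hs y) (pk_nonneg hs y) ((abs_nonneg _).trans (h2D 0))
  rw [e1, e2, ← integral_sub hGxp hGx]
  have hphi : Continuous fun y => phi a z (x + y) := (phi_cont ha z).comp (continuous_const_add x)
  have iphi : ∫ y, phi a z (x + y) = 2 := by
    rw [integral_add_left_eq_self (phi a z) x]
    unfold phi
    rw [integral_add (cont_int (pkz_cont ha z) _) (cont_int (pkz_cont (by linarith) z) _),
      int_pkz ha, int_pkz (by linarith)]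
    norm_num
  have hpt : ∀ y, |G (x + y) * pk s y - G (x + y)| ≤ α * (phi a z (x + y) * |pk s y - 1|) := by
    intro y
    rw [show G (x + y) * pk s y - G (x + y) = G (x + y) * (pk s y - 1) by ring, abs_mul,
      ← mul_assoc]
    exact mul_le_mul_of_nonneg_right (hb _) (abs_nonneg _)
  have hc1 : Continuous fun y => phi a z (x + y) * |pk s y - 1| :=
    hphi.mul ((pk_continuous hs).sub continuous_const).abs
  have hc2 : Continuous fun y => phi a z (x + y) * (pk s y + 1) :=
    hphi.mul ((pk_continuous hs).add continuous_const)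
  calc |∫ y : T3, (G (x + y) * pk s y - G (x + y))|
      ≤ ∫ y : T3, |G (x + y) * pk s y - G (x + y)| := abs_integral_le_integral_abs
    _ ≤ ∫ y : T3, α * (phi a z (x + y) * |pk s y - 1|) :=
        integral_mono_of_nonneg (Filter.Eventually.of_forall fun y => abs_nonneg _)
          ((cont_int hc1 _).const_mul α) (Filter.Eventually.of_forall hpt)
    _ = α * ∫ y : T3, phi a z (x + y) * |pk s y - 1| := integral_const_mul _ _
    _ ≤ α * ee a s := by
        refine mul_le_mul_of_nonneg_left ?_ hα
        unfold ee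
        split_ifs with h1
        · have h3 : ∀ y, phi a z (x + y) * |pk s y - 1| ≤ phi a z (x + y) * (pk s y + 1) := by
            intro y
            refine mul_le_mul_of_nonneg_left ?_ (phi_nonneg ha z _)
            have := pk_nonneg hs y
            rw [abs_le]; constructor <;> linarith
          have h4 : ∫ y : T3, phi a z (x + y) * (pk s y + 1)
              = Av s.toNNReal (phi a z) x + 2 := by
            have e3 : Av s.toNNReal (phi a z) x = ∫ y : T3, phi a z (x + y) * pk s y := by
              unfold Av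
              rw [gau_integral (Real.toNNReal_pos.2 hs) (phi_cont ha z).measurable x,
                Real.coe_toNNReal _ hs.le]
            have e4 : ∀ y, phi a z (x + y) * (pk s y + 1)
                = phi a z (x + y) * pk s y + phi a z (x + y) := fun y => by ring
            simp only [e4]
            have i5 : Integrable fun y => phi a z (x + y) * pk s y :=
              cont_int (hphi.mul (pk_continuous hs)) _
            rw [integral_add i5 (cont_int hphi _), iphi, e3]
          calc _ ≤ ∫ y : T3, phi a z (x + y) * (pk s y + 1) :=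
                integral_mono (cont_int hc1 _) (cont_int hc2 _) h3
            _ = pk (a + s) (x - z) + pk (2 * a + s) (x - z) + 2 := by rw [h4, Av_phi ha hs]
            _ ≤ _ := by
                have h5 := pk_le (s := a + s) (by linarith) (x - z)
                have h6 := pk_le (s := 2 * a + s) (by linarith) (x - z)
                have h7 := D_anti (s := a + s) (t := 2 * a + s) (by linarith) (by linarith)
                linarith
        · have h3 : ∀ y, phi a z (x + y) * |pk s y - 1| ≤ phi a z (x + y) * (D s - 1) := fun y =>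
            mul_le_mul_of_nonneg_left (pk_sub_one_abs_le hs y) (phi_nonneg ha z _)
          calc _ ≤ ∫ y : T3, phi a z (x + y) * (D s - 1) :=
                integral_mono (cont_int hc1 _) (cont_int (hphi.mul continuous_const) _) h3
            _ = 2 * (D s - 1) := by rw [integral_mul_const, iphi]

end Pool.Agent.T2H28.OT
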