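import Pool.Agent.T2H28.OT.Torus

/-!
# Total variation distance between shifted heat kernels
-/

set_option autoImplicit false

namespace Pool.Agent.T2H28.OT

open MeasureTheory ProbabilityTheory
open scoped ENNReal NNReal

/-- The Radon-Nikodym density of the shifted Gaussian. -/
noncomputable def rn (s : ℝ≥0) (h u : ℝ) : ℝ := Real.exp (h / s * u - h ^ 2 / (2 * s))

lemma pdf_shift {s : ℝ≥0} (hs : 0 < s) (h u : ℝ) :
    gaussianPDFReal h s u = rn s h u * gaussianPDFReal 0 s u := by
  have hs' : (0 : ℝ) < s := by exact_mod_cast hs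
  unfold gaussianPDFReal rn
  rw [mul_left_comm, ← Real.exp_add]
  congr 2
  field_simp
  ring

lemma exp_int (s : ℝ≥0) (t : ℝ) :
    Integrable (fun u => Real.exp (t * u)) (gaussianReal 0 s) ∧
    ∫ u, Real.exp (t * u) ∂(gaussianReal 0 s) = Real.exp (s * t ^ 2 / 2) := by
  constructor
  · exact integrable_exp_mul_gaussianReal t
  · have := mgf_gaussianReal (p := gaussianReal 0 s) (X := id) (μ := 0) (v := s)
      (by simp) t
    simpa [mgf] using this

lemma rn_int {s : ℝ≥0} (hs : 0 < s) (h : ℝ) :
    Integrable (rn s h) (gaussianReal 0 s) ∧ ∫ u, rn s h u ∂(gaussianReal 0 s) = 1 ∧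
    Integrable (fun u => rn s h u ^ 2) (gaussianReal 0 s) ∧
    ∫ u, rn s h u ^ 2 ∂(gaussianReal 0 s) = Real.exp (h ^ 2 / s) := by
  have hs' : (0 : ℝ) < s := by exact_mod_cast hs
  have h1 : rn s h = fun u => Real.exp (-(h ^ 2 / (2 * s))) * Real.exp (h / s * u) := by
    funext u
    unfold rn
    rw [← Real.exp_add]
    congr 1
    ring
  have h2 : (fun u => rn s h u ^ 2)
      = fun u => Real.exp (-(h ^ 2 / s)) * Real.exp (2 * h / s * u) := by
    funext u
    unfold rn
    rw [← Real.exp_add, ← Real.exp_nat_mul]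
    congr 1
    push_cast
    field_simp
    ring
  obtain ⟨i1, e1⟩ := exp_int s (h / s)
  obtain ⟨i2, e2⟩ := exp_int s (2 * h / s)
  refine ⟨?_, ?_, ?_, ?_⟩
  · rw [h1]; exact i1.const_mul _
  · rw [h1, integral_const_mul, e1, ← Real.exp_add, ← Real.exp_zero]
    congr 1
    field_simp
    ring
  · rw [h2]; exact i2.const_mul _
  · rw [h2, integral_const_mul, e2, ← Real.exp_add]
    congr 1
    field_simp
    ring

lemma gauss_shift {s : ℝ≥0} (hs : 0 < s) (h : ℝ) {φ : ℝ → ℝ} (hφ : Measurable φ)
    (hb : ∀ u, |φ u| ≤ 1) :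
    |(∫ u, φ (u + h) ∂(gaussianReal 0 s)) - ∫ u, φ u ∂(gaussianReal 0 s)|
      ≤ 2 * |h| / Real.sqrt s := by
  have hs' : (0 : ℝ) < s := by exact_mod_cast hs
  have hsq : 0 < Real.sqrt s := Real.sqrt_pos.2 hs'
  have hφi : ∀ μ : Measure ℝ, IsProbabilityMeasure μ → Integrable φ μ := by
    intro μ _
    exact Integrable.of_bound hφ.aestronglyMeasurable 1 (Filter.Eventually.of_forall hb)
  by_cases hcase : h ^ 2 ≤ s
  · have e1 : ∫ u, φ (u + h) ∂(gaussianReal 0 s) = ∫ u, φ u * rn s h u ∂(gaussianReal 0 s) := by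
      have e2 : ∫ u, φ (u + h) ∂(gaussianReal 0 s) = ∫ u, φ u ∂(gaussianReal h s) := by
        have e3 := gaussianReal_map_add_const (μ := 0) (v := s) h
        rw [zero_add] at e3
        rw [← e3, integral_map (by fun_prop) hφ.aestronglyMeasurable]
      rw [e2, integral_gaussianReal_eq_integral_smul (by exact hs.ne'),
        integral_gaussianReal_eq_integral_smul (by exact hs.ne')]
      refine integral_congr_ae (Filter.Eventually.of_forall fun u => ?_)
      simp only [smul_eq_mul]
      rw [pdf_shift hs]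
      ring
    obtain ⟨i1, m1, i2, m2⟩ := rn_int hs h
    have i3 : Integrable (fun u => φ u * rn s h u) (gaussianReal 0 s) :=
      i1.bdd_mul hφ.aestronglyMeasurable (Filter.Eventually.of_forall hb)
    rw [e1, ← integral_sub i3 (hφi _ inferInstance)]
    have hV : Real.exp (h ^ 2 / s) - 1 ≤ 2 * (h ^ 2 / s) := by
      have h0 : 0 ≤ h ^ 2 / s := by positivity
      have h1 : h ^ 2 / s ≤ 1 := by rw [div_le_one hs']; exact hcase
      have := Real.abs_exp_sub_one_le (x := h ^ 2 / s) (by rw [abs_of_nonneg h0]; exact h1)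
      rw [abs_of_nonneg h0] at this
      exact (le_abs_self _).trans this
    rcases eq_or_ne h 0 with h0 | h0
    · subst h0
      have : ∀ u, φ u * rn s 0 u - φ u = 0 := by
        intro u; simp [rn]
      simp [this]
    · obtain ⟨l, hl⟩ : ∃ l, l = 2 * |h| / Real.sqrt s := ⟨_, rfl⟩
      have hl0 : 0 < l := by rw [hl]; positivity
      have hl2 : l ^ 2 = 4 * (h ^ 2 / s) := by
        rw [hl, div_pow, mul_pow, sq_abs, Real.sq_sqrt hs'.le]; ring
      have hpt : ∀ u, |φ u * rn s h u - φ u| ≤ ((rn s h u - 1) ^ 2 / l + l) / 2 := by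
        intro u
        have e4 : |φ u * rn s h u - φ u| ≤ |rn s h u - 1| := by
          rw [show φ u * rn s h u - φ u = φ u * (rn s h u - 1) by ring, abs_mul]
          have := mul_le_mul_of_nonneg_right (hb u) (abs_nonneg (rn s h u - 1))
          linarith
        refine e4.trans ?_
        rw [← sq_abs (rn s h u - 1)]
        have e5 : 0 ≤ (|rn s h u - 1| - l) ^ 2 / l := by positivity
        have e6 : (|rn s h u - 1| - l) ^ 2 / l
            = |rn s h u - 1| ^ 2 / l - 2 * |rn s h u - 1| + l := by
          field_simp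
          ring
        linarith
      have i5 : Integrable (fun u => (rn s h u - 1) ^ 2) (gaussianReal 0 s) := by
        have : (fun u => (rn s h u - 1) ^ 2) = fun u => rn s h u ^ 2 - 2 * rn s h u + 1 := by
          funext u; ring
        rw [this]
        exact (i2.sub (i1.const_mul 2)).add (integrable_const 1)
      have m5 : ∫ u, (rn s h u - 1) ^ 2 ∂(gaussianReal 0 s) = Real.exp (h ^ 2 / s) - 1 := by
        have : (fun u => (rn s h u - 1) ^ 2) = fun u => rn s h u ^ 2 - 2 * rn s h u + 1 := by
          funext u; ring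
        have i6 : Integrable (fun u => rn s h u ^ 2 - 2 * rn s h u) (gaussianReal 0 s) :=
          i2.sub (i1.const_mul 2)
        rw [this, integral_add i6 (integrable_const 1),
          integral_sub i2 (i1.const_mul 2), integral_const_mul, m1, m2]
        simp
        ring
      calc |∫ u, (φ u * rn s h u - φ u) ∂(gaussianReal 0 s)|
          ≤ ∫ u, |φ u * rn s h u - φ u| ∂(gaussianReal 0 s) := abs_integral_le_integral_abs
        _ ≤ ∫ u, ((rn s h u - 1) ^ 2 / l + l) / 2 ∂(gaussianReal 0 s) := by
            refine integral_mono_of_nonneg (Filter.Eventually.of_forall fun u => abs_nonneg _)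
              (((i5.div_const l).add (integrable_const l)).div_const 2)
              (Filter.Eventually.of_forall hpt)
        _ = ((Real.exp (h ^ 2 / s) - 1) / l + l) / 2 := by
            rw [integral_div, integral_add (i5.div_const l) (integrable_const l), integral_div, m5]
            simp
        _ ≤ l := by
            have : (Real.exp (h ^ 2 / s) - 1) / l ≤ l := by
              rw [div_le_iff₀ hl0]
              have : l * l = 4 * (h ^ 2 / s) := by rw [← sq]; exact hl2
              rw [this]
              have h0 : 0 ≤ h ^ 2 / s := by positivity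
              linarith
            linarith
        _ = _ := hl
  · push Not at hcase
    have h1 : Real.sqrt s ≤ |h| := by
      rw [← Real.sqrt_sq_eq_abs]
      exact Real.sqrt_le_sqrt hcase.le
    have h2 : 2 ≤ 2 * |h| / Real.sqrt s := by
      rw [le_div_iff₀ hsq]; linarith
    refine le_trans ?_ h2
    have b1 : |∫ u, φ (u + h) ∂(gaussianReal 0 s)| ≤ 1 := by
      have := norm_integral_le_of_norm_le_const (μ := gaussianReal 0 s) (C := 1)
        (f := fun u => φ (u + h)) (Filter.Eventually.of_forall fun u => hb (u + h))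
      simpa using this
    have b2 : |∫ u, φ u ∂(gaussianReal 0 s)| ≤ 1 := by
      have := norm_integral_le_of_norm_le_const (μ := gaussianReal 0 s) (C := 1)
        (f := fun u => φ u) (Filter.Eventually.of_forall fun u => hb u)
      simpa using this
    calc _ ≤ |∫ u, φ (u + h) ∂(gaussianReal 0 s)| + |∫ u, φ u ∂(gaussianReal 0 s)| := abs_sub _ _
      _ ≤ 2 := by linarith

/-- A lift of minimal absolute value. -/
lemma exists_lift (x : UnitAddCircle) : ∃ h : ℝ, (h : UnitAddCircle) = x ∧ |h| = ‖x‖ := by
  induction x using QuotientAddGroup.induction_on with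
  | H x =>
    refine ⟨x - round x, ?_, ?_⟩
    · have : ((x - round x : ℝ) : UnitAddCircle) = (x : UnitAddCircle) := by
        rw [AddCircle.coe_sub]
        have : (((round x : ℤ) : ℝ) : UnitAddCircle) = 0 := by
          rw [AddCircle.coe_eq_zero_iff]
          exact ⟨round x, by simp⟩
        rw [this, sub_zero]
      exact this
    · exact (UnitAddCircle.norm_eq).symm

/-- The total variation distance of shifted heat kernels on the circle. -/
lemma tv1 {s : ℝ≥0} (hs : 0 < s) (x y : UnitAddCircle) :
    ∫ z, |th s (z - x) - th s (z - y)| ≤ 2 * ‖x - y‖ / Real.sqrt s := by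
  have hs' : (0 : ℝ) < s := by exact_mod_cast hs
  have hc := th_continuous hs'
  obtain ⟨φ, hφ⟩ : ∃ φ : UnitAddCircle → ℝ,
    φ = fun z => if 0 ≤ th s (z - x) - th s (z - y) then 1 else -1 := ⟨_, rfl⟩
  have hφm : Measurable φ := by
    rw [hφ]
    refine Measurable.ite ?_ measurable_const measurable_const
    exact measurableSet_le measurable_const
      ((hc.comp (continuous_sub_right x)).sub (hc.comp (continuous_sub_right y))).measurable
  have hφb : ∀ z, |φ z| ≤ 1 := by
    intro z; rw [hφ]; simp only; split_ifs <;> simp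
  have hint : ∀ w : UnitAddCircle, Integrable (fun z => φ z * th s (z - w)) := by
    intro w
    have : Integrable (fun z : UnitAddCircle => th s (z - w)) :=
      Continuous.integrable_of_hasCompactSupport (hc.comp (continuous_sub_right w))
        (HasCompactSupport.of_compactSpace _)
    exact this.bdd_mul hφm.aestronglyMeasurable (Filter.Eventually.of_forall hφb)
  have h1 : ∫ z, |th s (z - x) - th s (z - y)|
      = (∫ z, φ z * th s (z - x)) - ∫ z, φ z * th s (z - y) := by
    rw [← integral_sub (hint x) (hint y)]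
    refine integral_congr_ae (Filter.Eventually.of_forall fun z => ?_)
    simp only
    rw [hφ]
    simp only
    split_ifs with h
    · rw [abs_of_nonneg h]; ring
    · rw [abs_of_neg (not_le.1 h)]; ring
  have h2 : ∀ w : UnitAddCircle, ∫ z, φ z * th s (z - w)
      = ∫ u, φ (w + (u : UnitAddCircle)) ∂(gaussianReal 0 s) := by
    intro w
    have hm : Measurable (fun x : ℝ => (x : UnitAddCircle)) :=
      (AddCircle.continuous_mk' (1 : ℝ)).measurable
    have e1 : ∫ u, φ (w + (u : UnitAddCircle)) ∂(gaussianReal 0 s)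
        = ∫ u, φ (w + u) ∂((gaussianReal 0 s).map (fun x : ℝ => (x : UnitAddCircle))) := by
      rw [integral_map hm.aemeasurable]
      exact (hφm.comp (measurable_const_add w)).aestronglyMeasurable
    rw [e1, law1 hs, integral_withDensity_eq_integral_toReal_smul
      (hc.measurable.ennreal_ofReal)
      (Filter.Eventually.of_forall fun x => ENNReal.ofReal_lt_top)]
    rw [← integral_add_left_eq_self (μ := (volume : Measure UnitAddCircle))
      (fun z => φ z * th s (z - w)) w]
    refine integral_congr_ae (Filter.Eventually.of_forall fun z => ?_)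
    simp only
    rw [ENNReal.toReal_ofReal (th_nonneg hs' z), smul_eq_mul, add_sub_cancel_left, mul_comm]
  rw [h1, h2, h2]
  obtain ⟨h, hh, hn⟩ := exists_lift (x - y)
  have h3 : ∀ u : ℝ, φ (x + (u : UnitAddCircle))
      = (fun v : ℝ => φ (y + (v : UnitAddCircle))) (u + h) := by
    intro u
    simp only
    rw [AddCircle.coe_add, hh]
    congr 1
    abel
  simp only [h3]
  have hm : Measurable (fun x : ℝ => (x : UnitAddCircle)) :=
    (AddCircle.continuous_mk' (1 : ℝ)).measurable
  have h4 := gauss_shift hs h (φ := fun v : ℝ => φ (y + (v : UnitAddCircle)))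
    (hφm.comp (hm.const_add y)) (fun u => hφb _)
  rw [hn] at h4
  exact (le_abs_self _).trans h4

/-- The total variation distance of shifted heat kernels on the torus. -/
lemma tv3 {s : ℝ≥0} (hs : 0 < s) (x y : T3) :
    ∫ z : T3, |pk s (z - x) - pk s (z - y)| ≤ ∑ i, 2 * ‖x i - y i‖ / Real.sqrt s := by
  have hs' : (0 : ℝ) < s := by exact_mod_cast hs
  have hc := th_continuous hs'
  have hcc : ∀ w : UnitAddCircle, Continuous fun z : UnitAddCircle => th s (z - w) :=
    fun w => hc.comp (continuous_sub_right w)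
  have h1 : ∀ w : UnitAddCircle, ∫ z : UnitAddCircle, th s (z - w) = 1 := by
    intro w
    rw [integral_sub_right_eq_self (fun z => th s z) w, integral_th hs']
  have hd : ∀ w w' : UnitAddCircle, Continuous fun z => |th s (z - w) - th s (z - w')| :=
    fun w w' => ((hcc w).sub (hcc w')).abs
  have e1 : ∫ z : T3, |th s (z 0 - x 0) - th s (z 0 - y 0)| * th s (z 1 - x 1) * th s (z 2 - x 2)
      = ∫ z, |th s (z - x 0) - th s (z - y 0)| := by
    have := integral_fintype_prod_volume_eq_prod (fun (i : Fin 3) (z : UnitAddCircle) =>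
      if i = 0 then |th s (z - x 0) - th s (z - y 0)| else th s (z - x i))
    simp only [Fin.prod_univ_three] at this
    simp at this
    rw [this, h1, h1]
    ring
  have e2 : ∫ z : T3, th s (z 0 - y 0) * |th s (z 1 - x 1) - th s (z 1 - y 1)| * th s (z 2 - x 2)
      = ∫ z, |th s (z - x 1) - th s (z - y 1)| := by
    have := integral_fintype_prod_volume_eq_prod (fun (i : Fin 3) (z : UnitAddCircle) =>
      if i = 1 then |th s (z - x 1) - th s (z - y 1)| else
        if i = 0 then th s (z - y 0) else th s (z - x 2))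
    simp only [Fin.prod_univ_three] at this
    simp at this
    rw [this, h1, h1]
    ring
  have e3 : ∫ z : T3, th s (z 0 - y 0) * th s (z 1 - y 1) * |th s (z 2 - x 2) - th s (z 2 - y 2)|
      = ∫ z, |th s (z - x 2) - th s (z - y 2)| := by
    have := integral_fintype_prod_volume_eq_prod (fun (i : Fin 3) (z : UnitAddCircle) =>
      if i = 2 then |th s (z - x 2) - th s (z - y 2)| else th s (z - y i))
    simp only [Fin.prod_univ_three] at this
    simp at this
    rw [this, h1, h1]
    ring
  have c0 : ∀ (i : Fin 3) (w : UnitAddCircle), Continuous fun z : T3 => th s (z i - w) :=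
    fun i w => (hcc w).comp (continuous_apply i)
  have cd : ∀ (i : Fin 3) (w w' : UnitAddCircle),
      Continuous fun z : T3 => |th s (z i - w) - th s (z i - w')| :=
    fun i w w' => (hd w w').comp (continuous_apply i)
  have := prob_T3
  have i1 : Integrable fun z : T3 =>
      |th s (z 0 - x 0) - th s (z 0 - y 0)| * th s (z 1 - x 1) * th s (z 2 - x 2) :=
    cont_int (((cd 0 _ _).mul (c0 1 _)).mul (c0 2 _)) _
  have i2 : Integrable fun z : T3 =>
      th s (z 0 - y 0) * |th s (z 1 - x 1) - th s (z 1 - y 1)| * th s (z 2 - x 2) :=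
    cont_int (((c0 0 _).mul (cd 1 _ _)).mul (c0 2 _)) _
  have i3 : Integrable fun z : T3 =>
      th s (z 0 - y 0) * th s (z 1 - y 1) * |th s (z 2 - x 2) - th s (z 2 - y 2)| :=
    cont_int (((c0 0 _).mul (c0 1 _)).mul (cd 2 _ _)) _
  have hpt : ∀ z : T3, |pk s (z - x) - pk s (z - y)|
      ≤ |th s (z 0 - x 0) - th s (z 0 - y 0)| * th s (z 1 - x 1) * th s (z 2 - x 2)
        + th s (z 0 - y 0) * |th s (z 1 - x 1) - th s (z 1 - y 1)| * th s (z 2 - x 2)
        + th s (z 0 - y 0) * th s (z 1 - y 1) * |th s (z 2 - x 2) - th s (z 2 - y 2)| := by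
    intro z
    unfold pk
    simp only [Fin.prod_univ_three, Pi.sub_apply]
    have n1 := th_nonneg hs' (z 1 - x 1)
    have n2 := th_nonneg hs' (z 2 - x 2)
    have n3 := th_nonneg hs' (z 0 - y 0)
    have n4 := th_nonneg hs' (z 1 - y 1)
    rw [show th s (z 0 - x 0) * th s (z 1 - x 1) * th s (z 2 - x 2)
        - th s (z 0 - y 0) * th s (z 1 - y 1) * th s (z 2 - y 2)
        = (th s (z 0 - x 0) - th s (z 0 - y 0)) * th s (z 1 - x 1) * th s (z 2 - x 2)
        + th s (z 0 - y 0) * (th s (z 1 - x 1) - th s (z 1 - y 1)) * th s (z 2 - x 2)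
        + th s (z 0 - y 0) * th s (z 1 - y 1) * (th s (z 2 - x 2) - th s (z 2 - y 2)) by ring]
    refine (abs_add_le _ _).trans ?_
    refine add_le_add ((abs_add_le _ _).trans ?_) ?_
    · refine add_le_add (le_of_eq ?_) (le_of_eq ?_)
      · rw [abs_mul, abs_mul, abs_of_nonneg n1, abs_of_nonneg n2]
      · rw [abs_mul, abs_mul, abs_of_nonneg n3, abs_of_nonneg n2]
    · rw [abs_mul, abs_mul, abs_of_nonneg n3, abs_of_nonneg n4]
  calc ∫ z : T3, |pk s (z - x) - pk s (z - y)|
      ≤ ∫ z : T3, (|th s (z 0 - x 0) - th s (z 0 - y 0)| * th s (z 1 - x 1) * th s (z 2 - x 2)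
        + th s (z 0 - y 0) * |th s (z 1 - x 1) - th s (z 1 - y 1)| * th s (z 2 - x 2)
        + th s (z 0 - y 0) * th s (z 1 - y 1) * |th s (z 2 - x 2) - th s (z 2 - y 2)|) :=
        integral_mono_of_nonneg (Filter.Eventually.of_forall fun z => abs_nonneg _)
          ((i1.add i2).add i3) (Filter.Eventually.of_forall hpt)
    _ = (∫ z, |th s (z - x 0) - th s (z - y 0)|) + (∫ z, |th s (z - x 1) - th s (z - y 1)|)
        + ∫ z, |th s (z - x 2) - th s (z - y 2)| := by
        have i12 : Integrable fun z : T3 =>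
            |th s (z 0 - x 0) - th s (z 0 - y 0)| * th s (z 1 - x 1) * th s (z 2 - x 2)
            + th s (z 0 - y 0) * |th s (z 1 - x 1) - th s (z 1 - y 1)| * th s (z 2 - x 2) :=
          i1.add i2
        rw [integral_add i12 i3, integral_add i1 i2, e1, e2, e3]
    _ ≤ _ := by
        rw [Fin.sum_univ_three]
        exact add_le_add (add_le_add (tv1 hs _ _) (tv1 hs _ _)) (tv1 hs _ _)

end Pool.Agent.T2H28.OT
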