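import Mathlib

/-!
# The heat kernel on the circle
-/

set_option autoImplicit false

namespace Pool.Agent.T2H28.OT

open MeasureTheory ProbabilityTheory
open scoped ENNReal NNReal

lemma exp_lt_one' {c : ℝ} (hc : 0 < c) : Real.exp (-c) < 1 := by
  rw [← Real.exp_zero]
  exact Real.exp_lt_exp.2 (by linarith)

/-- The Gaussian sum `Σ exp (-c n^2)`. -/
noncomputable def gs (c : ℝ) : ℝ := ∑' n : ℤ, Real.exp (-c * (n : ℝ) ^ 2)

lemma gs_summable_aux {c : ℝ} (hc : 0 < c) :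
    Summable (fun n : ℕ => Real.exp (-c * (n : ℝ) ^ 2)) := by
  have h1 : Summable (fun n : ℕ => Real.exp (-c) ^ n) :=
    summable_geometric_of_lt_one (Real.exp_pos _).le (exp_lt_one' hc)
  refine Summable.of_nonneg_of_le (fun n => (Real.exp_pos _).le) (fun n => ?_) h1
  rw [← Real.exp_nat_mul]
  apply Real.exp_le_exp.2
  have h2 : (n : ℝ) ≤ (n : ℝ) ^ 2 := by
    rcases Nat.eq_zero_or_pos n with h | h
    · simp [h]
    · have : (1 : ℝ) ≤ n := by exact_mod_cast h
      nlinarith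
  nlinarith

lemma gs_summable {c : ℝ} (hc : 0 < c) :
    Summable (fun n : ℤ => Real.exp (-c * (n : ℝ) ^ 2)) := by
  refine Summable.of_nat_of_neg ?_ ?_
  · simpa using gs_summable_aux hc
  · simpa using gs_summable_aux hc

lemma gs_bound {c : ℝ} (hc : 0 < c) :
    gs c ≤ 1 + 2 * (Real.exp (-c) / (1 - Real.exp (-c))) := by
  have h0 : Real.exp (-c) < 1 := exp_lt_one' hc
  have hpos := Real.exp_pos (-c)
  have h1 : HasSum (fun n : ℕ => Real.exp (-c) ^ n) (1 - Real.exp (-c))⁻¹ :=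
    hasSum_geometric_of_lt_one hpos.le h0
  have h2 : HasSum (fun n : ℕ => Real.exp (-c) ^ (n + 1)) (Real.exp (-c) / (1 - Real.exp (-c))) := by
    have := h1.mul_left (Real.exp (-c))
    simpa [pow_succ', div_eq_mul_inv] using this
  have h3 : ∀ n : ℕ, Real.exp (-c * ((n : ℝ) + 1) ^ 2) ≤ Real.exp (-c) ^ (n + 1) := by
    intro n
    rw [← Real.exp_nat_mul]
    apply Real.exp_le_exp.2
    push_cast
    have : (0 : ℝ) ≤ n := Nat.cast_nonneg n
    nlinarith [mul_nonneg hc.le this]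
  have h4 : Summable (fun n : ℕ => Real.exp (-c * ((n : ℝ) + 1) ^ 2)) :=
    Summable.of_nonneg_of_le (fun n => (Real.exp_pos _).le) h3 h2.summable
  have h5 : ∑' n : ℕ, Real.exp (-c * ((n : ℝ) + 1) ^ 2) ≤ Real.exp (-c) / (1 - Real.exp (-c)) := by
    rw [← h2.tsum_eq]
    exact h4.tsum_le_tsum h3 h2.summable
  have h6 : gs c = 1 + 2 * ∑' n : ℕ, Real.exp (-c * ((n : ℝ) + 1) ^ 2) := by
    unfold gs
    have h7 := tsum_of_add_one_of_neg_add_one (f := fun n : ℤ => Real.exp (-c * (n : ℝ) ^ 2))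
      (by simpa using h4) (by
        have : (fun n : ℕ => Real.exp (-c * (((-((n : ℤ) + 1) : ℤ)) : ℝ) ^ 2))
            = fun n : ℕ => Real.exp (-c * ((n : ℝ) + 1) ^ 2) := by
          funext n
          congr 2
          push_cast
          ring
        rw [this]
        exact h4)
    rw [h7]
    have h8 : ∀ n : ℕ, (((-((n : ℤ) + 1) : ℤ)) : ℝ) ^ 2 = ((n : ℝ) + 1) ^ 2 := by
      intro n; push_cast; ring
    simp only [h8]
    push_cast
    simp
    ring
  rw [h6]
  linarith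

lemma one_le_gs {c : ℝ} (hc : 0 < c) : 1 ≤ gs c := by
  have := (gs_summable hc).le_tsum 0 (fun n _ => (Real.exp_pos _).le)
  simpa [gs] using this

lemma gs_anti {c d : ℝ} (hc : 0 < c) (hcd : c ≤ d) : gs d ≤ gs c := by
  refine (gs_summable (lt_of_lt_of_le hc hcd)).tsum_le_tsum (fun n => ?_) (gs_summable hc)
  apply Real.exp_le_exp.2
  have : 0 ≤ (n : ℝ) ^ 2 := sq_nonneg _
  nlinarith

/-- The value at zero of the heat kernel at time `s` on the circle. -/
noncomputable def f0 (s : ℝ) : ℝ := gs (2 * Real.pi ^ 2 * s)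

lemma f0_eq {s : ℝ} (hs : 0 < s) :
    f0 s = 1 / Real.sqrt (2 * Real.pi * s) * gs (1 / (2 * s)) := by
  have hpi := Real.pi_pos
  have h := Real.tsum_exp_neg_mul_int_sq (a := 2 * Real.pi * s) (by positivity)
  unfold f0 gs
  rw [Real.sqrt_eq_rpow]
  convert h using 3
  · ring_nf
  · field_simp

lemma one_le_f0 {s : ℝ} (hs : 0 < s) : 1 ≤ f0 s := one_le_gs (by positivity)

lemma f0_pos {s : ℝ} (hs : 0 < s) : 0 < f0 s := lt_of_lt_of_le one_pos (one_le_f0 hs)

lemma f0_anti {s t : ℝ} (hs : 0 < s) (hst : s ≤ t) : f0 t ≤ f0 s := by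
  refine gs_anti (by positivity) ?_
  have := Real.pi_pos
  gcongr

/-- Lower bound for all times. -/
lemma f0_ge {s : ℝ} (hs : 0 < s) : 1 / Real.sqrt (2 * Real.pi * s) ≤ f0 s := by
  rw [f0_eq hs]
  have h1 : 1 ≤ gs (1 / (2 * s)) := one_le_gs (by positivity)
  have h2 : 0 ≤ 1 / Real.sqrt (2 * Real.pi * s) := by positivity
  nlinarith

lemma exp_neg_five : Real.exp (-5 : ℝ) ≤ 1 / 100 := by
  have h1 : (2.7 : ℝ) ≤ Real.exp 1 := by
    have := Real.exp_one_gt_d9
    linarith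
  have h2 : Real.exp 5 = Real.exp 1 ^ 5 := by
    rw [← Real.exp_nat_mul]; norm_num
  have h3 : (100 : ℝ) ≤ Real.exp 5 := by
    rw [h2]
    calc (100 : ℝ) ≤ 2.7 ^ 5 := by norm_num
      _ ≤ _ := pow_le_pow_left₀ (by norm_num) h1 5
  rw [Real.exp_neg, one_div]
  exact inv_anti₀ (by norm_num) h3

/-- Upper bound for small times. -/
lemma f0_le_small {s : ℝ} (hs : 0 < s) (hs1 : s ≤ 1 / 10) :
    f0 s ≤ 1.03 * (1 / Real.sqrt (2 * Real.pi * s)) := by
  rw [f0_eq hs]
  have h2 : 0 ≤ 1 / Real.sqrt (2 * Real.pi * s) := by positivity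
  have h5 : 5 ≤ 1 / (2 * s) := by
    rw [le_div_iff₀ (by positivity)]
    linarith
  have h3 : gs (1 / (2 * s)) ≤ gs 5 := gs_anti (by norm_num) h5
  have h4 : gs 5 ≤ 1.03 := by
    refine (gs_bound (by norm_num)).trans ?_
    have := exp_neg_five
    have h6 : Real.exp (-5 : ℝ) / (1 - Real.exp (-5)) ≤ 1 / 99 := by
      rw [div_le_div_iff₀ (by linarith) (by norm_num)]
      linarith
    linarith
  have h7 := h3.trans h4
  nlinarith

/-- Upper bound for times up to one. -/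
lemma f0_le {s : ℝ} (hs : 0 < s) (hs1 : s ≤ 1) : f0 s ≤ 3 / Real.sqrt s := by
  rw [f0_eq hs]
  have h5 : 1 / 2 ≤ 1 / (2 * s) := by
    rw [div_le_div_iff₀ (by norm_num) (by positivity)]
    linarith
  have h3 : gs (1 / (2 * s)) ≤ gs (1 / 2) := gs_anti (by norm_num) h5
  have h4 : gs (1 / 2) ≤ 5 := by
    refine (gs_bound (by norm_num)).trans ?_
    have h8 : Real.exp (-(1 / 2 : ℝ)) ≤ 2 / 3 := by
      rw [Real.exp_neg]
      have : (3 / 2 : ℝ) ≤ Real.exp (1 / 2) := by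
        have := Real.add_one_le_exp (1 / 2 : ℝ)
        linarith
      calc (Real.exp (1 / 2))⁻¹ ≤ (3 / 2 : ℝ)⁻¹ := inv_anti₀ (by norm_num) this
        _ = 2 / 3 := by norm_num
    have h6 : Real.exp (-(1 / 2 : ℝ)) / (1 - Real.exp (-(1 / 2 : ℝ))) ≤ 2 := by
      rw [div_le_iff₀ (by linarith)]
      linarith
    linarith
  have h7 := h3.trans h4
  have h8 : (2 : ℝ) ≤ Real.sqrt (2 * Real.pi) := by
    rw [show (2 : ℝ) = Real.sqrt 4 by
      rw [show (4 : ℝ) = 2 ^ 2 by norm_num, Real.sqrt_sq (by norm_num)]]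
    apply Real.sqrt_le_sqrt
    have := Real.pi_gt_three
    rw [show Real.sqrt 4 = 2 by
      rw [show (4 : ℝ) = 2 ^ 2 by norm_num, Real.sqrt_sq (by norm_num)]]
    linarith
  have h9 : 0 < Real.sqrt s := Real.sqrt_pos.2 hs
  have h10 : Real.sqrt (2 * Real.pi * s) = Real.sqrt (2 * Real.pi) * Real.sqrt s :=
    Real.sqrt_mul (by positivity) s
  rw [h10]
  calc 1 / (Real.sqrt (2 * Real.pi) * Real.sqrt s) * gs (1 / (2 * s))
      ≤ 1 / (2 * Real.sqrt s) * 5 := by
        have h11 : 0 ≤ gs (1 / (2 * s)) := le_trans zero_le_one (one_le_gs (by positivity))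
        gcongr
    _ ≤ 3 / Real.sqrt s := by
        rw [div_mul_eq_mul_div, div_le_div_iff₀ (by positivity) h9]
        nlinarith

/-- Exponential decay for large times. -/
lemma f0_decay {s : ℝ} (hs : 1 ≤ s) : f0 s - 1 ≤ 4 * Real.exp (-s) := by
  have hpi := Real.pi_gt_three
  have h1 : s ≤ 2 * Real.pi ^ 2 * s := by
    have : (1 : ℝ) ≤ 2 * Real.pi ^ 2 := by nlinarith
    nlinarith
  have h2 : f0 s ≤ gs s := gs_anti (by linarith) h1
  have h3 := gs_bound (c := s) (by linarith)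
  have h4 : Real.exp (-s) ≤ 1 / 2 := by
    have h5 : Real.exp (-s) ≤ Real.exp (-1) := Real.exp_le_exp.2 (by linarith)
    have h6 : Real.exp (-1 : ℝ) ≤ 1 / 2 := by
      rw [Real.exp_neg, one_div]
      refine inv_anti₀ (by norm_num) ?_
      have := Real.add_one_le_exp (1 : ℝ)
      linarith
    linarith
  have hp := Real.exp_pos (-s)
  have h5 : Real.exp (-s) / (1 - Real.exp (-s)) ≤ 2 * Real.exp (-s) := by
    rw [div_le_iff₀ (by linarith)]
    nlinarith
  linarith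

end Pool.Agent.T2H28.OT
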