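import Pool.Agent.T2H28.OT.Circle

/-!
# The heat kernel on the three dimensional torus
-/

set_option autoImplicit false

namespace Pool.Agent.T2H28.OT

open MeasureTheory ProbabilityTheory
open scoped ENNReal NNReal

/-- The three dimensional torus. -/
abbrev T3 : Type := Fin 3 → UnitAddCircle

lemma prob_T3 : IsProbabilityMeasure (volume : Measure T3) := by
  have := prob_circle
  infer_instance

/-- The heat kernel on the torus. -/
noncomputable def pk (s : ℝ) (x : T3) : ℝ := ∏ i, th s (x i)

/-- Its value at zero. -/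
noncomputable def D (s : ℝ) : ℝ := f0 s ^ 3

lemma D_pos {s : ℝ} (hs : 0 < s) : 0 < D s := pow_pos (f0_pos hs) 3

lemma one_le_D {s : ℝ} (hs : 0 < s) : 1 ≤ D s := one_le_pow₀ (one_le_f0 hs)

lemma D_anti {s t : ℝ} (hs : 0 < s) (hst : s ≤ t) : D t ≤ D s :=
  pow_le_pow_left₀ (f0_pos (lt_of_lt_of_le hs hst)).le (f0_anti hs hst) 3

lemma pk_continuous {s : ℝ} (hs : 0 < s) : Continuous (pk s) := by
  unfold pk
  exact continuous_finsetProd _ fun i _ => (th_continuous hs).comp (continuous_apply i)

lemma pk_nonneg {s : ℝ} (hs : 0 < s) (x : T3) : 0 ≤ pk s x :=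
  Finset.prod_nonneg fun i _ => th_nonneg hs _

lemma pk_le {s : ℝ} (hs : 0 < s) (x : T3) : pk s x ≤ D s := by
  unfold pk D
  calc ∏ i, th s (x i) ≤ ∏ _i : Fin 3, f0 s :=
        Finset.prod_le_prod (fun i _ => th_nonneg hs _)
          (fun i _ => (le_abs_self _).trans (th_abs_le hs _))
    _ = f0 s ^ 3 := by simp

lemma pk_zero (s : ℝ) : pk s 0 = D s := by
  unfold pk D
  simp [th_zero]

lemma pk_neg (s : ℝ) (x : T3) : pk s (-x) = pk s x := by
  unfold pk
  simp [th_neg]

lemma pk_sub_one_abs_le {s : ℝ} (hs : 0 < s) (x : T3) : |pk s x - 1| ≤ D s - 1 := by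
  unfold pk D
  rw [Fin.prod_univ_three]
  obtain ⟨a, ha⟩ : ∃ a, a = th s (x 0) - 1 := ⟨_, rfl⟩
  obtain ⟨b, hb⟩ : ∃ b, b = th s (x 1) - 1 := ⟨_, rfl⟩
  obtain ⟨c, hc⟩ : ∃ c, c = th s (x 2) - 1 := ⟨_, rfl⟩
  obtain ⟨e, he⟩ : ∃ e, e = f0 s - 1 := ⟨_, rfl⟩
  have ha1 : |a| ≤ e := by rw [ha, he]; exact th_sub_one_abs_le hs _
  have hb1 : |b| ≤ e := by rw [hb, he]; exact th_sub_one_abs_le hs _
  have hc1 : |c| ≤ e := by rw [hc, he]; exact th_sub_one_abs_le hs _
  have e0 : 0 ≤ e := le_trans (abs_nonneg _) ha1
  have h1 : th s (x 0) * th s (x 1) * th s (x 2) - 1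
      = a + b + c + a * b + a * c + b * c + a * b * c := by
    rw [ha, hb, hc]; ring
  have h2 : f0 s ^ 3 - 1 = e + e + e + e * e + e * e + e * e + e * e * e := by
    rw [he]; ring
  rw [h1, h2]
  have hab : |a * b| ≤ e * e := by rw [abs_mul]; exact mul_le_mul ha1 hb1 (abs_nonneg _) e0
  have hac : |a * c| ≤ e * e := by rw [abs_mul]; exact mul_le_mul ha1 hc1 (abs_nonneg _) e0
  have hbc : |b * c| ≤ e * e := by rw [abs_mul]; exact mul_le_mul hb1 hc1 (abs_nonneg _) e0
  have habc : |a * b * c| ≤ e * e * e := by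
    rw [abs_mul]; exact mul_le_mul hab hc1 (abs_nonneg _) (by positivity)
  calc |a + b + c + a * b + a * c + b * c + a * b * c|
      ≤ |a| + |b| + |c| + |a * b| + |a * c| + |b * c| + |a * b * c| := by
        refine (abs_add_le _ _).trans ?_
        gcongr
        refine (abs_add_le _ _).trans ?_
        gcongr
        refine (abs_add_le _ _).trans ?_
        gcongr
        refine (abs_add_le _ _).trans ?_
        gcongr
        refine (abs_add_le _ _).trans ?_
        gcongr
        exact abs_add_le _ _
    _ ≤ _ := by gcongr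

lemma cont_int {f : T3 → ℝ} (hf : Continuous f) (μ : Measure T3) [IsFiniteMeasure μ] :
    Integrable f μ :=
  Continuous.integrable_of_hasCompactSupport hf (HasCompactSupport.of_compactSpace _)

lemma pk_integral {s : ℝ} (hs : 0 < s) : ∫ x : T3, pk s x = 1 := by
  unfold pk
  have := integral_fintype_prod_volume_eq_prod (fun (_ : Fin 3) (x : UnitAddCircle) => th s x)
  rw [this]
  simp [integral_th hs]

lemma pk_conv {s t : ℝ} (hs : 0 < s) (ht : 0 < t) (x : T3) :
    ∫ y : T3, pk s (x + y) * pk t y = pk (s + t) x := by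
  have h1 : ∀ y : T3, pk s (x + y) * pk t y = ∏ i, (th s (x i + y i) * th t (y i)) := by
    intro y
    unfold pk
    rw [← Finset.prod_mul_distrib]
    rfl
  simp only [h1]
  rw [integral_fintype_prod_volume_eq_prod
    (fun (i : Fin 3) (y : UnitAddCircle) => th s (x i + y) * th t y)]
  unfold pk
  exact Finset.prod_congr rfl fun i _ => th_conv hs ht (x i)

/-- The projection of `ℝ^3` onto the torus. -/
def prj (y : Fin 3 → ℝ) : T3 := fun i => (y i : UnitAddCircle)

lemma prj_measurable : Measurable prj := by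
  refine measurable_pi_lambda _ fun i => ?_
  exact (AddCircle.continuous_mk' (1 : ℝ)).measurable.comp (measurable_pi_apply i)

lemma prj_continuous : Continuous prj := by
  refine continuous_pi fun i => ?_
  exact (AddCircle.continuous_mk' (1 : ℝ)).comp (continuous_apply i)

lemma prj_add (x y : Fin 3 → ℝ) : prj (x + y) = prj x + prj y := by
  funext i; simp [prj]

/-- The centred Gaussian law with covariance `s I` on `ℝ^3`. -/
noncomputable def gau (s : ℝ≥0) : Measure (Fin 3 → ℝ) := Measure.pi fun _ => gaussianReal 0 s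

instance (s : ℝ≥0) : IsProbabilityMeasure (gau s) := by unfold gau; infer_instance

/-- The law of the projection of a Gaussian vector. -/
lemma law3 {s : ℝ≥0} (hs : 0 < s) :
    (gau s).map prj = volume.withDensity (fun x : T3 => ENNReal.ofReal (pk s x)) := by
  have hs' : (0 : ℝ) < s := by exact_mod_cast hs
  have hm : Measurable (fun x : ℝ => (x : UnitAddCircle)) :=
    (AddCircle.continuous_mk' (1 : ℝ)).measurable
  have h1 : (gau s).map prj
      = Measure.pi fun _ : Fin 3 => (gaussianReal 0 s).map (fun x : ℝ => (x : UnitAddCircle)) := by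
    unfold gau
    have : ∀ i : Fin 3, SigmaFinite ((gaussianReal 0 s).map (fun x : ℝ => (x : UnitAddCircle))) := by
      intro i
      have := Measure.isProbabilityMeasure_map (μ := gaussianReal 0 s) hm.aemeasurable
      infer_instance
    exact (Measure.pi_map_pi (μ := fun _ : Fin 3 => gaussianReal 0 s)
      (f := fun (_ : Fin 3) (x : ℝ) => (x : UnitAddCircle)) (fun _ => hm.aemeasurable))
  rw [h1]
  simp only [law1 hs]
  have hthi : Integrable (th s) := Continuous.integrable_of_hasCompactSupport (th_continuous hs')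
      (HasCompactSupport.of_compactSpace _)
  have hfin : IsFiniteMeasure
      ((volume : Measure UnitAddCircle).withDensity (fun x => ENNReal.ofReal (th s x))) :=
    isFiniteMeasure_withDensity_ofReal hthi.2
  refine Measure.pi_eq fun t ht => ?_
  rw [withDensity_apply _ (MeasurableSet.univ_pi ht)]
  have h2 : ∀ i, (volume : Measure UnitAddCircle).withDensity
      (fun x => ENNReal.ofReal (th s x)) (t i)
      = ENNReal.ofReal (∫ x, (t i).indicator (th s) x) := by
    intro i
    rw [withDensity_apply _ (ht i), integral_indicator (ht i),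
      ofReal_integral_eq_lintegral_ofReal hthi.integrableOn
        (Filter.Eventually.of_forall fun x => th_nonneg hs' x)]
  simp only [h2]
  rw [← ENNReal.ofReal_prod_of_nonneg (fun i _ => integral_nonneg fun x =>
    Set.indicator_nonneg (fun x _ => th_nonneg hs' x) x)]
  rw [← integral_fintype_prod_volume_eq_prod (fun (i : Fin 3) (x : UnitAddCircle) =>
    (t i).indicator (th s) x)]
  rw [← ofReal_integral_eq_lintegral_ofReal
    ((cont_int (pk_continuous hs') volume).integrableOn)
    (Filter.Eventually.of_forall fun x => pk_nonneg hs' x),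
    ← integral_indicator (MeasurableSet.univ_pi ht)]
  congr 1
  refine integral_congr_ae (Filter.Eventually.of_forall fun x => ?_)
  simp only
  by_cases hx : x ∈ Set.univ.pi t
  · rw [Set.indicator_of_mem hx]
    unfold pk
    refine Finset.prod_congr rfl fun i _ => ?_
    rw [Set.indicator_of_mem (hx i (Set.mem_univ i))]
  · rw [Set.indicator_of_notMem hx]
    have : ∃ i, x i ∉ t i := by
      by_contra hcon
      push Not at hcon
      exact hx fun i _ => hcon i
    obtain ⟨i, hi⟩ := this
    symm
    refine Finset.prod_eq_zero (Finset.mem_univ i) ?_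
    rw [Set.indicator_of_notMem hi]

/-- Averaging against the Gaussian law is convolution with the kernel. -/
lemma gau_integral {s : ℝ≥0} (hs : 0 < s) {F : T3 → ℝ} (hF : Measurable F) (x : T3) :
    ∫ y, F (x + prj y) ∂(gau s) = ∫ y : T3, F (x + y) * pk s y := by
  have hs' : (0 : ℝ) < s := by exact_mod_cast hs
  have h1 : ∫ y, F (x + prj y) ∂(gau s) = ∫ y, F (x + y) ∂((gau s).map prj) := by
    rw [integral_map prj_measurable.aemeasurable]
    exact (hF.comp (measurable_const_add x)).aestronglyMeasurable
  rw [h1, law3 hs, integral_withDensity_eq_integral_toReal_smul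
    ((pk_continuous hs').measurable.ennreal_ofReal)
    (Filter.Eventually.of_forall fun x => ENNReal.ofReal_lt_top)]
  refine integral_congr_ae (Filter.Eventually.of_forall fun y => ?_)
  simp only
  rw [ENNReal.toReal_ofReal (pk_nonneg hs' y), smul_eq_mul, mul_comm]

end Pool.Agent.T2H28.OT
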